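import Mathlib

/-!
The ring `ℤ[ζ]`, `ζ` a primitive root of unity of order `2 ^ (l + 1)`, as `ℤ[X] / (X ^ (2 ^ l) + 1)`.
-/

set_option autoImplicit false

namespace Pool.Agent.N92.FJ

open Polynomial

/-- The cyclotomic polynomial of order `2 ^ (l + 1)`. -/
noncomputable def Phi (l : ℕ) : ℤ[X] := X ^ (2 ^ l) + 1

theorem Phi_eq (l : ℕ) : Phi l = cyclotomic (2 ^ (l + 1)) ℤ := by
  have h := cyclotomic_prime_pow_eq_geom_sum (R := ℤ) (p := 2) (n := l) Nat.prime_two
  rw [h, Finset.sum_range_succ, Finset.sum_range_one, pow_zero, pow_one, Phi, add_comm]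

theorem Phi_monic (l : ℕ) : (Phi l).Monic := by
  rw [Phi_eq]; exact cyclotomic.monic _ _

theorem Phi_natDegree (l : ℕ) : (Phi l).natDegree = 2 ^ l := by
  rw [Phi_eq, natDegree_cyclotomic, Nat.totient_prime_pow_succ Nat.prime_two]
  simp

theorem Phi_prime (l : ℕ) : Prime (Phi l) := by
  rw [Phi_eq]
  exact (cyclotomic.irreducible (by positivity)).prime

/-- The ring. -/
abbrev R (l : ℕ) := AdjoinRoot (Phi l)

instance (l : ℕ) : IsDomain (R l) := AdjoinRoot.isDomain_of_prime (Phi_prime l)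

/-- The root of unity. -/
noncomputable def zt (l : ℕ) : R l := AdjoinRoot.root (Phi l)

theorem zt_pow (l : ℕ) : (zt l) ^ (2 ^ l) = -1 := by
  have h := AdjoinRoot.eval₂_root (Phi l)
  rw [Phi, eval₂_add, eval₂_pow, eval₂_X, eval₂_one] at h
  exact eq_neg_of_add_eq_zero_left h

instance (l : ℕ) : CharZero (R l) := by
  have h : Function.Injective (AdjoinRoot.of (Phi l)) := by
    apply AdjoinRoot.of.injective_of_degree_ne_zero
    rw [degree_eq_natDegree (Phi_monic l).ne_zero, Phi_natDegree]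
    have : (2 : ℕ) ^ l ≠ 0 := by positivity
    exact_mod_cast this
  have h2 : (algebraMap ℤ (R l)) = AdjoinRoot.of (Phi l) := rfl
  exact charZero_of_injective_algebraMap (R := ℤ) (by rw [h2]; exact h)

theorem zt_prim (l : ℕ) : IsPrimitiveRoot (zt l) (2 ^ (l + 1)) := by
  have h1 : ¬ (zt l) ^ (2 ^ l) = 1 := by
    rw [zt_pow]
    intro h
    have : (2 : R l) = 0 := by linear_combination -h
    exact two_ne_zero this
  have h2 : (zt l) ^ (2 ^ (l + 1)) = 1 := by
    rw [pow_succ, pow_mul, zt_pow]; norm_num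
  have h3 := orderOf_eq_prime_pow h1 h2
  rw [← h3]
  exact IsPrimitiveRoot.orderOf _

instance (l : ℕ) : NeZero (2 ^ (l + 1)) := ⟨by positivity⟩

theorem zt_pow_n (l : ℕ) : (zt l) ^ (2 ^ (l + 1)) = 1 := (zt_prim l).pow_eq_one

/-- The additive character `a ↦ ζ ^ a`. -/
noncomputable def EE (l : ℕ) : AddChar (ZMod (2 ^ (l + 1))) (R l) :=
  AddChar.zmodChar (2 ^ (l + 1)) (zt_pow_n l)

theorem EE_apply (l : ℕ) (a : ZMod (2 ^ (l + 1))) : EE l a = zt l ^ a.val := rfl

theorem EE_nat (l : ℕ) (a : ℕ) : EE l (a : ZMod (2 ^ (l + 1))) = zt l ^ a :=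
  AddChar.zmodChar_apply' _ _

theorem EE_inj (l : ℕ) {a b : ZMod (2 ^ (l + 1))} (h : EE l a = EE l b) : a = b := by
  rw [EE_apply, EE_apply] at h
  have := (zt_prim l).pow_inj (ZMod.val_lt a) (ZMod.val_lt b) h
  exact ZMod.val_injective _ this

theorem EE_sum (l : ℕ) (a : ZMod (2 ^ (l + 1))) :
    ∑ i : ZMod (2 ^ (l + 1)), EE l (a * i) = if a = 0 then ((2 ^ (l + 1) : ℕ) : R l) else 0 := by
  have h := AddChar.sum_mulShift (R := ZMod (2 ^ (l + 1))) (R' := R l) a
    (AddChar.zmodChar_primitive_of_primitive_root (2 ^ (l + 1)) (zt_prim l))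
  rw [ZMod.card] at h
  have h2 : ∑ i : ZMod (2 ^ (l + 1)), EE l (a * i) =
      ∑ x, (AddChar.zmodChar (2 ^ (l + 1)) (zt_pow_n l)) (x * a) :=
    Finset.sum_congr rfl fun i _ => by rw [mul_comm]; rfl
  rw [h2, h]
  split_ifs
  · rfl
  · exact Nat.cast_zero

/-- The representative of degree less than `2 ^ l`. -/
noncomputable def rep (l : ℕ) : R l →ₗ[ℤ] ℤ[X] := AdjoinRoot.modByMonicHom (Phi_monic l)

theorem mk_rep (l : ℕ) (y : R l) : AdjoinRoot.mk (Phi l) (rep l y) = y :=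
  AdjoinRoot.mk_leftInverse (Phi_monic l) y

theorem rep_mk (l : ℕ) (f : ℤ[X]) : rep l (AdjoinRoot.mk (Phi l) f) = f %ₘ Phi l :=
  AdjoinRoot.modByMonicHom_mk _ _

theorem rep_deg (l : ℕ) (y : R l) : (rep l y).natDegree < 2 ^ l := by
  rw [← mk_rep l y, rep_mk]
  have h := natDegree_modByMonic_lt (rep l y) (Phi_monic l) (by
    intro h
    have := Phi_natDegree l
    rw [h, natDegree_one] at this
    have h2 : (2 : ℕ) ^ l ≠ 0 := by positivity
    exact h2 this.symm)
  rwa [Phi_natDegree] at h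

theorem expand (l : ℕ) (y : R l) :
    y = ∑ i ∈ Finset.range (2 ^ l), ((rep l y).coeff i : R l) * zt l ^ i := by
  conv_lhs => rw [← mk_rep l y, as_sum_range' (rep l y) (2 ^ l) (rep_deg l y)]
  rw [map_sum]
  refine Finset.sum_congr rfl fun i _ => ?_
  rw [← C_mul_X_pow_eq_monomial, map_mul, map_pow, AdjoinRoot.mk_X, AdjoinRoot.mk_C,
    eq_intCast (AdjoinRoot.of (Phi l))]
  rfl

/-- The constant coefficient. -/
noncomputable def tau (l : ℕ) (y : R l) : ℤ := (rep l y).coeff 0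

theorem tau_add (l : ℕ) (y z : R l) : tau l (y + z) = tau l y + tau l z := by
  rw [tau, map_add, coeff_add]; rfl

theorem tau_int_mul (l : ℕ) (c : ℤ) (y : R l) : tau l ((c : R l) * y) = c * tau l y := by
  have h : (c : R l) * y = c • y := (zsmul_eq_mul y c).symm
  rw [tau, h, map_smul, coeff_smul, smul_eq_mul]; rfl

theorem tau_one (l : ℕ) : tau l 1 = 1 := by
  rw [tau, ← map_one (AdjoinRoot.mk (Phi l)), rep_mk,
    modByMonic_eq_self_iff (Phi_monic l) |>.mpr]
  · exact coeff_one_zero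
  · rw [degree_one, degree_eq_natDegree (Phi_monic l).ne_zero, Phi_natDegree]
    have : 0 < 2 ^ l := by positivity
    exact_mod_cast this

theorem tau_int (l : ℕ) (c : ℤ) : tau l (c : R l) = c := by
  have h := tau_int_mul l c 1
  rwa [mul_one, tau_one, mul_one] at h

theorem eval_phi {S : Type*} [CommRing S] (l : ℕ) (z : S) (hz : z ^ (2 ^ l) = -1) :
    eval₂ (Int.castRingHom S) z (Phi l) = 0 := by
  rw [Phi, eval₂_add, eval₂_pow, eval₂_X, eval₂_one, hz]
  ring

theorem zt_pow_odd (l c : ℕ) (hc : Odd c) : (zt l ^ c) ^ (2 ^ l) = -1 := by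
  rw [← pow_mul, mul_comm, pow_mul, zt_pow, hc.neg_one_pow]

/-- The conjugation `ζ ↦ ζ ^ c`, for odd `c`. -/
noncomputable def sg (l : ℕ) (c : ℕ) (hc : Odd c) : R l →+* R l :=
  AdjoinRoot.lift (Int.castRingHom _) (zt l ^ c) (eval_phi l _ (zt_pow_odd l c hc))

theorem sg_zt (l c : ℕ) (hc : Odd c) : sg l c hc (zt l) = zt l ^ c := AdjoinRoot.lift_root _

theorem sg_EE (l c : ℕ) (hc : Odd c) (a : ZMod (2 ^ (l + 1))) :
    sg l c hc (EE l a) = EE l ((c : ZMod (2 ^ (l + 1))) * a) := by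
  rw [EE_apply, map_pow, sg_zt, ← pow_mul, ← EE_nat, Nat.cast_mul, ZMod.natCast_val,
    ZMod.cast_id', id]

/-- An element fixed by all conjugations is an integer. -/
theorem fixed (l : ℕ) (y : R l) (h : ∀ c hc, sg l c hc y = y) : y = (tau l y : R l) := by
  have h1 : ∑ j ∈ Finset.range (2 ^ l), sg l (2 * j + 1) (odd_two_mul_add_one j) y = (2 ^ l : ℕ) * y := by
    rw [Finset.sum_congr rfl fun j _ => h (2 * j + 1) (odd_two_mul_add_one j), Finset.sum_const,
      Finset.card_range, nsmul_eq_mul]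
  have h2 : ∀ i ∈ Finset.range (2 ^ l), i ≠ 0 →
      ∑ j ∈ Finset.range (2 ^ l), (zt l ^ (2 * j + 1)) ^ i = 0 := by
    intro i hi hi0
    have h3 : ∀ j, (zt l ^ (2 * j + 1)) ^ i = zt l ^ i * (zt l ^ (2 * i)) ^ j := by
      intro j
      rw [← pow_mul, ← pow_mul, ← pow_add]
      congr 1; ring
    rw [Finset.sum_congr rfl fun j _ => h3 j, ← Finset.mul_sum]
    have h4 : zt l ^ (2 * i) ≠ 1 := by
      intro h5
      have h6 := (zt_prim l).dvd_of_pow_eq_one _ h5
      rw [pow_succ, mul_comm (2 ^ l) 2] at h6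
      have h7 := Nat.dvd_of_mul_dvd_mul_left (by norm_num) h6
      have h8 := Nat.le_of_dvd (Nat.pos_of_ne_zero hi0) h7
      exact absurd (Finset.mem_range.mp hi) (by omega)
    have h5 : (∑ j ∈ Finset.range (2 ^ l), (zt l ^ (2 * i)) ^ j) * (zt l ^ (2 * i) - 1) = 0 := by
      rw [geom_sum_mul, ← pow_mul]
      have : 2 * i * 2 ^ l = 2 ^ (l + 1) * i := by ring
      rw [this, pow_mul, zt_pow_n, one_pow, sub_self]
    have h6 := (mul_eq_zero.mp h5).resolve_right (sub_ne_zero.mpr h4)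
    rw [h6, mul_zero]
  have h3 : ∑ j ∈ Finset.range (2 ^ l), sg l (2 * j + 1) (odd_two_mul_add_one j) y = (2 ^ l : ℕ) * (tau l y : R l) := by
    have h4 : ∀ j, sg l (2 * j + 1) (odd_two_mul_add_one j) y =
        ∑ i ∈ Finset.range (2 ^ l), ((rep l y).coeff i : R l) * (zt l ^ (2 * j + 1)) ^ i := by
      intro j
      conv_lhs => rw [expand l y]
      rw [map_sum]
      exact Finset.sum_congr rfl fun i _ => by rw [map_mul, map_intCast, map_pow, sg_zt]
    rw [Finset.sum_congr rfl fun j _ => h4 j, Finset.sum_comm]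
    have h5 : ∀ i ∈ Finset.range (2 ^ l), i ≠ 0 →
        ∑ j ∈ Finset.range (2 ^ l), ((rep l y).coeff i : R l) * (zt l ^ (2 * j + 1)) ^ i = 0 := by
      intro i hi hi0
      rw [← Finset.mul_sum, h2 i hi hi0, mul_zero]
    rw [Finset.sum_eq_single_of_mem 0 (Finset.mem_range.mpr (by positivity)) fun i hi hi0 => h5 i hi hi0]
    simp only [pow_zero, mul_one]
    rw [Finset.sum_const, Finset.card_range, nsmul_eq_mul, tau]
  have h4 : ((2 ^ l : ℕ) : R l) ≠ 0 := by
    have : (2 : ℕ) ^ l ≠ 0 := by positivity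
    exact_mod_cast this
  exact mul_left_cancel₀ h4 (h1.symm.trans h3)

end Pool.Agent.N92.FJ
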