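import Mathlib
import Pool.Agent.N92.FJ.Ring

/-!
A rigidity lemma: a function on `(ℤ / n) ^ 2` with values of absolute value one, whose Fourier
transform has integral values, is a character.
-/

set_option autoImplicit false

namespace Pool.Agent.N92.FJ

open Finset

variable {l : ℕ}

/-- The pairs of residues. -/
abbrev GG (l : ℕ) := ZMod (2 ^ (l + 1)) × ZMod (2 ^ (l + 1))

/-- The pairing. -/
noncomputable def pr (v g : GG l) : R l := EE l (v.1 * g.1 + v.2 * g.2)

theorem pr_add (v w g : GG l) : pr (v + w) g = pr v g * pr w g := by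
  rw [pr, pr, pr, ← AddChar.map_add_eq_mul, Prod.fst_add, Prod.snd_add]
  congr 1; ring

theorem pr_zero (g : GG l) : pr 0 g = 1 := by
  rw [pr, Prod.fst_zero, Prod.snd_zero, zero_mul, zero_mul, add_zero, AddChar.map_zero_eq_one]

theorem pr_sum (v : GG l) :
    ∑ g : GG l, pr v g = if v = 0 then ((2 ^ (l + 1) : ℕ) : R l) ^ 2 else 0 := by
  rw [Fintype.sum_prod_type]
  have h : ∀ i j : ZMod (2 ^ (l + 1)), pr v (i, j) = EE l (v.1 * i) * EE l (v.2 * j) := by
    intro i j
    rw [pr, AddChar.map_add_eq_mul]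
  rw [sum_congr rfl fun i _ => sum_congr rfl fun j _ => h i j, ← sum_mul_sum, EE_sum, EE_sum]
  by_cases h1 : v.1 = 0
  · by_cases h2 : v.2 = 0
    · have h3 : v = 0 := Prod.ext h1 h2
      rw [if_pos h1, if_pos h2, if_pos h3, sq]
    · have h3 : v ≠ 0 := fun h => h2 (by rw [h]; rfl)
      rw [if_neg h2, if_neg h3, mul_zero]
  · have h3 : v ≠ 0 := fun h => h1 (by rw [h]; rfl)
    rw [if_neg h1, if_neg h3, zero_mul]

/-- The Fourier transform. -/
noncomputable def hat (f : GG l → R l) (g : GG l) : R l := ∑ v : GG l, f v * pr (-v) g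

theorem hat_inv (f : GG l → R l) (w : GG l) :
    ∑ g : GG l, hat f g * pr w g = ((2 ^ (l + 1) : ℕ) : R l) ^ 2 * f w := by
  have h1 : ∀ g : GG l, hat f g * pr w g = ∑ v : GG l, f v * pr (w - v) g := by
    intro g
    rw [hat, sum_mul]
    refine sum_congr rfl fun v _ => ?_
    rw [sub_eq_add_neg, pr_add]; ring
  rw [sum_congr rfl fun g _ => h1 g, sum_comm]
  rw [sum_eq_single_of_mem w (mem_univ _)]
  · rw [← mul_sum, pr_sum, if_pos (sub_self w)]; ring
  · intro v _ hv
    rw [← mul_sum, pr_sum, if_neg (sub_ne_zero.mpr hv.symm), mul_zero]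

theorem hat_neg (f : GG l → R l) (g : GG l) : hat f g = ∑ v : GG l, f (-v) * pr v g := by
  rw [hat, ← Equiv.sum_comp (Equiv.neg (GG l))]
  refine sum_congr rfl fun v _ => ?_
  rw [Equiv.neg_apply, neg_neg]

theorem parseval (f : GG l → R l) :
    ∑ g : GG l, hat f g * hat f g = ((2 ^ (l + 1) : ℕ) : R l) ^ 2 * ∑ v : GG l, f v * f (-v) := by
  have h1 : ∀ g : GG l, hat f g * hat f g = ∑ v : GG l, f (-v) * (hat f g * pr v g) := by
    intro g
    have h2 : hat f g * hat f g = (∑ v : GG l, f (-v) * pr v g) * hat f g := by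
      rw [← hat_neg f g]
    rw [h2, sum_mul]
    refine sum_congr rfl fun v _ => ?_
    ring
  rw [sum_congr rfl fun g _ => h1 g, sum_comm, mul_sum]
  refine sum_congr rfl fun v _ => ?_
  rw [← mul_sum, hat_inv]; ring

theorem rigidity (f : GG l → R l) (hf : f 0 = 1) (h10 : f (1, 0) = 1) (h01 : f (0, 1) = 1)
    (hinv : ∀ v, f v * f (-v) = 1)
    (hz : ∀ g, ∃ e : ℤ, hat f g = ((2 ^ (l + 1) : ℕ) : R l) ^ 2 * (e : R l)) (v : GG l) :
    f v = 1 := by
  choose e he using hz
  have hn : (((2 ^ (l + 1) : ℕ) : R l) ^ 2) ≠ 0 := by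
    apply pow_ne_zero
    have : (2 : ℕ) ^ (l + 1) ≠ 0 := by positivity
    exact_mod_cast this
  have h1 : (∑ g : GG l, (e g) ^ 2 : ℤ) = 1 := by
    have h2 := parseval f
    have h3 : ∑ v : GG l, f v * f (-v) = ((2 ^ (l + 1) : ℕ) : R l) ^ 2 := by
      rw [sum_congr rfl fun v _ => hinv v, sum_const, card_univ, Fintype.card_prod, ZMod.card,
        nsmul_eq_mul, mul_one, sq, Nat.cast_mul]
    rw [h3, sum_congr rfl fun g _ => by rw [he g]] at h2
    have h4 : ∑ g : GG l, ((2 ^ (l + 1) : ℕ) : R l) ^ 2 * (e g : R l) *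
        (((2 ^ (l + 1) : ℕ) : R l) ^ 2 * (e g : R l)) =
        (((2 ^ (l + 1) : ℕ) : R l) ^ 2 * ((2 ^ (l + 1) : ℕ) : R l) ^ 2) *
          ((∑ g : GG l, (e g) ^ 2 : ℤ) : R l) := by
      rw [Int.cast_sum, mul_sum]
      refine sum_congr rfl fun g _ => ?_
      rw [Int.cast_pow]; ring
    rw [h4] at h2
    have h5 := mul_left_cancel₀ (mul_ne_zero hn hn) (h2.trans (mul_one _).symm)
    exact_mod_cast h5
  obtain ⟨g0, hg0⟩ : ∃ g0, e g0 ≠ 0 := by
    by_contra h
    push Not at h
    rw [sum_eq_zero fun g _ => by rw [h g]; norm_num] at h1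
    exact zero_ne_one h1
  have h2 : ∀ g, g ≠ g0 → e g = 0 := by
    intro g hg
    by_contra h
    have h3 : (e g) ^ 2 + (e g0) ^ 2 ≤ ∑ g : GG l, (e g) ^ 2 := by
      have := sum_le_sum_of_subset_of_nonneg (subset_univ ({g, g0} : Finset (GG l)))
        (f := fun g => (e g) ^ 2) (fun i _ _ => sq_nonneg _)
      rwa [sum_pair hg] at this
    have h4 : 0 < (e g) ^ 2 := by positivity
    have h5 : 0 < (e g0) ^ 2 := by positivity
    omega
  have h3 : ∀ w, f w = (e g0 : R l) * pr w g0 := by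
    intro w
    have h4 := hat_inv f w
    rw [sum_eq_single_of_mem g0 (mem_univ _) fun g _ hg => by
      rw [he g, h2 g hg, Int.cast_zero, mul_zero, zero_mul], he g0, mul_assoc] at h4
    exact (mul_left_cancel₀ hn h4).symm
  have h4 : (e g0 : R l) = 1 := by
    have := h3 0
    rw [hf, pr_zero, mul_one] at this
    exact this.symm
  have h5 : g0.1 = 0 := by
    have := h3 (1, 0)
    rw [h10, h4, one_mul, pr, one_mul, zero_mul, add_zero] at this
    apply EE_inj l
    rw [← this, AddChar.map_zero_eq_one]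
  have h6 : g0.2 = 0 := by
    have := h3 (0, 1)
    rw [h01, h4, one_mul, pr, one_mul, zero_mul, zero_add] at this
    apply EE_inj l
    rw [← this, AddChar.map_zero_eq_one]
  rw [h3 v, h4, one_mul, pr, h5, h6, mul_zero, mul_zero, add_zero, AddChar.map_zero_eq_one]

end Pool.Agent.N92.FJ
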