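import Mathlib
import Pool.Agent.N92.FJ.Ring

/-!
Primes `p = x ^ (2 ^ l) + 1` with `2 ^ (l + 2) ∣ p - 1`: the homomorphisms `ζ ↦ x ^ s` to the field with
`p` elements, the index modulo `2 ^ (l + 1)` and the characters of order dividing `2 ^ (l + 1)`.
-/

set_option autoImplicit false

namespace Pool.Agent.N92.FJ

open Polynomial

/-- `p = x ^ (2 ^ l) + 1` is a prime number, `2 ^ (l + 1) N = p - 1` and `N` is even. -/
structure Dat (l x p N : ℕ) : Prop where
  prime : p.Prime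
  hp : p = x ^ (2 ^ l) + 1
  hN : 2 ^ (l + 1) * N = x ^ (2 ^ l)
  hE : Even N

variable {l x p N : ℕ}

namespace Dat

theorem x_pos (D : Dat l x p N) : 0 < x := by
  rcases Nat.eq_zero_or_pos x with h | h
  · exfalso
    have h1 := D.hp
    rw [h, zero_pow (by positivity)] at h1
    exact D.prime.one_lt.ne' (by omega)
  · exact h

theorem N_pos (D : Dat l x p N) : 0 < N := by
  rcases Nat.eq_zero_or_pos N with h | h
  · exfalso
    have h1 := D.hN
    rw [h, mul_zero] at h1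
    have := pow_pos D.x_pos (2 ^ l)
    omega
  · exact h

theorem p_sub (D : Dat l x p N) : p - 1 = 2 ^ (l + 1) * N := by
  rw [D.hN, D.hp]; omega

theorem N_even (D : Dat l x p N) : Even N := D.hE

/-- The case of a number `x` divisible by `4 ^ (l + 1)`. -/
theorem of_dvd (hp : p.Prime) (h : p = x ^ (2 ^ l) + 1) (hx : (2 ^ (l + 1)) ^ 2 ∣ x) :
    Dat l x p ((p - 1) / 2 ^ (l + 1)) := by
  have h0 : (2 ^ (l + 1)) ^ 2 ∣ x ^ (2 ^ l) := hx.trans (dvd_pow_self x (by positivity))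
  have h1 : 2 ^ (l + 1) ∣ x ^ (2 ^ l) := (dvd_pow_self _ (by norm_num)).trans h0
  have h2 : 2 ^ (l + 1) * ((p - 1) / 2 ^ (l + 1)) = x ^ (2 ^ l) := by
    rw [h, Nat.add_sub_cancel, Nat.mul_div_cancel' h1]
  refine ⟨hp, h, h2, ?_⟩
  rw [← h2, sq] at h0
  have h3 := Nat.dvd_of_mul_dvd_mul_left (by positivity) h0
  exact (even_iff_two_dvd).mpr ((dvd_pow_self 2 (by omega)).trans h3)

theorem two_lt (D : Dat l x p N) : 2 < p := by
  have h1 := D.p_sub
  have h2 := D.N_pos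
  obtain ⟨r, hr⟩ := D.N_even
  have h3 : 2 ≤ N := by omega
  have h4 : 2 ≤ 2 ^ (l + 1) := by
    calc 2 = 2 ^ 1 := rfl
      _ ≤ _ := Nat.pow_le_pow_right (by norm_num) (by omega)
  have h5 : 4 ≤ 2 ^ (l + 1) * N := by nlinarith
  omega

theorem x_pow (D : Dat l x p N) : (x : ZMod p) ^ (2 ^ l) = -1 := by
  have h : ((x ^ (2 ^ l) + 1 : ℕ) : ZMod p) = 0 := by rw [← D.hp]; exact ZMod.natCast_self p
  push_cast at h
  exact eq_neg_of_add_eq_zero_left h

theorem x_prim (D : Dat l x p N) : IsPrimitiveRoot (x : ZMod p) (2 ^ (l + 1)) := by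
  have : Fact p.Prime := ⟨D.prime⟩
  have : Fact (2 < p) := ⟨D.two_lt⟩
  have h1 : ¬ (x : ZMod p) ^ (2 ^ l) = 1 := by
    rw [D.x_pow]
    exact ZMod.neg_one_ne_one
  have h2 : (x : ZMod p) ^ (2 ^ (l + 1)) = 1 := by
    rw [pow_succ, pow_mul, D.x_pow]; norm_num
  have h3 := orderOf_eq_prime_pow h1 h2
  rw [← h3]
  exact IsPrimitiveRoot.orderOf _

theorem x_pow_n (D : Dat l x p N) : (x : ZMod p) ^ (2 ^ (l + 1)) = 1 := D.x_prim.pow_eq_one

/-- The additive character `a ↦ x ^ a`. -/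
noncomputable def ee (D : Dat l x p N) : AddChar (ZMod (2 ^ (l + 1))) (ZMod p) :=
  AddChar.zmodChar (2 ^ (l + 1)) D.x_pow_n

theorem ee_apply (D : Dat l x p N) (a : ZMod (2 ^ (l + 1))) : D.ee a = (x : ZMod p) ^ a.val := rfl

theorem ee_nat (D : Dat l x p N) (a : ℕ) : D.ee (a : ZMod (2 ^ (l + 1))) = (x : ZMod p) ^ a :=
  AddChar.zmodChar_apply' _ _

theorem ee_inj (D : Dat l x p N) {a b : ZMod (2 ^ (l + 1))} (h : D.ee a = D.ee b) : a = b := by
  rw [ee_apply, ee_apply] at h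
  have := D.x_prim.pow_inj (ZMod.val_lt a) (ZMod.val_lt b) h
  exact ZMod.val_injective _ this

theorem x_pow_odd (D : Dat l x p N) (s : ℕ) (hs : Odd s) : ((x : ZMod p) ^ s) ^ (2 ^ l) = -1 := by
  rw [← pow_mul, mul_comm, pow_mul, D.x_pow, hs.neg_one_pow]

/-- The homomorphism `ζ ↦ x ^ s`. -/
noncomputable def ps (D : Dat l x p N) (s : ℕ) (hs : Odd s) : R l →+* ZMod p :=
  AdjoinRoot.lift (Int.castRingHom _) ((x : ZMod p) ^ s) (eval_phi l _ (D.x_pow_odd s hs))

theorem ps_zt (D : Dat l x p N) (s : ℕ) (hs : Odd s) : D.ps s hs (zt l) = (x : ZMod p) ^ s :=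
  AdjoinRoot.lift_root _

theorem ps_EE (D : Dat l x p N) (s : ℕ) (hs : Odd s) (a : ZMod (2 ^ (l + 1))) :
    D.ps s hs (EE l a) = D.ee ((s : ZMod (2 ^ (l + 1))) * a) := by
  rw [EE_apply, map_pow, ps_zt, ← pow_mul, ← ee_nat, Nat.cast_mul, ZMod.natCast_val,
    ZMod.cast_id', id]

theorem dvd_of_ps (D : Dat l x p N) (y : R l) (h : ∀ s hs, D.ps s hs y = 0) :
    ∃ q, y = (p : R l) * q := by
  have : Fact p.Prime := ⟨D.prime⟩
  set f := rep l y with hf
  have h0 : (f.map (Int.castRingHom (ZMod p))) = 0 := by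
    let S : Finset (ZMod p) := (Finset.range (2 ^ l)).image fun j => (x : ZMod p) ^ (2 * j + 1)
    have hS : S.card = 2 ^ l := by
      rw [Finset.card_image_of_injOn, Finset.card_range]
      intro i hi j hj hij
      have hi' := Finset.mem_range.mp hi
      have hj' := Finset.mem_range.mp hj
      have h2 : 2 ^ (l + 1) = 2 * 2 ^ l := by ring
      have := D.x_prim.pow_inj (by omega) (by omega) hij
      omega
    apply eq_zero_of_natDegree_lt_card_of_eval_eq_zero' _ S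
    · intro z hz
      obtain ⟨j, _, rfl⟩ := Finset.mem_image.mp hz
      have h1 := h (2 * j + 1) (odd_two_mul_add_one j)
      rw [← mk_rep l y, ps, AdjoinRoot.lift_mk] at h1
      rw [eval_map]
      exact h1
    · rw [hS]
      exact lt_of_le_of_lt natDegree_map_le (rep_deg l y)
  have h1 : C (p : ℤ) ∣ f := by
    rw [C_dvd_iff_dvd_coeff]
    intro i
    have h2 : (f.map (Int.castRingHom (ZMod p))).coeff i = 0 := by rw [h0, coeff_zero]
    rw [coeff_map, eq_intCast] at h2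
    exact (ZMod.intCast_zmod_eq_zero_iff_dvd _ _).mp h2
  obtain ⟨g, hg⟩ := h1
  refine ⟨AdjoinRoot.mk (Phi l) g, ?_⟩
  rw [← mk_rep l y, ← hf, hg, map_mul, AdjoinRoot.mk_C, eq_intCast (AdjoinRoot.of (Phi l)),
    Int.cast_natCast]

/-- every nonzero element has an index modulo `2 ^ (l + 1)`. -/
theorem ex_ind (D : Dat l x p N) (t : ZMod p) (ht : t ≠ 0) :
    ∃ a : ZMod (2 ^ (l + 1)), D.ee a = t ^ N := by
  have : Fact p.Prime := ⟨D.prime⟩
  have h1 : (t ^ N) ^ (2 ^ (l + 1)) = 1 := by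
    rw [← pow_mul, mul_comm, ← D.p_sub, ZMod.pow_card_sub_one_eq_one ht]
  obtain ⟨i, _, hi2⟩ := D.x_prim.eq_pow_of_pow_eq_one h1
  exact ⟨(i : ZMod (2 ^ (l + 1))), by rw [ee_nat, hi2]⟩

/-- The index modulo `2 ^ (l + 1)`: `x ^ (ind t) = t ^ N`. -/
noncomputable def ind (D : Dat l x p N) (t : ZMod p) : ZMod (2 ^ (l + 1)) := by
  classical
  exact if h : ∃ a : ZMod (2 ^ (l + 1)), D.ee a = t ^ N then h.choose else 0

theorem ind_spec (D : Dat l x p N) {t : ZMod p} (ht : t ≠ 0) : D.ee (D.ind t) = t ^ N := by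
  have h := D.ex_ind t ht
  rw [ind, dif_pos h]
  exact h.choose_spec

theorem ind_mul (D : Dat l x p N) {t u : ZMod p} (ht : t ≠ 0) (hu : u ≠ 0) :
    D.ind (t * u) = D.ind t + D.ind u := by
  have : Fact p.Prime := ⟨D.prime⟩
  apply D.ee_inj
  rw [D.ind_spec (mul_ne_zero ht hu), AddChar.map_add_eq_mul, D.ind_spec ht, D.ind_spec hu, mul_pow]

theorem ind_one (D : Dat l x p N) : D.ind 1 = 0 := by
  have : Fact p.Prime := ⟨D.prime⟩
  apply D.ee_inj
  rw [D.ind_spec one_ne_zero, one_pow, AddChar.map_zero_eq_one]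

theorem ind_neg_one (D : Dat l x p N) : D.ind (-1) = 0 := by
  have : Fact p.Prime := ⟨D.prime⟩
  apply D.ee_inj
  rw [D.ind_spec (neg_ne_zero.mpr one_ne_zero), D.N_even.neg_one_pow, AddChar.map_zero_eq_one]

/-- The characters. -/
noncomputable def ch (D : Dat l x p N) (a : ZMod (2 ^ (l + 1))) : MulChar (ZMod p) (R l) := by
  have : Fact p.Prime := ⟨D.prime⟩
  classical
  exact
  { toFun := fun t => if t = 0 then 0 else EE l (a * D.ind t)
    map_one' := by
      rw [if_neg one_ne_zero, D.ind_one, mul_zero, AddChar.map_zero_eq_one]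
    map_mul' := by
      intro t u
      by_cases ht : t = 0
      · rw [ht, zero_mul, if_pos rfl, zero_mul]
      by_cases hu : u = 0
      · rw [hu, mul_zero, if_pos rfl, mul_zero]
      rw [if_neg (mul_ne_zero ht hu), if_neg ht, if_neg hu, D.ind_mul ht hu, mul_add,
        AddChar.map_add_eq_mul]
    map_nonunit' := by
      intro t ht
      have : t = 0 := by
        by_contra h
        exact ht (isUnit_iff_ne_zero.mpr h)
      rw [if_pos this] }

theorem ch_apply (D : Dat l x p N) (a : ZMod (2 ^ (l + 1))) {t : ZMod p} (ht : t ≠ 0) :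
    D.ch a t = EE l (a * D.ind t) := by
  classical
  exact if_neg ht

theorem ch_mul (D : Dat l x p N) (a b : ZMod (2 ^ (l + 1))) : D.ch a * D.ch b = D.ch (a + b) := by
  have : Fact p.Prime := ⟨D.prime⟩
  apply MulChar.ext'
  intro t
  by_cases ht : t = 0
  · rw [ht, MulChar.map_zero, MulChar.map_zero]
  · rw [MulChar.mul_apply, D.ch_apply a ht, D.ch_apply b ht, D.ch_apply _ ht, add_mul,
      AddChar.map_add_eq_mul]

theorem ch_zero (D : Dat l x p N) : D.ch 0 = 1 := by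
  have : Fact p.Prime := ⟨D.prime⟩
  apply MulChar.ext
  intro t
  rw [D.ch_apply 0 t.ne_zero, zero_mul, AddChar.map_zero_eq_one, MulChar.one_apply_coe]

theorem ch_inv (D : Dat l x p N) (a : ZMod (2 ^ (l + 1))) : (D.ch a)⁻¹ = D.ch (-a) := by
  apply inv_eq_of_mul_eq_one_right
  rw [ch_mul, add_neg_cancel, ch_zero]

/-- some multiple of a nonzero residue is `2 ^ l`. -/
theorem ex_mul (a : ZMod (2 ^ (l + 1))) (ha : a ≠ 0) :
    ∃ c : ZMod (2 ^ (l + 1)), c * a = ((2 ^ l : ℕ) : ZMod (2 ^ (l + 1))) := by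
  have h0 : a.val ≠ 0 := by rwa [Ne, ZMod.val_eq_zero]
  obtain ⟨r, m, hm, hr⟩ := Nat.exists_eq_two_pow_mul_odd h0
  have hlt := ZMod.val_lt a
  have hr2 : r ≤ l := by
    by_contra h
    have h1 : 2 ^ (l + 1) ≤ 2 ^ r := Nat.pow_le_pow_right (by norm_num) (by omega)
    have h2 : 1 ≤ m := hm.pos
    have h3 : 2 ^ r ≤ 2 ^ r * m := Nat.le_mul_of_pos_right _ h2
    omega
  refine ⟨((2 ^ (l - r) : ℕ) : ZMod (2 ^ (l + 1))), ?_⟩
  have h1 : a = ((2 ^ r * m : ℕ) : ZMod (2 ^ (l + 1))) := by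
    rw [← hr, ZMod.natCast_val, ZMod.cast_id', id]
  rw [h1, ← Nat.cast_mul, ← mul_assoc, ← pow_add, Nat.sub_add_cancel hr2]
  obtain ⟨m', hm'⟩ := hm
  rw [hm']
  have h2 : 2 ^ l * (2 * m' + 1) = 2 ^ (l + 1) * m' + 2 ^ l := by ring
  rw [h2, Nat.cast_add, Nat.cast_mul, ZMod.natCast_self, zero_mul, zero_add]

theorem ch_ne_one (D : Dat l x p N) {a : ZMod (2 ^ (l + 1))} (ha : a ≠ 0) : D.ch a ≠ 1 := by
  have : Fact p.Prime := ⟨D.prime⟩
  have : Fact (2 < p) := ⟨D.two_lt⟩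
  intro h
  obtain ⟨c, hc⟩ := ex_mul a ha
  obtain ⟨g, hg⟩ := IsCyclic.exists_generator (α := (ZMod p)ˣ)
  have h1 : D.ch a (g : ZMod p) = 1 := by rw [h, MulChar.one_apply_coe]
  rw [D.ch_apply a g.ne_zero, ← AddChar.map_zero_eq_one (EE l)] at h1
  have h2 := EE_inj l h1
  have h3 : ((2 ^ l : ℕ) : ZMod (2 ^ (l + 1))) * D.ind (g : ZMod p) = 0 := by
    rw [← hc, mul_assoc, h2, mul_zero]
  have h4 : ((g : ZMod p) ^ N) ^ (2 ^ l) = 1 := by
    rw [← D.ind_spec g.ne_zero, ← AddChar.map_nsmul_eq_pow, nsmul_eq_mul, h3,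
      AddChar.map_zero_eq_one]
  have h5 : g ^ (N * 2 ^ l) = 1 := by
    apply Units.ext
    rw [Units.val_pow_eq_pow_val, pow_mul, h4, Units.val_one]
  have h6 : orderOf g = p - 1 := by
    rw [orderOf_eq_card_of_forall_mem_zpowers hg, Nat.card_eq_fintype_card, ZMod.card_units]
  have h7 := orderOf_dvd_of_pow_eq_one h5
  rw [h6, D.p_sub] at h7
  have h8 := D.N_pos
  have h9 : 0 < N * 2 ^ l := by positivity
  have h10 := Nat.le_of_dvd h9 h7
  have h11 : 2 ^ (l + 1) * N = 2 * (N * 2 ^ l) := by ring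
  omega

end Dat

end Pool.Agent.N92.FJ
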