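import Mathlib
import Pool.Agent.N92.FJ.Hom

/-!
Jacobi sums of the characters, their values under the homomorphisms to the prime field.
-/

set_option autoImplicit false

namespace Pool.Agent.N92.FJ

open Finset

theorem sum_pow_pos {p : ℕ} [Fact p.Prime] (i : ℕ) (hi : i ≠ 0) :
    ∑ t : ZMod p, t ^ i = if (p - 1) ∣ i then -1 else 0 := by
  classical
  have h := FiniteField.sum_pow_units (ZMod p) i
  rw [ZMod.card] at h
  rw [← h]
  let φ : (ZMod p)ˣ ↪ ZMod p := ⟨fun x ↦ x, Units.val_injective⟩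
  have h1 : univ.map φ = univ \ {0} := by
    ext x
    simpa only [mem_map, mem_univ, Function.Embedding.coeFn_mk, true_and, mem_sdiff,
      mem_singleton, φ] using! isUnit_iff_ne_zero
  rw [← sum_sdiff ({0} : Finset (ZMod p)).subset_univ, sum_singleton, zero_pow hi, add_zero,
    ← h1, univ.sum_map φ]
  rfl

theorem sum_beta {p : ℕ} [Fact p.Prime] (A B : ℕ) (hA : 0 < A) :
    ∑ t : ZMod p, t ^ A * (1 - t) ^ B =
      ∑ j ∈ range (B + 1), (-1) ^ j * (B.choose j : ZMod p) * (if (p - 1) ∣ (A + j) then -1 else 0) := by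
  have h1 : ∀ t : ZMod p, t ^ A * (1 - t) ^ B =
      ∑ j ∈ range (B + 1), (-1) ^ j * (B.choose j : ZMod p) * t ^ (A + j) := by
    intro t
    rw [sub_eq_add_neg, add_comm, add_pow, mul_sum]
    refine sum_congr rfl fun j _ => ?_
    rw [one_pow, mul_one, neg_pow, pow_add]
    ring
  rw [sum_congr rfl fun t _ => h1 t, sum_comm]
  refine sum_congr rfl fun j _ => ?_
  rw [← mul_sum, sum_pow_pos _ (by omega)]

theorem sum_beta_zero {p : ℕ} [Fact p.Prime] (A B : ℕ) (hA : 0 < A) (h : A + B < p - 1) :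
    ∑ t : ZMod p, t ^ A * (1 - t) ^ B = 0 := by
  rw [sum_beta A B hA]
  apply sum_eq_zero
  intro j hj
  have hj' := mem_range.mp hj
  rw [if_neg, mul_zero]
  intro h2
  have := Nat.le_of_dvd (by omega) h2
  omega

theorem sum_beta_val {p : ℕ} [Fact p.Prime] (A B c : ℕ) (hA : 0 < A) (hc : A + c = p - 1)
    (hcB : c ≤ B) (h : A + B < 2 * (p - 1)) :
    ∑ t : ZMod p, t ^ A * (1 - t) ^ B = -((-1) ^ c * (B.choose c : ZMod p)) := by
  rw [sum_beta A B hA, sum_eq_single_of_mem c (mem_range.mpr (by omega))]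
  · rw [hc, if_pos dvd_rfl, mul_neg_one]
  · intro j hj hjc
    have hj' := mem_range.mp hj
    rw [if_neg, mul_zero]
    intro h2
    obtain ⟨r, hr⟩ := h2
    have h3 : r < 2 := by
      by_contra h4
      have : 2 * (p - 1) ≤ (p - 1) * r := by
        rw [mul_comm]; exact Nat.mul_le_mul_left _ (by omega)
      omega
    interval_cases r
    · omega
    · rw [mul_one] at hr; omega

/-- `(p - 1 - c choose a) = (-1) ^ a (a + c choose a)` modulo `p`. -/
theorem choose_neg {p : ℕ} [Fact p.Prime] (a c : ℕ) (h : a + c < p) :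
    (((p - 1 - c).choose a : ℕ) : ZMod p) = (-1) ^ a * (((a + c).choose a : ℕ) : ZMod p) := by
  have hp := (Fact.out : p.Prime).pos
  have hfa : ((a.factorial : ℕ) : ZMod p) ≠ 0 := by
    rw [Ne, ZMod.natCast_eq_zero_iff]
    intro h2
    have := ((Fact.out : p.Prime).dvd_factorial).mp h2
    omega
  apply mul_left_cancel₀ hfa
  rw [← Nat.cast_mul, ← Nat.descFactorial_eq_factorial_mul_choose,
    mul_left_comm, ← Nat.cast_mul, ← Nat.descFactorial_eq_factorial_mul_choose]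
  clear hfa
  induction a with
  | zero => simp
  | succ a ih =>
    rw [Nat.descFactorial_succ, Nat.cast_mul, ih (by omega)]
    have h1 : (a + 1 + c).descFactorial (a + 1) = (a + 1 + c) * (a + c).descFactorial a := by
      have := Nat.succ_descFactorial_succ (a + c) a
      rw [show a + c + 1 = a + 1 + c by omega] at this
      exact this
    rw [h1, Nat.cast_mul]
    have h2 : (((p - 1 - c - a : ℕ)) : ZMod p) = -((a + 1 + c : ℕ) : ZMod p) := by
      have h3 : (p - 1 - c - a) + (a + 1 + c) = p := by omega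
      have h4 : (((p - 1 - c - a : ℕ)) : ZMod p) + ((a + 1 + c : ℕ) : ZMod p) = 0 := by
        rw [← Nat.cast_add, h3, ZMod.natCast_self]
      exact eq_neg_of_add_eq_zero_left h4
    rw [h2]
    ring

namespace Dat

variable {l x p N : ℕ} [Fact p.Prime]

/-- The Jacobi sum. -/
noncomputable def JJ (D : Dat l x p N) (a b : ZMod (2 ^ (l + 1))) : R l :=
  jacobiSum (D.ch a) (D.ch b)

theorem JJ_mul (D : Dat l x p N) {a b : ZMod (2 ^ (l + 1))} (ha : a ≠ 0) (hb : b ≠ 0)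
    (hab : a + b ≠ 0) : D.JJ a b * D.JJ (-a) (-b) = (p : R l) := by
  let K := FractionRing (R l)
  have hinj : Function.Injective (algebraMap (R l) K) := IsFractionRing.injective _ _
  have hch : CharZero K := charZero_of_injective_algebraMap hinj
  apply hinj
  rw [map_mul, map_natCast, JJ, JJ, ← ch_inv, ← ch_inv, ← jacobiSum_ringHomComp,
    ← jacobiSum_ringHomComp, ← MulChar.ringHomComp_inv, ← MulChar.ringHomComp_inv]
  have h1 : ringChar K ≠ ringChar (ZMod p) := by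
    rw [ringChar.eq K 0, ringChar.eq (ZMod p) p]
    exact (Fact.out : p.Prime).ne_zero.symm
  rw [jacobiSum_mul_jacobiSum_inv h1 ((MulChar.ringHomComp_ne_one_iff hinj).mpr (D.ch_ne_one ha))
    ((MulChar.ringHomComp_ne_one_iff hinj).mpr (D.ch_ne_one hb)), ZMod.card]
  rw [← MulChar.ringHomComp_mul, ch_mul]
  exact (MulChar.ringHomComp_ne_one_iff hinj).mpr (D.ch_ne_one hab)

theorem JJ_zero_zero (D : Dat l x p N) : D.JJ 0 0 = (p : R l) - 2 := by
  rw [JJ, ch_zero, jacobiSum_one_one, ZMod.card]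

theorem JJ_zero_left (D : Dat l x p N) {b : ZMod (2 ^ (l + 1))} (hb : b ≠ 0) :
    D.JJ 0 b = -1 := by
  rw [JJ, ch_zero, jacobiSum_one_nontrivial (D.ch_ne_one hb)]

theorem JJ_zero_right (D : Dat l x p N) {a : ZMod (2 ^ (l + 1))} (ha : a ≠ 0) :
    D.JJ a 0 = -1 := by
  rw [JJ, jacobiSum_comm]; exact D.JJ_zero_left ha

theorem JJ_neg (D : Dat l x p N) {a b : ZMod (2 ^ (l + 1))} (ha : a ≠ 0) (hab : a + b = 0) :
    D.JJ a b = -1 := by
  have h1 : b = -a := eq_neg_of_add_eq_zero_right hab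
  rw [JJ, h1, ← ch_inv, jacobiSum_nontrivial_inv (D.ch_ne_one ha),
    D.ch_apply a (neg_ne_zero.mpr one_ne_zero), ind_neg_one, mul_zero, AddChar.map_zero_eq_one]

theorem unit_mul_ne {s : ℕ} (hs : Odd s) {a : ZMod (2 ^ (l + 1))} (ha : a ≠ 0) :
    (s : ZMod (2 ^ (l + 1))) * a ≠ 0 := by
  intro h
  have h1 : IsUnit (s : ZMod (2 ^ (l + 1))) := by
    rw [ZMod.isUnit_iff_coprime]
    exact Nat.Coprime.pow_right _ (Nat.coprime_two_right.mpr hs)
  exact ha ((h1.mul_right_eq_zero).mp h)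

theorem ps_ch (D : Dat l x p N) (s : ℕ) (hs : Odd s) {a : ZMod (2 ^ (l + 1))} (ha : a ≠ 0)
    (t : ZMod p) :
    D.ps s hs (D.ch a t) = t ^ (N * ((s : ZMod (2 ^ (l + 1))) * a).val) := by
  by_cases ht : t = 0
  · rw [ht, MulChar.map_zero, map_zero, zero_pow]
    have h1 := unit_mul_ne (l := l) hs ha
    have h2 : ((s : ZMod (2 ^ (l + 1))) * a).val ≠ 0 := by rwa [Ne, ZMod.val_eq_zero]
    exact Nat.mul_ne_zero D.N_pos.ne' h2
  · rw [D.ch_apply a ht, ps_EE, ← mul_assoc, pow_mul, ← D.ind_spec ht,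
      ← AddChar.map_nsmul_eq_pow, nsmul_eq_mul, ZMod.natCast_val, ZMod.cast_id', id]

theorem ps_JJ (D : Dat l x p N) (s : ℕ) (hs : Odd s) {a b : ZMod (2 ^ (l + 1))} (ha : a ≠ 0)
    (hb : b ≠ 0) :
    D.ps s hs (D.JJ a b) = ∑ t : ZMod p, t ^ (N * ((s : ZMod (2 ^ (l + 1))) * a).val) *
      (1 - t) ^ (N * ((s : ZMod (2 ^ (l + 1))) * b).val) := by
  rw [JJ, jacobiSum, map_sum]
  exact sum_congr rfl fun t _ => by rw [map_mul, D.ps_ch s hs ha, D.ps_ch s hs hb]

theorem ps_JJ_zero (D : Dat l x p N) (s : ℕ) (hs : Odd s) {a b : ZMod (2 ^ (l + 1))} (ha : a ≠ 0)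
    (hb : b ≠ 0)
    (h : ((s : ZMod (2 ^ (l + 1))) * a).val + ((s : ZMod (2 ^ (l + 1))) * b).val < 2 ^ (l + 1)) :
    D.ps s hs (D.JJ a b) = 0 := by
  rw [D.ps_JJ s hs ha hb]
  apply sum_beta_zero
  · have h1 := unit_mul_ne (l := l) hs ha
    have h2 : ((s : ZMod (2 ^ (l + 1))) * a).val ≠ 0 := by rwa [Ne, ZMod.val_eq_zero]
    exact Nat.mul_pos D.N_pos (Nat.pos_of_ne_zero h2)
  · rw [D.p_sub, ← mul_add, mul_comm (2 ^ (l + 1)) N]
    exact Nat.mul_lt_mul_of_pos_left h D.N_pos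

theorem ps_JJ_val (D : Dat l x p N) (s : ℕ) (hs : Odd s)
    (hs1 : (s : ZMod (2 ^ (l + 1))) = -1) (a b : ℕ) (ha : 0 < a) (hb : 0 < b)
    (hab : a + b < 2 ^ (l + 1)) :
    D.ps s hs (D.JJ (a : ZMod (2 ^ (l + 1))) (b : ZMod (2 ^ (l + 1)))) =
      -((((a + b) * N).choose (a * N) : ℕ) : ZMod p) := by
  have hva : (a : ZMod (2 ^ (l + 1))).val = a := ZMod.val_cast_of_lt (by omega)
  have hvb : (b : ZMod (2 ^ (l + 1))).val = b := ZMod.val_cast_of_lt (by omega)
  have ha0 : (a : ZMod (2 ^ (l + 1))) ≠ 0 := by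
    intro h; rw [h, ZMod.val_zero] at hva; omega
  have hb0 : (b : ZMod (2 ^ (l + 1))) ≠ 0 := by
    intro h; rw [h, ZMod.val_zero] at hvb; omega
  have : NeZero (a : ZMod (2 ^ (l + 1))) := ⟨ha0⟩
  have : NeZero (b : ZMod (2 ^ (l + 1))) := ⟨hb0⟩
  rw [D.ps_JJ s hs ha0 hb0, hs1, neg_one_mul, neg_one_mul, ZMod.val_neg_of_ne_zero,
    ZMod.val_neg_of_ne_zero, hva, hvb]
  have hN := D.N_pos
  have hps := D.p_sub
  have e1 : N * (2 ^ (l + 1) - a) + N * a = p - 1 := by
    rw [← mul_add, Nat.sub_add_cancel (by omega), hps, mul_comm]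
  have e2 : N * (2 ^ (l + 1) - b) + N * b = p - 1 := by
    rw [← mul_add, Nat.sub_add_cancel (by omega), hps, mul_comm]
  have e3 : N * a + N * b < p - 1 := by
    rw [← mul_add, hps, mul_comm (2 ^ (l + 1)) N]
    exact Nat.mul_lt_mul_of_pos_left hab hN
  have e4 : 0 < N * a := Nat.mul_pos hN ha
  have e5 : 0 < N * b := Nat.mul_pos hN hb
  rw [sum_beta_val (N * (2 ^ (l + 1) - a)) (N * (2 ^ (l + 1) - b)) (N * a) (by omega) e1
    (by omega) (by omega)]
  have e6 : N * (2 ^ (l + 1) - b) = p - 1 - N * b := by omega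
  rw [e6, choose_neg (N * a) (N * b) (by omega), ← mul_assoc, ← pow_add,
    Even.neg_one_pow ⟨_, rfl⟩, one_mul]
  congr 3
  · ring
  · ring

end Dat

end Pool.Agent.N92.FJ
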