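import Mathlib
import Pool.Agent.N92.FJ.Jac

/-!
The products `∏ (1 - x ζ ^ (-1 / u))`.
-/

set_option autoImplicit false

namespace Pool.Agent.N92.FJ

open Finset

variable {l : ℕ}

/-- The factor `1 - x ζ ^ (- 1 / u)`. -/
noncomputable def LL (x : ℕ) (u : (ZMod (2 ^ (l + 1)))ˣ) : R l :=
  1 - (x : R l) * EE l (-((u⁻¹ : (ZMod (2 ^ (l + 1)))ˣ) : ZMod (2 ^ (l + 1))))

/-- The units `u` for which the residues of `u a` and `u b` have a sum less than `2 ^ (l + 1)`. -/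
def VV (a b : ZMod (2 ^ (l + 1))) : Finset (ZMod (2 ^ (l + 1)))ˣ :=
  univ.filter fun u => ((u : ZMod (2 ^ (l + 1))) * a).val + ((u : ZMod (2 ^ (l + 1))) * b).val <
    2 ^ (l + 1)

theorem mem_VV {a b : ZMod (2 ^ (l + 1))} {u : (ZMod (2 ^ (l + 1)))ˣ} :
    u ∈ VV a b ↔ ((u : ZMod (2 ^ (l + 1))) * a).val + ((u : ZMod (2 ^ (l + 1))) * b).val <
      2 ^ (l + 1) := by
  rw [VV, mem_filter]
  exact ⟨fun h => h.2, fun h => ⟨mem_univ _, h⟩⟩

/-- The product. -/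
noncomputable def PP (x : ℕ) (a b : ZMod (2 ^ (l + 1))) : R l := ∏ u ∈ VV a b, LL x u

theorem unit_mul_ne' (u : (ZMod (2 ^ (l + 1)))ˣ) {a : ZMod (2 ^ (l + 1))} (ha : a ≠ 0) :
    (u : ZMod (2 ^ (l + 1))) * a ≠ 0 := by
  intro h
  exact ha ((u.isUnit.mul_right_eq_zero).mp h)

/-- `V (-a, -b)` is the complement of `V (a, b)`. -/
theorem mem_VV_neg {a b : ZMod (2 ^ (l + 1))} (ha : a ≠ 0) (hb : b ≠ 0) (hab : a + b ≠ 0)
    (u : (ZMod (2 ^ (l + 1)))ˣ) : u ∈ VV (-a) (-b) ↔ u ∉ VV a b := by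
  rw [mem_VV, mem_VV, mul_neg, mul_neg]
  have : NeZero ((u : ZMod (2 ^ (l + 1))) * a) := ⟨unit_mul_ne' u ha⟩
  have : NeZero ((u : ZMod (2 ^ (l + 1))) * b) := ⟨unit_mul_ne' u hb⟩
  rw [ZMod.val_neg_of_ne_zero, ZMod.val_neg_of_ne_zero]
  have h1 := ZMod.val_lt ((u : ZMod (2 ^ (l + 1))) * a)
  have h2 := ZMod.val_lt ((u : ZMod (2 ^ (l + 1))) * b)
  have h3 : ((u : ZMod (2 ^ (l + 1))) * a).val + ((u : ZMod (2 ^ (l + 1))) * b).val ≠
      2 ^ (l + 1) := by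
    intro h
    apply unit_mul_ne' u hab
    rw [mul_add, ← ZMod.natCast_zmod_val ((u : ZMod (2 ^ (l + 1))) * a),
      ← ZMod.natCast_zmod_val ((u : ZMod (2 ^ (l + 1))) * b), ← Nat.cast_add, h,
      ZMod.natCast_self]
  omega

theorem units_disj {a b : ZMod (2 ^ (l + 1))} (ha : a ≠ 0) (hb : b ≠ 0) (hab : a + b ≠ 0)
    (x : ℕ) : PP x a b * PP x (-a) (-b) = ∏ u : (ZMod (2 ^ (l + 1)))ˣ, LL x u := by
  classical
  rw [PP, PP, ← prod_union]
  · congr 1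
    ext u
    simp only [mem_union, mem_univ, iff_true]
    by_cases h : u ∈ VV a b
    · exact Or.inl h
    · exact Or.inr ((mem_VV_neg ha hb hab u).mpr h)
  · rw [disjoint_left]
    intro u h1 h2
    exact ((mem_VV_neg ha hb hab u).mp h2) h1

theorem primRoots (l : ℕ) [DecidableEq (R l)] : primitiveRoots (2 ^ (l + 1)) (R l) =
    univ.image (fun u : (ZMod (2 ^ (l + 1)))ˣ => EE l (u : ZMod (2 ^ (l + 1)))) := by
  ext z
  rw [mem_primitiveRoots (by positivity), mem_image]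
  constructor
  · intro hz
    obtain ⟨i, hi, hc, rfl⟩ := ((zt_prim l).isPrimitiveRoot_iff).mp hz
    exact ⟨ZMod.unitOfCoprime i hc, mem_univ _, by rw [ZMod.coe_unitOfCoprime, EE_nat]⟩
  · rintro ⟨u, _, rfl⟩
    rw [EE_apply]
    exact (zt_prim l).pow_of_coprime _ (ZMod.val_coe_unit_coprime u)

theorem prod_sub (y : R l) :
    ∏ u : (ZMod (2 ^ (l + 1)))ˣ, (y - EE l (u : ZMod (2 ^ (l + 1)))) = y ^ (2 ^ l) + 1 := by
  classical
  have h := congrArg (Polynomial.eval y)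
    (Polynomial.cyclotomic_eq_prod_X_sub_primitiveRoots (zt_prim l))
  rw [Polynomial.cyclotomic_prime_pow_eq_geom_sum Nat.prime_two, sum_range_succ, sum_range_one,
    pow_zero, pow_one, Polynomial.eval_add, Polynomial.eval_one, Polynomial.eval_pow,
    Polynomial.eval_X, Polynomial.eval_prod, primRoots, prod_image] at h
  · refine Eq.trans ?_ (h.symm.trans (add_comm _ _))
    refine prod_congr rfl fun u _ => ?_
    rw [Polynomial.eval_sub, Polynomial.eval_X, Polynomial.eval_C]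
  · intro u _ v _ huv
    exact Units.ext (EE_inj l huv)

theorem prod_one_sub (x : R l) :
    ∏ u : (ZMod (2 ^ (l + 1)))ˣ, (1 - x * EE l (u : ZMod (2 ^ (l + 1)))) = x ^ (2 ^ l) + 1 := by
  -- reverse the units
  have h1 : ∏ u : (ZMod (2 ^ (l + 1)))ˣ, (1 - x * EE l (u : ZMod (2 ^ (l + 1)))) =
      ∏ u : (ZMod (2 ^ (l + 1)))ˣ, (1 - x * EE l (-(u : ZMod (2 ^ (l + 1))))) := by
    rw [← Equiv.prod_comp (Equiv.neg (ZMod (2 ^ (l + 1)))ˣ)]
    exact prod_congr rfl fun u _ => by rw [Equiv.neg_apply, Units.val_neg]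
  have h2 : ∀ u : (ZMod (2 ^ (l + 1)))ˣ, 1 - x * EE l (-(u : ZMod (2 ^ (l + 1)))) =
      (0 - EE l (-(u : ZMod (2 ^ (l + 1))))) * (x - EE l (u : ZMod (2 ^ (l + 1)))) := by
    intro u
    have h3 : EE l (-(u : ZMod (2 ^ (l + 1)))) * EE l (u : ZMod (2 ^ (l + 1))) = 1 := by
      rw [← AddChar.map_add_eq_mul, neg_add_cancel, AddChar.map_zero_eq_one]
    linear_combination -h3
  have h3 : ∏ u : (ZMod (2 ^ (l + 1)))ˣ, ((0 : R l) - EE l (-(u : ZMod (2 ^ (l + 1))))) = 1 := by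
    have h4 := prod_sub (l := l) 0
    rw [zero_pow (by positivity), zero_add] at h4
    rw [← h4, ← Equiv.prod_comp (Equiv.neg (ZMod (2 ^ (l + 1)))ˣ)]
    exact prod_congr rfl fun u _ => by rw [Equiv.neg_apply, Units.val_neg]; simp
  rw [h1, prod_congr rfl fun u _ => h2 u, prod_mul_distrib, h3, one_mul, prod_sub]

/-- The product of all factors is `x ^ (2 ^ l) + 1`. -/
theorem prod_LL (x : ℕ) :
    ∏ u : (ZMod (2 ^ (l + 1)))ˣ, (LL x u : R l) = (x : R l) ^ (2 ^ l) + 1 := by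
  have h := Equiv.prod_comp ((Equiv.inv (ZMod (2 ^ (l + 1)))ˣ).trans (Equiv.neg _))
    (fun u : (ZMod (2 ^ (l + 1)))ˣ => (1 - (x : R l) * EE l (u : ZMod (2 ^ (l + 1)))))
  rw [← prod_one_sub, ← h]
  refine prod_congr rfl fun u _ => ?_
  rw [LL]
  rfl

theorem PP_mul {a b : ZMod (2 ^ (l + 1))} (ha : a ≠ 0) (hb : b ≠ 0) (hab : a + b ≠ 0)
    (x : ℕ) : PP x a b * PP x (-a) (-b) = (x : R l) ^ (2 ^ l) + 1 := by
  rw [units_disj ha hb hab, prod_LL]

/-- The product is `1` modulo `x`. -/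
theorem PP_cong (x : ℕ) (a b : ZMod (2 ^ (l + 1))) :
    ∃ z : R l, PP x a b = 1 + (x : R l) * z := by
  classical
  have h : ∀ S : Finset (ZMod (2 ^ (l + 1)))ˣ, ∃ z : R l, ∏ u ∈ S, LL x u = 1 + (x : R l) * z := by
    intro S
    induction S using Finset.induction_on with
    | empty => exact ⟨0, by rw [prod_empty, mul_zero, add_zero]⟩
    | insert u S hu ih =>
      obtain ⟨z, hz⟩ := ih
      rw [prod_insert hu, hz, LL]
      exact ⟨z - EE l (-((u⁻¹ : (ZMod (2 ^ (l + 1)))ˣ) : ZMod (2 ^ (l + 1)))) * (1 + x * z), by ring⟩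
  exact h _

/-- The conjugates of the product. -/
theorem sg_PP (x : ℕ) (a b : ZMod (2 ^ (l + 1))) (c : ℕ) (hc : Odd c) :
    sg l c hc (PP x a b) = PP x ((c : ZMod (2 ^ (l + 1))) * a) ((c : ZMod (2 ^ (l + 1))) * b) := by
  have hc' : Nat.Coprime c (2 ^ (l + 1)) := Nat.Coprime.pow_right _ (Nat.coprime_two_right.mpr hc)
  let v : (ZMod (2 ^ (l + 1)))ˣ := ZMod.unitOfCoprime c hc'
  have hv : (v : ZMod (2 ^ (l + 1))) = c := ZMod.coe_unitOfCoprime c hc'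
  rw [PP, PP, map_prod]
  refine prod_bij' (fun u _ => v⁻¹ * u) (fun u _ => v * u) ?_ ?_ ?_ ?_ ?_
  · intro u hu
    rw [mem_VV] at hu ⊢
    rw [← hv]
    have e : ∀ w : ZMod (2 ^ (l + 1)), ((v⁻¹ * u : (ZMod (2 ^ (l + 1)))ˣ) : ZMod (2 ^ (l + 1))) *
        ((v : ZMod (2 ^ (l + 1))) * w) = (u : ZMod (2 ^ (l + 1))) * w := by
      intro w
      rw [Units.val_mul, mul_comm ((v⁻¹ : (ZMod (2 ^ (l + 1)))ˣ) : ZMod (2 ^ (l + 1))), mul_assoc,
        Units.inv_mul_cancel_left]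
    rw [e, e]
    exact hu
  · intro u hu
    rw [mem_VV] at hu ⊢
    rw [← hv] at hu
    rw [Units.val_mul, mul_comm (v : ZMod (2 ^ (l + 1))), mul_assoc, mul_assoc]
    exact hu
  · intro u _; rw [mul_inv_cancel_left]
  · intro u _; rw [inv_mul_cancel_left]
  · intro u _
    rw [LL, LL, map_sub, map_one, map_mul, map_natCast, sg_EE, ← hv]
    congr 3
    rw [mul_inv, inv_inv, Units.val_mul, mul_neg]

end Pool.Agent.N92.FJ
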