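import Mathlib
import Pool.Agent.N92.FJ.Prod
import Pool.Agent.N92.FJ.Four

/-!
The Jacobi sums are the products: `J (a, b) = - P (a, b)`.
-/

set_option autoImplicit false

namespace Pool.Agent.N92.FJ

open Finset

/-- The three characters are nontrivial. -/
def Good {l : ℕ} (v : GG l) : Prop := v.1 ≠ 0 ∧ v.2 ≠ 0 ∧ v.1 + v.2 ≠ 0

theorem Good.neg {l : ℕ} {v : GG l} (h : Good v) : Good (-v) := by
  refine ⟨neg_ne_zero.mpr h.1, neg_ne_zero.mpr h.2.1, ?_⟩
  intro h1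
  apply h.2.2
  rw [Prod.fst_neg, Prod.snd_neg, ← neg_add] at h1
  exact neg_eq_zero.mp h1

theorem Good.smul {l c : ℕ} (hc : Odd c) {v : GG l} (h : Good v) :
    Good (((c : ZMod (2 ^ (l + 1))) * v.1, (c : ZMod (2 ^ (l + 1))) * v.2) : GG l) := by
  refine ⟨Dat.unit_mul_ne hc h.1, Dat.unit_mul_ne hc h.2.1, ?_⟩
  change (c : ZMod (2 ^ (l + 1))) * v.1 + (c : ZMod (2 ^ (l + 1))) * v.2 ≠ 0
  rw [← mul_add]
  exact Dat.unit_mul_ne hc h.2.2

theorem Good.of_smul {l c : ℕ} {v : GG l}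
    (h : Good (((c : ZMod (2 ^ (l + 1))) * v.1, (c : ZMod (2 ^ (l + 1))) * v.2) : GG l)) :
    Good v := by
  refine ⟨fun h1 => h.1 ?_, fun h1 => h.2.1 ?_, fun h1 => h.2.2 ?_⟩
  · change (c : ZMod (2 ^ (l + 1))) * v.1 = 0
    rw [h1, mul_zero]
  · change (c : ZMod (2 ^ (l + 1))) * v.2 = 0
    rw [h1, mul_zero]
  · change (c : ZMod (2 ^ (l + 1))) * v.1 + (c : ZMod (2 ^ (l + 1))) * v.2 = 0
    rw [← mul_add, h1, mul_zero]

namespace Dat

variable {l x p N : ℕ} [Fact p.Prime]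

theorem p_ne (_ : Dat l x p N) : (p : R l) ≠ 0 := by
  have := (Fact.out : p.Prime).ne_zero
  exact_mod_cast this

theorem ps_LL (D : Dat l x p N) (s : ℕ) (hs : Odd s) (u : (ZMod (2 ^ (l + 1)))ˣ)
    (hu : (s : ZMod (2 ^ (l + 1))) = u) : D.ps s hs (LL x u) = 0 := by
  have h1 : (x : ZMod p) = D.ee 1 := by
    have := D.ee_nat 1
    rw [Nat.cast_one, pow_one] at this
    exact this.symm
  rw [LL, map_sub, map_one, map_mul, map_natCast, ps_EE, h1, ← AddChar.map_add_eq_mul, hu,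
    mul_neg, Units.mul_inv, add_neg_cancel, AddChar.map_zero_eq_one, sub_self]

theorem ps_PP (D : Dat l x p N) (s : ℕ) (hs : Odd s) (u : (ZMod (2 ^ (l + 1)))ˣ)
    (hu : (s : ZMod (2 ^ (l + 1))) = u) {a b : ZMod (2 ^ (l + 1))} (h : u ∈ VV a b) :
    D.ps s hs (PP x a b) = 0 := by
  rw [PP, map_prod]
  exact prod_eq_zero h (D.ps_LL s hs u hu)

theorem dvd_JP (D : Dat l x p N) {v : GG l} (h : Good v) :
    ∃ q, D.JJ v.1 v.2 * PP x (-v.1) (-v.2) = (p : R l) * q := by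
  apply D.dvd_of_ps
  intro s hs
  let u : (ZMod (2 ^ (l + 1)))ˣ :=
    ZMod.unitOfCoprime s (Nat.Coprime.pow_right _ (Nat.coprime_two_right.mpr hs))
  have hu : (s : ZMod (2 ^ (l + 1))) = u := (ZMod.coe_unitOfCoprime s _).symm
  rw [map_mul]
  by_cases h1 : u ∈ VV v.1 v.2
  · rw [mem_VV, ← hu] at h1
    rw [D.ps_JJ_zero s hs h.1 h.2.1 h1, zero_mul]
  · have h2 := (mem_VV_neg h.1 h.2.1 h.2.2 u).mpr h1
    rw [D.ps_PP s hs u hu h2, mul_zero]

open Classical in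
/-- The quotient of the Jacobi sum and the product, up to the sign. -/
noncomputable def eta (D : Dat l x p N) (v : GG l) : R l :=
  if h : Good v then -(D.dvd_JP h).choose else 1

theorem eta_spec (D : Dat l x p N) {v : GG l} (h : Good v) :
    D.JJ v.1 v.2 * PP x (-v.1) (-v.2) = -((p : R l) * D.eta v) := by
  classical
  rw [eta, dif_pos h, mul_neg, neg_neg]
  exact (D.dvd_JP h).choose_spec

theorem eta_bad (D : Dat l x p N) {v : GG l} (h : ¬ Good v) : D.eta v = 1 := by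
  classical
  rw [eta, dif_neg h]

omit [Fact p.Prime] in
theorem PP_mul_p (D : Dat l x p N) {v : GG l} (h : Good v) :
    PP x v.1 v.2 * PP x (-v.1) (-v.2) = (p : R l) := by
  rw [PP_mul h.1 h.2.1 h.2.2, D.hp]
  push_cast
  rfl

theorem eta_PP (D : Dat l x p N) {v : GG l} (h : Good v) :
    D.eta v * PP x v.1 v.2 = -D.JJ v.1 v.2 := by
  apply mul_left_cancel₀ D.p_ne
  have h1 := D.eta_spec h
  have h2 := D.PP_mul_p h
  linear_combination (PP x v.1 v.2) * h1 - D.JJ v.1 v.2 * h2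

theorem eta_mul (D : Dat l x p N) (v : GG l) : D.eta v * D.eta (-v) = 1 := by
  by_cases h : Good v
  · apply mul_left_cancel₀ D.p_ne
    have h1 := D.eta_PP h
    have h2 := D.eta_PP h.neg
    have h3 := D.PP_mul_p h
    have h4 := D.JJ_mul h.1 h.2.1 h.2.2
    rw [Prod.fst_neg, Prod.snd_neg] at h2
    have h5 : (D.eta v * PP x v.1 v.2) * (D.eta (-v) * PP x (-v.1) (-v.2)) = (p : R l) := by
      rw [h1, h2, neg_mul_neg, h4]
    linear_combination h5 - D.eta v * D.eta (-v) * h3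
  · have h2 : ¬ Good (-v) := fun h3 => h (by simpa using h3.neg)
    rw [D.eta_bad h, D.eta_bad h2, mul_one]

/-- the degenerate Jacobi sums are `-1` modulo `x`. -/
theorem JJ_bad (D : Dat l x p N) {v : GG l} (h : ¬ Good v) :
    ∃ z : R l, 1 = -D.JJ v.1 v.2 + (x : R l) * z := by
  by_cases h1 : v.1 = 0
  · by_cases h2 : v.2 = 0
    · refine ⟨(x : R l) ^ (2 ^ l - 1), ?_⟩
      have h3 : (0 : ℕ) < 2 ^ l := by positivity
      rw [h1, h2, JJ_zero_zero, ← pow_succ', Nat.sub_add_cancel h3]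
      have h4 : (p : R l) = (x : R l) ^ (2 ^ l) + 1 := by
        conv_lhs => rw [D.hp]
        push_cast
        rfl
      rw [h4]; ring
    · exact ⟨0, by rw [h1, D.JJ_zero_left h2]; ring⟩
  · by_cases h2 : v.2 = 0
    · exact ⟨0, by rw [h2, D.JJ_zero_right h1]; ring⟩
    · have h3 : v.1 + v.2 = 0 := by
        by_contra h3
        exact h ⟨h1, h2, h3⟩
      exact ⟨0, by rw [D.JJ_neg h1 h3]; ring⟩

theorem eta_cong (D : Dat l x p N) (v : GG l) :
    ∃ z : R l, D.eta v = -D.JJ v.1 v.2 + (x : R l) * z := by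
  by_cases h : Good v
  · obtain ⟨z, hz⟩ := PP_cong x v.1 v.2
    have h1 := D.eta_PP h
    rw [hz] at h1
    exact ⟨-(z * D.eta v), by linear_combination h1⟩
  · rw [D.eta_bad h]
    exact D.JJ_bad h

theorem sg_JJ (D : Dat l x p N) (c : ℕ) (hc : Odd c) (a b : ZMod (2 ^ (l + 1))) :
    sg l c hc (D.JJ a b) =
      D.JJ ((c : ZMod (2 ^ (l + 1))) * a) ((c : ZMod (2 ^ (l + 1))) * b) := by
  have h : ∀ a : ZMod (2 ^ (l + 1)), (D.ch a).ringHomComp (sg l c hc) =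
      D.ch ((c : ZMod (2 ^ (l + 1))) * a) := by
    intro a
    apply MulChar.ext
    intro t
    rw [MulChar.ringHomComp_apply, D.ch_apply a t.ne_zero, D.ch_apply _ t.ne_zero, sg_EE, mul_assoc]
  rw [JJ, JJ, ← jacobiSum_ringHomComp, h, h]

theorem sg_eta (D : Dat l x p N) (c : ℕ) (hc : Odd c) (v : GG l) :
    sg l c hc (D.eta v) =
      D.eta ((c : ZMod (2 ^ (l + 1))) * v.1, (c : ZMod (2 ^ (l + 1))) * v.2) := by
  by_cases h : Good v
  · apply mul_left_cancel₀ D.p_ne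
    have h1 := congrArg (sg l c hc) (D.eta_spec h)
    have h2 := D.eta_spec (h.smul hc)
    rw [map_mul, sg_JJ, sg_PP, map_neg, map_mul, map_natCast, mul_neg, mul_neg, h2] at h1
    exact (neg_injective h1).symm
  · rw [D.eta_bad h, D.eta_bad (fun h1 => h h1.of_smul), map_one]

/-- The number of `t` with given indices of `t` and `1 - t`. -/
noncomputable def cy (D : Dat l x p N) (g : GG l) : ℕ := by
  classical
  exact #{t : ZMod p | t ≠ 0 ∧ 1 - t ≠ 0 ∧ D.ind t = g.1 ∧ D.ind (1 - t) = g.2}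

theorem ch_sum (D : Dat l x p N) (i : ZMod (2 ^ (l + 1))) (t : ZMod p) [Decidable (t ≠ 0 ∧ D.ind t = i)] :
    ∑ a : ZMod (2 ^ (l + 1)), D.ch a t * EE l (-a * i) =
      if t ≠ 0 ∧ D.ind t = i then ((2 ^ (l + 1) : ℕ) : R l) else 0 := by
  by_cases ht : t = 0
  · rw [if_neg (fun h => h.1 ht)]
    apply sum_eq_zero
    intro a _
    rw [ht, MulChar.map_zero, zero_mul]
  · have h1 : ∀ a : ZMod (2 ^ (l + 1)), D.ch a t * EE l (-a * i) = EE l ((D.ind t - i) * a) := by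
      intro a
      rw [D.ch_apply a ht, ← AddChar.map_add_eq_mul]
      congr 1; ring
    rw [sum_congr rfl fun a _ => h1 a, EE_sum]
    by_cases h2 : D.ind t = i
    · rw [if_pos (sub_eq_zero.mpr h2), if_pos ⟨ht, h2⟩]
    · rw [if_neg (fun h => h2 (sub_eq_zero.mp h)), if_neg (fun h => h2 h.2)]

theorem hat_JJ (D : Dat l x p N) (g : GG l) :
    hat (fun v => D.JJ v.1 v.2) g = ((2 ^ (l + 1) : ℕ) : R l) ^ 2 * (D.cy g : R l) := by
  classical
  have h1 : hat (fun v => D.JJ v.1 v.2) g = ∑ t : ZMod p,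
      (∑ a : ZMod (2 ^ (l + 1)), D.ch a t * EE l (-a * g.1)) *
        (∑ b : ZMod (2 ^ (l + 1)), D.ch b (1 - t) * EE l (-b * g.2)) := by
    rw [hat]
    have h2 : ∀ v : GG l, D.JJ v.1 v.2 * pr (-v) g = ∑ t : ZMod p,
        (D.ch v.1 t * EE l (-v.1 * g.1)) * (D.ch v.2 (1 - t) * EE l (-v.2 * g.2)) := by
      intro v
      rw [JJ, jacobiSum, sum_mul]
      refine sum_congr rfl fun t _ => ?_
      rw [pr, AddChar.map_add_eq_mul, Prod.fst_neg, Prod.snd_neg]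
      ring
    rw [sum_congr rfl fun v _ => h2 v, sum_comm]
    refine sum_congr rfl fun t _ => ?_
    rw [sum_mul_sum, Fintype.sum_prod_type]
  rw [h1]
  have h2 : ∀ t : ZMod p, (∑ a : ZMod (2 ^ (l + 1)), D.ch a t * EE l (-a * g.1)) *
        (∑ b : ZMod (2 ^ (l + 1)), D.ch b (1 - t) * EE l (-b * g.2)) =
      if t ≠ 0 ∧ 1 - t ≠ 0 ∧ D.ind t = g.1 ∧ D.ind (1 - t) = g.2 then
        ((2 ^ (l + 1) : ℕ) : R l) ^ 2 else 0 := by
    intro t
    rw [ch_sum, ch_sum]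
    by_cases h3 : t ≠ 0 ∧ D.ind t = g.1
    · by_cases h4 : 1 - t ≠ 0 ∧ D.ind (1 - t) = g.2
      · rw [if_pos h3, if_pos h4, if_pos ⟨h3.1, h4.1, h3.2, h4.2⟩, sq]
      · rw [if_neg h4, mul_zero, if_neg]
        rintro ⟨_, h5, _, h6⟩
        exact h4 ⟨h5, h6⟩
    · rw [if_neg h3, zero_mul, if_neg]
      rintro ⟨h5, _, h6, _⟩
      exact h3 ⟨h5, h6⟩
  rw [sum_congr rfl fun t _ => h2 t, ← sum_filter, sum_const, nsmul_eq_mul, mul_comm]
  rfl

theorem sg_pr (c : ℕ) (hc : Odd c) (v g : GG l) :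
    sg l c hc (pr v g) =
      pr ((c : ZMod (2 ^ (l + 1))) * v.1, (c : ZMod (2 ^ (l + 1))) * v.2) g := by
  rw [pr, pr, sg_EE]
  congr 1
  ring

theorem sg_hat (D : Dat l x p N) (c : ℕ) (hc : Odd c) (g : GG l) :
    sg l c hc (hat D.eta g) = hat D.eta g := by
  have hc' : Nat.Coprime c (2 ^ (l + 1)) := Nat.Coprime.pow_right _ (Nat.coprime_two_right.mpr hc)
  let w : (ZMod (2 ^ (l + 1)))ˣ := ZMod.unitOfCoprime c hc'
  have hw : (w : ZMod (2 ^ (l + 1))) = c := ZMod.coe_unitOfCoprime c hc'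
  rw [hat, map_sum]
  let e : GG l ≃ GG l := (Units.mulLeft w).prodCongr (Units.mulLeft w)
  rw [← Equiv.sum_comp e (fun v => D.eta v * pr (-v) g)]
  refine sum_congr rfl fun v _ => ?_
  have he : e v = ((c : ZMod (2 ^ (l + 1))) * v.1, (c : ZMod (2 ^ (l + 1))) * v.2) := by
    rw [← hw]; rfl
  rw [map_mul, sg_eta, sg_pr, he]
  congr 2
  rw [Prod.fst_neg, Prod.snd_neg, mul_neg, mul_neg]
  rfl

theorem hat_int (D : Dat l x p N) (hx : (2 ^ (l + 1)) ^ 2 ∣ x) (g : GG l) :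
    ∃ e : ℤ, hat D.eta g = ((2 ^ (l + 1) : ℕ) : R l) ^ 2 * (e : R l) := by
  choose z hz using D.eta_cong
  obtain ⟨x', hx'⟩ := hx
  have h1 : hat D.eta g = ((2 ^ (l + 1) : ℕ) : R l) ^ 2 *
      (-(D.cy g : R l) + (x' : R l) * ∑ v : GG l, z v * pr (-v) g) := by
    have h2 : hat D.eta g = -hat (fun v => D.JJ v.1 v.2) g +
        (x : R l) * ∑ v : GG l, z v * pr (-v) g := by
      rw [hat, hat, mul_sum, ← sum_neg_distrib, ← sum_add_distrib]
      refine sum_congr rfl fun v _ => ?_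
      rw [hz v]; ring
    have h3 : (x : R l) = ((2 ^ (l + 1) : ℕ) : R l) ^ 2 * (x' : R l) := by
      conv_lhs => rw [hx']
      push_cast
      rfl
    rw [h2, hat_JJ, h3]; ring
  set y := (-(D.cy g : R l) + (x' : R l) * ∑ v : GG l, z v * pr (-v) g) with hy
  have hn : (((2 ^ (l + 1) : ℕ) : R l) ^ 2) ≠ 0 := by
    apply pow_ne_zero
    have : (2 : ℕ) ^ (l + 1) ≠ 0 := by positivity
    exact_mod_cast this
  have h2 : ∀ c hc, sg l c hc y = y := by
    intro c hc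
    apply mul_left_cancel₀ hn
    have h3 := D.sg_hat c hc g
    rw [h1, map_mul, map_pow, map_natCast] at h3
    exact h3
  exact ⟨tau l y, by rw [h1]; rw [← fixed l y h2]⟩

theorem eta_one (D : Dat l x p N) (hx : (2 ^ (l + 1)) ^ 2 ∣ x) (v : GG l) : D.eta v = 1 := by
  apply rigidity D.eta _ _ _ D.eta_mul (D.hat_int hx)
  · exact D.eta_bad fun h => h.1 rfl
  · exact D.eta_bad fun h => h.2.1 rfl
  · exact D.eta_bad fun h => h.1 rfl

/-- The Jacobi sums are the products. -/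
def Full (D : Dat l x p N) : Prop :=
  ∀ a b : ZMod (2 ^ (l + 1)), a ≠ 0 → b ≠ 0 → a + b ≠ 0 → D.JJ a b = -PP x a b

theorem full_of_eta (D : Dat l x p N) (h : ∀ v : GG l, Good v → D.eta v = 1) : D.Full := by
  intro a b ha hb hab
  have h1 := D.eta_PP (v := (a, b)) ⟨ha, hb, hab⟩
  rw [h _ ⟨ha, hb, hab⟩, one_mul] at h1
  exact (neg_eq_iff_eq_neg.mpr h1).symm

/-- **The Jacobi sums**, for `x` divisible by `4 ^ (l + 1)`. -/
theorem full (D : Dat l x p N) (hx : (2 ^ (l + 1)) ^ 2 ∣ x) : D.Full :=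
  D.full_of_eta fun v _ => D.eta_one hx v

end Dat

end Pool.Agent.N92.FJ
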