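import Mathlib
import Pool.Agent.N92.FJ.Eta

/-!
The final form: Jacobi sums, Gauss sums, binomial coefficients, cyclotomic numbers.
-/

set_option autoImplicit false

namespace Pool.Agent.N92.FJ

open Finset Polynomial

/-- The odd `u < 2 ^ k` for which the residues of `u a` and `u b` modulo `2 ^ k` have a sum less than
`2 ^ k`. -/
def OddSet (k a b : ℕ) : Finset ℕ :=
  (range (2 ^ k)).filter fun u => Odd u ∧ (u * a) % 2 ^ k + (u * b) % 2 ^ k < 2 ^ k

/-- The inverse of `u` modulo `2 ^ k`, as a natural number less than `2 ^ k`. -/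
def Inv (k u : ℕ) : ℕ := ((u : ZMod (2 ^ k))⁻¹).val

variable {l : ℕ}

theorem prod_VV {M : Type*} [CommMonoid M] (a b : ℕ) (F : ℕ → M) :
    ∏ u ∈ VV (l := l) (a : ZMod (2 ^ (l + 1))) (b : ZMod (2 ^ (l + 1))),
      F (((u⁻¹ : (ZMod (2 ^ (l + 1)))ˣ) : ZMod (2 ^ (l + 1))).val) =
    ∏ u ∈ OddSet (l + 1) a b, F (Inv (l + 1) u) := by
  have hodd : ∀ u : (ZMod (2 ^ (l + 1)))ˣ, Odd (u : ZMod (2 ^ (l + 1))).val := by
    intro u
    have h1 := ZMod.val_coe_unit_coprime u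
    have h2 := (Nat.coprime_pow_right_iff (by omega) _ _).mp h1
    exact Nat.coprime_two_right.mp h2
  have hcop : ∀ u : ℕ, Odd u → Nat.Coprime u (2 ^ (l + 1)) := fun u hu =>
    Nat.Coprime.pow_right _ (Nat.coprime_two_right.mpr hu)
  refine prod_bij (fun u _ => (u : ZMod (2 ^ (l + 1))).val) ?_ ?_ ?_ ?_
  · intro u hu
    rw [mem_VV] at hu
    rw [OddSet, mem_filter, mem_range]
    refine ⟨ZMod.val_lt _, hodd u, ?_⟩
    have h : ∀ c : ℕ, ((u : ZMod (2 ^ (l + 1))).val * c) % 2 ^ (l + 1) =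
        ((u : ZMod (2 ^ (l + 1))) * (c : ZMod (2 ^ (l + 1)))).val := by
      intro c
      rw [← ZMod.val_natCast, Nat.cast_mul, ZMod.natCast_zmod_val]
    rw [h, h]
    exact hu
  · intro u _ v _ huv
    exact Units.ext (ZMod.val_injective _ huv)
  · intro w hw
    rw [OddSet, mem_filter, mem_range] at hw
    obtain ⟨hw1, hw2, hw3⟩ := hw
    refine ⟨ZMod.unitOfCoprime w (hcop w hw2), ?_, ?_⟩
    · rw [mem_VV, ZMod.coe_unitOfCoprime, ← Nat.cast_mul, ← Nat.cast_mul, ZMod.val_natCast,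
        ZMod.val_natCast]
      exact hw3
    · rw [ZMod.coe_unitOfCoprime]
      exact ZMod.val_cast_of_lt hw1
  · intro u _
    rw [Inv, ZMod.natCast_zmod_val, ← ZMod.inv_coe_unit]

theorem unit_val_ne (u : (ZMod (2 ^ (l + 1)))ˣ) : (u : ZMod (2 ^ (l + 1))) ≠ 0 := by
  intro h
  have h1 : IsUnit (0 : ZMod (2 ^ (l + 1))) := by rw [← h]; exact u.isUnit
  have h2 : Fact (1 < 2 ^ (l + 1)) := ⟨Nat.one_lt_two_pow (by omega)⟩
  exact not_isUnit_zero h1

theorem EE_neg_unit (u : (ZMod (2 ^ (l + 1)))ˣ) :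
    EE l (-(u : ZMod (2 ^ (l + 1)))) = zt l ^ (2 ^ (l + 1) - (u : ZMod (2 ^ (l + 1))).val) := by
  have : NeZero (u : ZMod (2 ^ (l + 1))) := ⟨unit_val_ne u⟩
  rw [EE_apply, ZMod.val_neg_of_ne_zero]

theorem PP_nat (x a b : ℕ) :
    PP x (a : ZMod (2 ^ (l + 1))) (b : ZMod (2 ^ (l + 1))) =
      ∏ u ∈ OddSet (l + 1) a b, (1 - (x : R l) * zt l ^ (2 ^ (l + 1) - Inv (l + 1) u)) := by
  rw [← prod_VV a b fun i => (1 - (x : R l) * zt l ^ (2 ^ (l + 1) - i)), PP]
  exact prod_congr rfl fun u _ => by rw [LL, EE_neg_unit]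

namespace Dat

variable {x p N : ℕ} [Fact p.Prime]

omit [Fact p.Prime] in
theorem ch_pow (D : Dat l x p N) (a : ℕ) : (D.ch 1) ^ a = D.ch (a : ZMod (2 ^ (l + 1))) := by
  induction a with
  | zero => rw [pow_zero, Nat.cast_zero, ch_zero]
  | succ a ih => rw [pow_succ, ih, ch_mul, Nat.cast_add, Nat.cast_one]

theorem natCast_ne {a : ℕ} (h : ¬ 2 ^ (l + 1) ∣ a) : (a : ZMod (2 ^ (l + 1))) ≠ 0 := by
  rwa [Ne, ZMod.natCast_eq_zero_iff]

/-- **Jacobi sums and Gauss sums** with values in any commutative ring. -/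
theorem jacobi (D : Dat l x p N) (hF : D.Full) (K : Type*) [CommRing K] (z : K) (hz : z ^ (2 ^ l) = -1) :
    ∃ χ : MulChar (ZMod p) K,
      (∀ t : ZMod p, t ≠ 0 → ∀ e : ℕ, t ^ N = (x : ZMod p) ^ e → χ t = z ^ e) ∧
      ∀ a b : ℕ, ¬ 2 ^ (l + 1) ∣ a → ¬ 2 ^ (l + 1) ∣ b → ¬ 2 ^ (l + 1) ∣ a + b →
        jacobiSum (χ ^ a) (χ ^ b) =
          -∏ u ∈ OddSet (l + 1) a b, (1 - (x : K) * z ^ (2 ^ (l + 1) - Inv (l + 1) u)) := by
  let φ : R l →+* K := AdjoinRoot.lift (Int.castRingHom _) z (eval_phi l _ hz)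
  have hφ : φ (zt l) = z := AdjoinRoot.lift_root _
  have hzn : z ^ (2 ^ (l + 1)) = 1 := by
    rw [← hφ, ← map_pow, zt_pow_n, map_one]
  refine ⟨(D.ch 1).ringHomComp φ, ?_, ?_⟩
  · intro t ht e he
    have h1 : D.ind t = (e : ZMod (2 ^ (l + 1))) := by
      apply D.ee_inj
      rw [D.ind_spec ht, ee_nat, he]
    rw [MulChar.ringHomComp_apply, D.ch_apply 1 ht, one_mul, h1, EE_nat, map_pow, hφ]
  · intro a b ha hb hab
    rw [MulChar.ringHomComp_pow, MulChar.ringHomComp_pow, jacobiSum_ringHomComp, ch_pow,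
      ch_pow]
    have h1 := hF _ _ (natCast_ne ha) (natCast_ne hb) (by
      rw [← Nat.cast_add]; exact natCast_ne hab)
    rw [JJ] at h1
    rw [h1, PP_nat, map_neg, map_prod]
    congr 1
    refine prod_congr rfl fun u _ => ?_
    rw [map_sub, map_one, map_mul, map_natCast, map_pow, hφ]

/-- **Binomial coefficients.** -/
theorem binom (D : Dat l x p N) (hF : D.Full) (a b : ℕ) (ha : 0 < a) (hb : 0 < b) (hab : a + b < 2 ^ (l + 1)) :
    ((((a + b) * N).choose (a * N) : ℕ) : ZMod p) =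
      ∏ u ∈ OddSet (l + 1) a b, (1 - (x : ZMod p) ^ (1 + Inv (l + 1) u)) := by
  have hn : 2 ^ (l + 1) = 2 * 2 ^ l := by ring
  have hl : 0 < 2 ^ l := by positivity
  have hs : Odd (2 ^ (l + 1) - 1) := ⟨2 ^ l - 1, by omega⟩
  have hs1 : ((2 ^ (l + 1) - 1 : ℕ) : ZMod (2 ^ (l + 1))) = -1 := by
    rw [Nat.cast_sub (by omega), ZMod.natCast_self, Nat.cast_one, zero_sub]
  have hda : ¬ 2 ^ (l + 1) ∣ a := fun h => absurd (Nat.le_of_dvd ha h) (by omega)
  have hdb : ¬ 2 ^ (l + 1) ∣ b := fun h => absurd (Nat.le_of_dvd hb h) (by omega)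
  have hdab : ¬ 2 ^ (l + 1) ∣ a + b := fun h => absurd (Nat.le_of_dvd (by omega) h) (by omega)
  have h1 := D.ps_JJ_val _ hs hs1 a b ha hb hab
  rw [hF _ _ (natCast_ne hda) (natCast_ne hdb) (by
      rw [← Nat.cast_add]; exact natCast_ne hdab), map_neg] at h1
  rw [← neg_injective h1, PP, map_prod,
    ← prod_VV a b fun i => (1 - (x : ZMod p) ^ (1 + i))]
  refine prod_congr rfl fun u _ => ?_
  rw [LL, map_sub, map_one, map_mul, map_natCast, ps_EE, hs1, neg_mul_neg, one_mul, ee_apply,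
    ← pow_succ', add_comm]

/-- The polynomial whose value at `x` is the Jacobi sum. -/
noncomputable def JP (l : ℕ) (v : GG l) : (R l)[X] := by
  classical
  exact if Good v then -∏ u ∈ VV v.1 v.2,
      (1 - C (EE l (-((u⁻¹ : (ZMod (2 ^ (l + 1)))ˣ) : ZMod (2 ^ (l + 1))))) * X)
    else if v = 0 then X ^ (2 ^ l) - 1 else -1

theorem eval_JP (D : Dat l x p N) (hF : D.Full) (v : GG l) : (JP l v).eval (x : R l) = D.JJ v.1 v.2 := by
  classical
  rw [JP]
  by_cases h : Good v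
  · rw [if_pos h, eval_neg, eval_prod, hF _ _ h.1 h.2.1 h.2.2, PP]
    congr 1
    refine prod_congr rfl fun u _ => ?_
    rw [eval_sub, eval_one, eval_mul, eval_C, eval_X, LL, mul_comm]
  · rw [if_neg h]
    by_cases h0 : v = 0
    · rw [if_pos h0, h0, Prod.fst_zero, Prod.snd_zero, JJ_zero_zero, eval_sub, eval_pow, eval_X,
        eval_one]
      have h4 : (p : R l) = (x : R l) ^ (2 ^ l) + 1 := by
        conv_lhs => rw [D.hp]
        push_cast
        rfl
      rw [h4]; ring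
    · rw [if_neg h0, eval_neg, eval_one]
      by_cases h1 : v.1 = 0
      · have h2 : v.2 ≠ 0 := fun h2 => h0 (Prod.ext h1 h2)
        rw [h1, D.JJ_zero_left h2]
      · by_cases h2 : v.2 = 0
        · rw [h2, D.JJ_zero_right h1]
        · have h3 : v.1 + v.2 = 0 := by
            by_contra h3
            exact h ⟨h1, h2, h3⟩
          rw [D.JJ_neg h1 h3]

/-- The polynomial for the cyclotomic numbers. -/
noncomputable def CP (l : ℕ) (g : GG l) : ℤ[X] :=
  ∑ i ∈ range ((∑ v : GG l, JP l v * C (pr (-v) g)).natDegree + 1),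
    C (tau l ((∑ v : GG l, JP l v * C (pr (-v) g)).coeff i)) * X ^ i

theorem tau_sum {ι : Type*} (s : Finset ι) (f : ι → R l) :
    tau l (∑ i ∈ s, f i) = ∑ i ∈ s, tau l (f i) := by
  classical
  induction s using Finset.induction_on with
  | empty =>
    rw [sum_empty, sum_empty]
    have := tau_int l 0
    rwa [Int.cast_zero] at this
  | insert i s hi ih => rw [sum_insert hi, sum_insert hi, tau_add, ih]

theorem eval_CP (D : Dat l x p N) (hF : D.Full) (g : GG l) :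
    (CP l g).eval (x : ℤ) = (2 ^ (l + 1)) ^ 2 * (D.cy g : ℤ) := by
  have h1 : (∑ v : GG l, JP l v * C (pr (-v) g)).eval (x : R l) =
      (((2 ^ (l + 1)) ^ 2 * (D.cy g : ℤ) : ℤ) : R l) := by
    rw [eval_finsetSum]
    have h2 := D.hat_JJ g
    rw [hat] at h2
    rw [sum_congr rfl fun v _ => by rw [eval_mul, eval_C, D.eval_JP hF v], h2]
    push_cast
    rfl
  have h2 := congrArg (tau l) h1
  rw [tau_int, eval_eq_sum_range, tau_sum] at h2
  rw [CP, eval_finsetSum, ← h2]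
  refine sum_congr rfl fun i _ => ?_
  have h3 : (∑ v : GG l, JP l v * C (pr (-v) g)).coeff i * (x : R l) ^ i =
      (((x : ℤ) ^ i : ℤ) : R l) * (∑ v : GG l, JP l v * C (pr (-v) g)).coeff i := by
    rw [mul_comm]
    push_cast
    rfl
  rw [h3, tau_int_mul, eval_mul, eval_C, eval_pow, eval_X, mul_comm]

theorem cy_eq (D : Dat l x p N) (i j : ℕ) :
    D.cy ((i : ZMod (2 ^ (l + 1))), (j : ZMod (2 ^ (l + 1)))) =
      {t : ZMod p | t ≠ 0 ∧ t ≠ 1 ∧ t ^ N = (x : ZMod p) ^ i ∧ (1 - t) ^ N = (x : ZMod p) ^ j}.ncard := by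
  classical
  rw [cy, Set.ncard_eq_toFinset_card']
  congr 1
  ext t
  simp only [mem_filter, mem_univ, true_and, Set.mem_toFinset, Set.mem_ofPred_eq]
  constructor
  · rintro ⟨h1, h2, h3, h4⟩
    refine ⟨h1, fun h => h2 (by rw [h, sub_self]), ?_, ?_⟩
    · rw [← D.ind_spec h1, h3, ee_nat]
    · rw [← D.ind_spec h2, h4, ee_nat]
  · rintro ⟨h1, h2, h3, h4⟩
    have h2' : 1 - t ≠ 0 := fun h => h2 (sub_eq_zero.mp h).symm
    refine ⟨h1, h2', ?_, ?_⟩
    · apply D.ee_inj; rw [D.ind_spec h1, h3, ee_nat]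
    · apply D.ee_inj; rw [D.ind_spec h2', h4, ee_nat]

end Dat

end Pool.Agent.N92.FJ
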