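import Mathlib
import Pool.Agent.N92.FJ.Eta

/-!
The quotients of the Jacobi sums by the products are roots of unity (theorem of Kronecker).
-/

set_option autoImplicit false

namespace Pool.Agent.N92.FJ

open Finset Polynomial

/-- The cyclotomic field. -/
abbrev KK (l : ℕ) := CyclotomicField (2 ^ (l + 1)) ℚ

instance neZero_rat (l : ℕ) : NeZero (((2 ^ (l + 1) : ℕ)) : ℚ) := ⟨by positivity⟩

instance (l : ℕ) : IsCyclotomicExtension {2 ^ (l + 1)} ℚ (KK l) :=
  CyclotomicField.isCyclotomicExtension _ _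

instance (l : ℕ) : NumberField (KK l) := IsCyclotomicExtension.numberField {2 ^ (l + 1)} ℚ (KK l)

/-- The root of unity in the cyclotomic field. -/
noncomputable def zK (l : ℕ) : KK l := IsCyclotomicExtension.zeta (2 ^ (l + 1)) ℚ (KK l)

theorem zK_prim (l : ℕ) : IsPrimitiveRoot (zK l) (2 ^ (l + 1)) :=
  IsCyclotomicExtension.zeta_spec _ _ _

theorem pow_half {K : Type*} [CommRing K] [IsDomain K] (l : ℕ) {z : K}
    (hz : IsPrimitiveRoot z (2 ^ (l + 1))) : z ^ (2 ^ l) = -1 := by
  have h1 : (z ^ (2 ^ l) - 1) * (z ^ (2 ^ l) + 1) = 0 := by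
    have : (z ^ (2 ^ l) - 1) * (z ^ (2 ^ l) + 1) = z ^ (2 ^ (l + 1)) - 1 := by
      rw [pow_succ 2 l, pow_mul]; ring
    rw [this, hz.pow_eq_one, sub_self]
  rcases mul_eq_zero.mp h1 with h2 | h2
  · exfalso
    have h3 := hz.dvd_of_pow_eq_one _ (sub_eq_zero.mp h2)
    have h4 := Nat.le_of_dvd (by positivity) h3
    have h5 : 2 ^ (l + 1) = 2 * 2 ^ l := by ring
    have : 0 < 2 ^ l := by positivity
    omega
  · exact eq_neg_of_add_eq_zero_left h2

/-- The embedding of the ring in the field. -/
noncomputable def jK (l : ℕ) : R l →+* KK l :=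
  AdjoinRoot.lift (Int.castRingHom _) (zK l) (eval_phi l _ (pow_half l (zK_prim l)))

theorem jK_zt (l : ℕ) : jK l (zt l) = zK l := AdjoinRoot.lift_root _

/-- every homomorphism to a field of characteristic zero is injective -/
theorem hom_inj {l : ℕ} {K : Type*} [Field K] [CharZero K] (g : R l →+* K) :
    Function.Injective g := by
  have hprim : IsPrimitiveRoot (g (zt l)) (2 ^ (l + 1)) := by
    have h1 : ¬ (g (zt l)) ^ (2 ^ l) = 1 := by
      rw [← map_pow, zt_pow, map_neg, map_one]
      intro h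
      have : (2 : K) = 0 := by linear_combination -h
      exact two_ne_zero this
    have h2 : (g (zt l)) ^ (2 ^ (l + 1)) = 1 := by rw [← map_pow, zt_pow_n, map_one]
    have h3 := orderOf_eq_prime_pow h1 h2
    rw [← h3]
    exact IsPrimitiveRoot.orderOf _
  rw [injective_iff_map_eq_zero]
  intro y hy
  set f := (rep l y).map (Int.castRingHom ℚ) with hf
  have h1 : aeval (g (zt l)) f = 0 := by
    have h6 : g y = eval₂ (Int.castRingHom K) (g (zt l)) (rep l y) := by
      conv_lhs => rw [expand l y, map_sum]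
      rw [eval₂_eq_sum_range' _ (rep_deg l y)]
      refine sum_congr rfl fun i _ => ?_
      rw [map_mul, map_intCast, map_pow]
      rfl
    rw [hf, aeval_def, eval₂_map]
    have h5 : (algebraMap ℚ K).comp (Int.castRingHom ℚ) = Int.castRingHom K :=
      RingHom.ext_int _ _
    rw [h5, ← h6]
    exact hy
  have h2 : f = 0 := by
    by_contra h
    have h3 := minpoly.degree_le_of_ne_zero ℚ (g (zt l)) h h1
    rw [← cyclotomic_eq_minpoly_rat hprim (by positivity), degree_cyclotomic,
      Nat.totient_prime_pow_succ Nat.prime_two, degree_eq_natDegree h] at h3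
    have h4 := rep_deg l y
    have h5 : f.natDegree ≤ (rep l y).natDegree := natDegree_map_le
    have h6 : 2 ^ l * (2 - 1) ≤ f.natDegree := by exact_mod_cast h3
    omega
  have h3 : rep l y = 0 := by
    apply Polynomial.map_injective (Int.castRingHom ℚ) Int.cast_injective
    rw [← hf, h2, Polynomial.map_zero]
  rw [← mk_rep l y, h3, map_zero]

theorem jK_inj (l : ℕ) : Function.Injective (jK l) := hom_inj _

theorem jK_int (l : ℕ) (y : R l) : IsIntegral ℤ (jK l y) := by
  have hz : IsIntegral ℤ (zK l) := (zK_prim l).isIntegral (by positivity)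
  rw [expand l y, map_sum]
  apply IsIntegral.sum
  intro i _
  rw [map_mul, map_intCast, map_pow, jK_zt]
  exact (isIntegral_algebraMap (R := ℤ) (A := KK l) (x := (rep l y).coeff i)).mul (hz.pow i)

/-- ring homomorphisms from the ring are determined by the image of the root of unity -/
theorem hom_ext {l : ℕ} {K : Type*} [CommRing K] {f g : R l →+* K} (h : f (zt l) = g (zt l)) :
    f = g := by
  apply RingHom.ext
  intro y
  rw [expand l y, map_sum, map_sum]
  refine sum_congr rfl fun i _ => ?_
  rw [map_mul, map_mul, map_intCast, map_intCast, map_pow, map_pow, h]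

namespace Dat

variable {l x p N : ℕ} [Fact p.Prime]

theorem eta_root (D : Dat l x p N) (v : GG l) : ∃ M, 0 < M ∧ D.eta v ^ M = 1 := by
  have hn : 2 ^ (l + 1) = 2 * 2 ^ l := by ring
  have hl : 0 < 2 ^ l := by positivity
  have hs : Odd (2 ^ (l + 1) - 1) := ⟨2 ^ l - 1, by omega⟩
  have hs1 : ((2 ^ (l + 1) - 1 : ℕ) : ZMod (2 ^ (l + 1))) = -1 := by
    rw [Nat.cast_sub (by omega), ZMod.natCast_self, Nat.cast_one, zero_sub]
  have h1 : ∀ φ : KK l →+* ℂ, ‖φ (jK l (D.eta v))‖ = 1 := by
    intro φ
    let f : R l →+* ℂ := φ.comp (jK l)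
    have hf1 : ‖f (zt l)‖ = 1 := by
      have h := congrArg (fun y => ‖f y‖) (zt_pow_n l)
      simp only [map_pow, map_one, norm_pow, norm_one] at h
      exact (pow_eq_one_iff_of_nonneg (norm_nonneg _) (by positivity)).mp h
    have h2 : (starRingEnd ℂ).comp f = f.comp (sg l _ hs) := by
      apply hom_ext
      change (starRingEnd ℂ) (f (zt l)) = f (sg l _ hs (zt l))
      rw [sg_zt, map_pow]
      have h3 : f (zt l) * (starRingEnd ℂ) (f (zt l)) = 1 := by
        rw [Complex.mul_conj, Complex.normSq_eq_norm_sq, hf1]; norm_num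
      have h4 : f (zt l) * f (zt l) ^ (2 ^ (l + 1) - 1) = 1 := by
        rw [← pow_succ', Nat.sub_add_cancel (by omega), ← map_pow, zt_pow_n, map_one]
      have h5 : f (zt l) ≠ 0 := by
        intro h; rw [h, norm_zero] at hf1; exact zero_ne_one hf1
      exact mul_left_cancel₀ h5 (h3.trans h4.symm)
    have h3 : (starRingEnd ℂ) (f (D.eta v)) = f (D.eta (-v)) := by
      have h4 := congrArg (fun g => g (D.eta v)) (congrArg DFunLike.coe h2)
      simp only [RingHom.comp_apply] at h4
      rw [h4, sg_eta, hs1, neg_one_mul, neg_one_mul]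
      rfl
    have h4 : f (D.eta v) * (starRingEnd ℂ) (f (D.eta v)) = 1 := by
      rw [h3, ← map_mul, eta_mul, map_one]
    rw [Complex.mul_conj, Complex.normSq_eq_norm_sq] at h4
    have h5 : ‖f (D.eta v)‖ ^ 2 = 1 := by exact_mod_cast h4
    exact (pow_eq_one_iff_of_nonneg (norm_nonneg _) (by norm_num)).mp h5
  obtain ⟨M, hM, h⟩ := NumberField.Embeddings.pow_eq_one_of_norm_eq_one (KK l) ℂ
    (jK_int l (D.eta v)) h1
  refine ⟨M, hM, jK_inj l ?_⟩
  rw [map_pow, h, map_one]

end Dat

end Pool.Agent.N92.FJ
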