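import Mathlib
import Pool.Agent.N92.FJ.Prod

/-!
Some `2`-adic estimates.
-/

set_option autoImplicit false

namespace Pool.Agent.N92.FJ

open Finset

variable {C : Type*} [NormedField C] [IsUltrametricDist C]

omit [IsUltrametricDist C] in
theorem norm_two_le (h2 : ‖(2 : C)‖ = 1 / 2) (y : C) : ‖2 * y‖ = ‖y‖ / 2 := by
  rw [norm_mul, h2]; ring

theorem norm_odd (h2 : ‖(2 : C)‖ = 1 / 2) {M : ℤ} (hM : Odd M) : ‖(M : C)‖ = 1 := by
  obtain ⟨r, hr⟩ := hM
  have h1 : ‖((2 * r : ℤ) : C)‖ ≤ 1 / 2 := by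
    push_cast
    rw [norm_two_le h2]
    have := IsUltrametricDist.norm_intCast_le_one C r
    linarith
  have h3 : ((M : ℤ) : C) = 1 + ((2 * r : ℤ) : C) := by rw [hr]; push_cast; ring
  rw [h3]
  have h4 : ‖(1 : C)‖ ≠ ‖((2 * r : ℤ) : C)‖ := by
    rw [norm_one]; intro h; linarith
  rw [IsUltrametricDist.norm_add_eq_max_of_norm_ne_norm h4, norm_one]
  exact max_eq_left (by linarith)

theorem norm_sub_le' (x y : C) : ‖x - y‖ ≤ max ‖x‖ ‖y‖ := by
  have := IsUltrametricDist.norm_add_le_max x (-y)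
  rwa [← sub_eq_add_neg, norm_neg] at this

theorem norm_add_le' (x y : C) : ‖x + y‖ ≤ max ‖x‖ ‖y‖ := IsUltrametricDist.norm_add_le_max x y

/-- extraction of a square root -/
theorem sqrt_near (h2 : ‖(2 : C)‖ = 1 / 2) {A r : C} {d : ℝ} (hr : ‖r‖ = 1)
    (h : ‖A ^ 2 - r ^ 2‖ ≤ d) : ∃ s : C, s ^ 2 = r ^ 2 ∧ ‖s‖ = 1 ∧ ‖A - s‖ ≤ 2 * d := by
  have h1 : ‖A - r‖ * ‖A + r‖ ≤ d := by
    rw [← norm_mul]
    have : (A - r) * (A + r) = A ^ 2 - r ^ 2 := by ring
    rwa [this]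
  have h3 : 1 / 2 ≤ max ‖A + r‖ ‖A - r‖ := by
    have h4 := norm_sub_le' (A + r) (A - r)
    have h5 : (A + r) - (A - r) = 2 * r := by ring
    rw [h5, norm_two_le h2, hr] at h4
    exact h4
  have hd : 0 ≤ d := le_trans (norm_nonneg _) h
  rcases le_total ‖A - r‖ ‖A + r‖ with hle | hle
  · rw [max_eq_left hle] at h3
    refine ⟨r, rfl, hr, ?_⟩
    have h5 := norm_nonneg (A - r)
    nlinarith
  · rw [max_eq_right hle] at h3
    refine ⟨-r, by ring, by rw [norm_neg]; exact hr, ?_⟩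
    have h5 := norm_nonneg (A + r)
    have h6 : A - -r = A + r := by ring
    rw [h6]
    nlinarith

/-- A root of unity which is closer to `1` than `-1` is `1`. -/
theorem eq_one_of_near (h2 : ‖(2 : C)‖ = 1 / 2) (M : ℕ) (hM : 0 < M) (z : C) (hz : z ^ M = 1)
    (h : ‖z - 1‖ < 1 / 2) : z = 1 := by
  induction M using Nat.strong_induction_on generalizing z with
  | _ M ih =>
    rcases Nat.even_or_odd M with hE | hO
    · obtain ⟨r, hr⟩ := hE
      have h3 : (z ^ 2) ^ r = 1 := by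
        rw [← pow_mul, ← hz, hr]; congr 1; ring
      have h4 : ‖z + 1‖ ≤ 1 / 2 := by
        have h5 : z + 1 = (z - 1) + 2 := by ring
        rw [h5]
        refine (norm_add_le' _ _).trans (max_le h.le h2.le)
      have h5 : ‖z ^ 2 - 1‖ < 1 / 2 := by
        have h6 : z ^ 2 - 1 = (z - 1) * (z + 1) := by ring
        rw [h6, norm_mul]
        have := norm_nonneg (z - 1)
        nlinarith [norm_nonneg (z + 1)]
      have h6 := ih r (by omega) (by omega) (z ^ 2) h3 h5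
      have h7 : (z - 1) * (z + 1) = 0 := by
        have : (z - 1) * (z + 1) = z ^ 2 - 1 := by ring
        rw [this, h6, sub_self]
      rcases mul_eq_zero.mp h7 with h8 | h8
      · exact sub_eq_zero.mp h8
      · exfalso
        have h9 : z - 1 = -2 := by linear_combination h8
        rw [h9, norm_neg, h2] at h
        exact lt_irrefl _ h
    · have h3 : (∑ i ∈ range M, z ^ i) * (z - 1) = 0 := by
        rw [geom_sum_mul, hz, sub_self]
      rcases mul_eq_zero.mp h3 with h4 | h4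
      · exfalso
        have hz1 : ‖z‖ = 1 := by
          have := congrArg norm hz
          rw [norm_pow, norm_one] at this
          exact (pow_eq_one_iff_of_nonneg (norm_nonneg _) hM.ne').mp this
        have h5 : ‖∑ i ∈ range M, (z ^ i - 1)‖ ≤ ‖z - 1‖ := by
          apply IsUltrametricDist.norm_sum_le_of_forall_le_of_nonneg (norm_nonneg _)
          intro i _
          have h6 : z ^ i - 1 = (∑ j ∈ range i, z ^ j) * (z - 1) := (geom_sum_mul z i).symm
          rw [h6, norm_mul]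
          have h7 : ‖∑ j ∈ range i, z ^ j‖ ≤ 1 := by
            apply IsUltrametricDist.norm_sum_le_of_forall_le_of_nonneg zero_le_one
            intro j _
            rw [norm_pow, hz1, one_pow]
          nlinarith [norm_nonneg (z - 1)]
        rw [sum_sub_distrib, h4, zero_sub, norm_neg, sum_const, card_range, nsmul_eq_mul,
          mul_one] at h5
        have h6 : ‖((M : ℤ) : C)‖ = 1 := norm_odd h2 (by exact_mod_cast hO)
        rw [Int.cast_natCast] at h6
        rw [h6] at h5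
        linarith
      · exact sub_eq_zero.mp h4

/-- the square of a sum modulo two -/
theorem sq_sum {ι : Type*} (s : Finset ι) (f : ι → C) (hf : ∀ i ∈ s, ‖f i‖ ≤ 1) :
    ∃ w : C, ‖w‖ ≤ 1 ∧ (∑ i ∈ s, f i) ^ 2 = ∑ i ∈ s, f i ^ 2 + 2 * w := by
  classical
  induction s using Finset.induction_on with
  | empty => exact ⟨0, by rw [norm_zero]; exact zero_le_one, by simp⟩
  | insert i s hi ih =>
    obtain ⟨w, hw, h⟩ := ih fun j hj => hf j (mem_insert_of_mem hj)
    refine ⟨w + f i * ∑ j ∈ s, f j, ?_, ?_⟩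
    · refine (norm_add_le' _ _).trans (max_le hw ?_)
      rw [norm_mul]
      have h1 := hf i (mem_insert_self _ _)
      have h2 : ‖∑ j ∈ s, f j‖ ≤ 1 :=
        IsUltrametricDist.norm_sum_le_of_forall_le_of_nonneg zero_le_one
          fun j hj => hf j (mem_insert_of_mem hj)
      exact mul_le_one₀ h1 (norm_nonneg _) h2
    · rw [sum_insert hi, sum_insert hi, add_sq, h]; ring

/-- an element which is an idempotent modulo two is `0` or `1` modulo two -/
theorem idem (y : C) (hy : ‖y‖ ≤ 1) (h : ‖y ^ 2 - y‖ ≤ 1 / 2) :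
    ∃ e : ℤ, (e = 0 ∨ e = 1) ∧ ‖y - e‖ ≤ 1 / 2 := by
  have h1 : ‖y‖ * ‖y - 1‖ ≤ 1 / 2 := by
    rw [← norm_mul]
    have : y * (y - 1) = y ^ 2 - y := by ring
    rwa [this]
  have h3 : 1 ≤ max ‖y‖ ‖y - 1‖ := by
    have h4 := norm_sub_le' y (y - 1)
    have h5 : y - (y - 1) = 1 := by ring
    rwa [h5, norm_one] at h4
  rcases le_total ‖y‖ ‖y - 1‖ with hle | hle
  · rw [max_eq_right hle] at h3
    refine ⟨0, Or.inl rfl, ?_⟩
    rw [Int.cast_zero, sub_zero]
    nlinarith [norm_nonneg y]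
  · rw [max_eq_left hle] at h3
    refine ⟨1, Or.inr rfl, ?_⟩
    rw [Int.cast_one]
    nlinarith [norm_nonneg (y - 1)]

section ring

variable {l : ℕ} (φ : R l →+* C)

omit [IsUltrametricDist C] in
theorem norm_zt : ‖φ (zt l)‖ = 1 := by
  have h := congrArg (fun y => ‖φ y‖) (zt_pow_n l)
  simp only [map_pow, map_one, norm_pow, norm_one] at h
  exact (pow_eq_one_iff_of_nonneg (norm_nonneg _) (by positivity)).mp h

omit [IsUltrametricDist C] in
theorem norm_EE (a : ZMod (2 ^ (l + 1))) : ‖φ (EE l a)‖ = 1 := by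
  rw [EE_apply, map_pow, norm_pow, norm_zt, one_pow]

theorem norm_R (y : R l) : ‖φ y‖ ≤ 1 := by
  rw [expand l y, map_sum]
  apply IsUltrametricDist.norm_sum_le_of_forall_le_of_nonneg zero_le_one
  intro i _
  rw [map_mul, map_intCast, map_pow, norm_mul, norm_pow, norm_zt, one_pow, mul_one]
  exact IsUltrametricDist.norm_intCast_le_one C _

/-- The prime element. -/
noncomputable def pii (l : ℕ) : R l := 1 - zt l

theorem two_dvd (l : ℕ) : ∃ w, (2 : R l) = pii l * w := by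
  refine ⟨∑ i ∈ range (2 ^ l), zt l ^ i, ?_⟩
  have h := mul_neg_geom_sum (zt l) (2 ^ l)
  rw [zt_pow] at h
  rw [pii, h]; ring

theorem two_eq_prod (l : ℕ) :
    ∏ u : (ZMod (2 ^ (l + 1)))ˣ, (1 - EE l (u : ZMod (2 ^ (l + 1)))) = 2 := by
  rw [prod_sub, one_pow]; norm_num

theorem card_units' (l : ℕ) : Fintype.card (ZMod (2 ^ (l + 1)))ˣ = 2 ^ l := by
  rw [ZMod.card_units_eq_totient, Nat.totient_prime_pow_succ Nat.prime_two]
  simp

/-- `2` is associated to the `2 ^ l`-th power of the prime element. -/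
theorem pii_pow (l : ℕ) : (∃ v, pii l ^ (2 ^ l) = 2 * v) ∧ ∃ w, (2 : R l) = pii l ^ (2 ^ l) * w := by
  have h1 : ∀ u : (ZMod (2 ^ (l + 1)))ˣ, ∃ v, pii l = (1 - EE l (u : ZMod (2 ^ (l + 1)))) * v := by
    intro u
    refine ⟨∑ i ∈ range ((u⁻¹ : (ZMod (2 ^ (l + 1)))ˣ) : ZMod (2 ^ (l + 1))).val,
      EE l (u : ZMod (2 ^ (l + 1))) ^ i, ?_⟩
    rw [mul_neg_geom_sum, ← AddChar.map_nsmul_eq_pow, nsmul_eq_mul, ZMod.natCast_zmod_val,
      Units.inv_mul, pii]
    congr 1
    have := EE_nat l 1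
    rw [Nat.cast_one, pow_one] at this
    exact this.symm
  have h2 : ∀ u : (ZMod (2 ^ (l + 1)))ˣ, ∃ v, (1 - EE l (u : ZMod (2 ^ (l + 1)))) = pii l * v := by
    intro u
    refine ⟨∑ i ∈ range (u : ZMod (2 ^ (l + 1))).val, zt l ^ i, ?_⟩
    rw [pii, mul_neg_geom_sum, EE_apply]
  choose v hv using h1
  choose w hw using h2
  constructor
  · refine ⟨∏ u, v u, ?_⟩
    rw [← two_eq_prod l, ← prod_mul_distrib, ← prod_congr rfl fun u _ => hv u, prod_const,
      card_univ, card_units']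
  · refine ⟨∏ u, w u, ?_⟩
    rw [← two_eq_prod l, prod_congr rfl fun u _ => hw u, prod_mul_distrib, prod_const,
      card_univ, card_units']

theorem norm_pii_pow (h2 : ‖(2 : C)‖ = 1 / 2) : ‖φ (pii l)‖ ^ (2 ^ l) = 1 / 2 := by
  obtain ⟨⟨v, hv⟩, w, hw⟩ := pii_pow l
  rw [← norm_pow, ← map_pow]
  apply le_antisymm
  · rw [hv, map_mul, norm_mul, map_ofNat, h2]
    have := norm_R φ v
    nlinarith
  · rw [← h2, ← map_ofNat φ 2, hw, map_mul, norm_mul]
    have := norm_R φ w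
    nlinarith [norm_nonneg (φ (pii l ^ 2 ^ l))]

theorem norm_pii_lt (h2 : ‖(2 : C)‖ = 1 / 2) : ‖φ (pii l)‖ < 1 := by
  have h := norm_pii_pow φ h2
  by_contra h1
  push Not at h1
  have := one_le_pow₀ h1 (n := 2 ^ l)
  rw [h] at this
  linarith

theorem norm_pii_pos (h2 : ‖(2 : C)‖ = 1 / 2) : 0 < ‖φ (pii l)‖ := by
  have h := norm_pii_pow φ h2
  rcases (norm_nonneg (φ (pii l))).lt_or_eq with h1 | h1
  · exact h1
  · rw [← h1, zero_pow (by positivity)] at h
    norm_num at h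

theorem dvd_pii (h2 : ‖(2 : C)‖ = 1 / 2) (y : R l) (h : ‖φ y‖ < 1) : ∃ z, y = pii l * z := by
  have h1 : ∃ w, y = ((∑ i ∈ range (2 ^ l), (rep l y).coeff i : ℤ) : R l) + pii l * w := by
    refine ⟨-∑ i ∈ range (2 ^ l), ((rep l y).coeff i : R l) * ∑ j ∈ range i, zt l ^ j, ?_⟩
    conv_lhs => rw [expand l y]
    rw [Int.cast_sum, mul_neg, mul_sum, ← sub_eq_add_neg, ← sum_sub_distrib]
    refine sum_congr rfl fun i _ => ?_
    have h3 := mul_neg_geom_sum (zt l) i
    rw [pii]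
    linear_combination ((rep l y).coeff i : R l) * h3
  obtain ⟨w, hw⟩ := h1
  set c : ℤ := ∑ i ∈ range (2 ^ l), (rep l y).coeff i with hc
  rcases Int.even_or_odd c with hE | hO
  · obtain ⟨r, hr⟩ := hE
    obtain ⟨w2, hw2⟩ := two_dvd l
    refine ⟨w2 * (r : R l) + w, ?_⟩
    rw [hw, hr]
    push_cast
    linear_combination (r : R l) * hw2
  · exfalso
    have h3 : ‖φ (pii l * w)‖ < 1 := by
      rw [map_mul, norm_mul]
      have h4 := norm_R φ w
      have h5 := norm_pii_lt φ h2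
      nlinarith [norm_nonneg (φ (pii l)), norm_nonneg (φ w)]
    have h4 : ‖(c : C)‖ = 1 := norm_odd h2 hO
    have h5 : (c : C) = φ y - φ (pii l * w) := by
      conv_rhs => rw [hw]
      rw [map_add, map_intCast]; ring
    have h6 := norm_sub_le' (φ y) (φ (pii l * w))
    rw [← h5, h4] at h6
    have := max_lt h h3
    linarith

theorem dvd_pii_pow (h2 : ‖(2 : C)‖ = 1 / 2) (j : ℕ) (y : R l) (h : ‖φ y‖ ≤ ‖φ (pii l)‖ ^ j) :
    ∃ z, y = pii l ^ j * z := by
  induction j generalizing y with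
  | zero => exact ⟨y, by rw [pow_zero, one_mul]⟩
  | succ j ih =>
    have h3 := norm_pii_lt φ h2
    have h4 := norm_pii_pos φ h2
    have h5 : ‖φ y‖ < 1 := lt_of_le_of_lt h (pow_lt_one₀ h4.le h3 (by omega))
    obtain ⟨z, hz⟩ := dvd_pii φ h2 y h5
    have h6 : ‖φ z‖ ≤ ‖φ (pii l)‖ ^ j := by
      rw [hz, map_mul, norm_mul, pow_succ'] at h
      exact le_of_mul_le_mul_left h h4
    obtain ⟨w, hw⟩ := ih z h6
    exact ⟨w, by rw [hz, hw]; ring⟩

/-- An element of norm at most `1 / 2` is divisible by `2`. -/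
theorem dvd_two (h2 : ‖(2 : C)‖ = 1 / 2) (y : R l) (h : ‖φ y‖ ≤ 1 / 2) : ∃ z, y = 2 * z := by
  rw [← norm_pii_pow φ h2] at h
  obtain ⟨z, hz⟩ := dvd_pii_pow φ h2 _ y h
  obtain ⟨⟨v, hv⟩, -⟩ := pii_pow l
  exact ⟨v * z, by rw [hz, hv]; ring⟩

end ring

end Pool.Agent.N92.FJ
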