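import Mathlib
import Pool.Agent.N92.FJ.Two
import Pool.Agent.N92.FJ.Krn

/-!
Gauss sums in a field with a `2`-adic norm.
-/

set_option autoImplicit false

namespace Pool.Agent.N92.FJ

open Finset

variable {C : Type*} [NormedField C] [IsUltrametricDist C]

theorem char0 (h2 : ‖(2 : C)‖ = 1 / 2) : CharZero C := by
  apply charZero_of_inj_zero
  intro n hn
  by_contra h0
  obtain ⟨r, m, hm, hr⟩ := Nat.exists_eq_two_pow_mul_odd h0
  have h1 := congrArg norm hn
  rw [hr] at h1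
  push_cast at h1
  rw [norm_mul, norm_pow, h2, norm_zero] at h1
  have h3 : ‖((m : ℤ) : C)‖ = 1 := norm_odd h2 (by exact_mod_cast hm)
  rw [Int.cast_natCast] at h3
  rw [h3, mul_one] at h1
  have : (0 : ℝ) < (1 / 2) ^ r := by positivity
  linarith

theorem norm_pow_two_dvd (h2 : ‖(2 : C)‖ = 1 / 2) (r m : ℕ) (h : 2 ^ r ∣ m) :
    ‖(m : C)‖ ≤ (1 / 2) ^ r := by
  obtain ⟨c, rfl⟩ := h
  push_cast
  rw [norm_mul, norm_pow, h2]
  have := IsUltrametricDist.norm_natCast_le_one C c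
  have h3 : (0 : ℝ) < (1 / 2) ^ r := by positivity
  nlinarith

namespace Dat

variable {l x p N : ℕ} [Fact p.Prime]

/-- The characters with values in `C`. -/
noncomputable def cc (D : Dat l x p N) (φ : R l →+* C) (a : ZMod (2 ^ (l + 1))) :
    MulChar (ZMod p) C := (D.ch a).ringHomComp φ

/-- The Gauss sum with the opposite sign. -/
noncomputable def AA (D : Dat l x p N) (φ : R l →+* C) (ψ : AddChar (ZMod p) C)
    (a : ZMod (2 ^ (l + 1))) : C := -gaussSum (D.cc φ a) ψ

omit [IsUltrametricDist C] [Fact p.Prime] in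
theorem cc_mul (D : Dat l x p N) (φ : R l →+* C) (a b : ZMod (2 ^ (l + 1))) :
    D.cc φ a * D.cc φ b = D.cc φ (a + b) := by
  rw [cc, cc, cc, ← MulChar.ringHomComp_mul, ch_mul]

omit [IsUltrametricDist C] [Fact p.Prime] in
theorem cc_zero (D : Dat l x p N) (φ : R l →+* C) : D.cc φ 0 = 1 := by
  rw [cc, ch_zero, MulChar.ringHomComp_one]

omit [Fact p.Prime] in
theorem cc_ne (D : Dat l x p N) (h2 : ‖(2 : C)‖ = 1 / 2) (φ : R l →+* C)
    {a : ZMod (2 ^ (l + 1))} (ha : a ≠ 0) : D.cc φ a ≠ 1 := by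
  have := char0 h2
  exact (MulChar.ringHomComp_ne_one_iff (hom_inj φ)).mpr (D.ch_ne_one ha)

omit [IsUltrametricDist C] in
theorem AA_zero (D : Dat l x p N) (φ : R l →+* C) {ψ : AddChar (ZMod p) C} (hψ : ψ ≠ 1) :
    D.AA φ ψ 0 = 1 := by
  have h1 : gaussSum (1 : MulChar (ZMod p) C) ψ = ∑ t : ZMod p, ψ t - 1 := by
    rw [gaussSum, ← sum_erase_add _ _ (mem_univ (0 : ZMod p)), MulChar.map_zero, zero_mul,
      add_zero, ← sum_erase_add univ (fun t => ψ t) (mem_univ (0 : ZMod p)),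
      AddChar.map_zero_eq_one, add_sub_cancel_right]
    refine sum_congr rfl fun t ht => ?_
    rw [MulChar.one_apply (isUnit_iff_ne_zero.mpr (mem_erase.mp ht).1), one_mul]
  rw [AA, cc_zero, h1, AddChar.sum_eq_zero_of_ne_one hψ]
  ring

theorem AA_mul (D : Dat l x p N) (h2 : ‖(2 : C)‖ = 1 / 2) (φ : R l →+* C)
    (ψ : AddChar (ZMod p) C) {a b : ZMod (2 ^ (l + 1))} (hab : a + b ≠ 0) :
    D.AA φ ψ a * D.AA φ ψ b = -φ (D.JJ a b) * D.AA φ ψ (a + b) := by
  have h := jacobiSum_mul_nontrivial (χ := D.cc φ a) (φ := D.cc φ b)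
    (by rw [cc_mul]; exact D.cc_ne h2 φ hab) ψ
  rw [cc_mul] at h
  have h3 : jacobiSum (D.cc φ a) (D.cc φ b) = φ (D.JJ a b) := jacobiSum_ringHomComp _ _ _
  rw [h3] at h
  rw [AA, AA, AA]
  linear_combination -h

theorem AA_half (D : Dat l x p N) (h2 : ‖(2 : C)‖ = 1 / 2) (φ : R l →+* C)
    {ψ : AddChar (ZMod p) C} (hψ : ψ.IsPrimitive) {a : ZMod (2 ^ (l + 1))} (ha : a ≠ 0)
    (haa : a + a = 0) : D.AA φ ψ a ^ 2 = (p : C) := by
  have hc : CharZero C := char0 h2
  have h3 : (D.cc φ a).IsQuadratic := by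
    intro t
    by_cases ht : t = 0
    · left; rw [ht, MulChar.map_zero]
    · right
      have h4 : (D.cc φ a) t * (D.cc φ a) t = 1 := by
        rw [← MulChar.mul_apply, cc_mul, haa, cc_zero,
          MulChar.one_apply (isUnit_iff_ne_zero.mpr ht)]
      exact mul_self_eq_one_iff.mp h4
  rw [AA, neg_sq, gaussSum_sq (D.cc_ne h2 φ ha) h3 hψ, ZMod.card]
  have h4 : (D.cc φ a) (-1) = 1 := by
    rw [cc, MulChar.ringHomComp_apply, D.ch_apply a (neg_ne_zero.mpr one_ne_zero), ind_neg_one,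
      mul_zero, AddChar.map_zero_eq_one, map_one]
  rw [h4, one_mul]

/-- values of characters are `1` modulo the prime element -/
theorem cc_near (D : Dat l x p N) (h2 : ‖(2 : C)‖ = 1 / 2) (φ : R l →+* C)
    (a : ZMod (2 ^ (l + 1))) {t : ZMod p} (ht : t ≠ 0) : ‖D.cc φ a t - 1‖ ≤ ‖φ (pii l)‖ := by
  have h1 : D.cc φ a t - 1 = -(φ (pii l) * φ (∑ i ∈ range (a * D.ind t).val, zt l ^ i)) := by
    rw [cc, MulChar.ringHomComp_apply, D.ch_apply a ht, ← map_mul, pii, mul_neg_geom_sum,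
      EE_apply, map_sub, map_one]
    ring
  rw [h1, norm_neg, norm_mul]
  have h3 := norm_R φ (∑ i ∈ range (a * D.ind t).val, zt l ^ i)
  nlinarith [norm_nonneg (φ (pii l))]

omit [Fact p.Prime] in
theorem cc_le (D : Dat l x p N) (φ : R l →+* C)
    (a : ZMod (2 ^ (l + 1))) (t : ZMod p) : ‖D.cc φ a t‖ ≤ 1 := by
  rw [cc, MulChar.ringHomComp_apply]
  exact norm_R φ _

/-- If `2` has index `0`, the Jacobi sum `J (a, a)` is `-1` modulo `2 π`. -/
theorem JJ_near (D : Dat l x p N) (h2 : ‖(2 : C)‖ = 1 / 2) (φ : R l →+* C)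
    (hi : D.ind 2 = 0) (hp4 : 4 ∣ p - 1) {a : ZMod (2 ^ (l + 1))} (ha : a ≠ 0) :
    ‖-φ (D.JJ a a) - 1‖ < 1 / 2 := by
  have hc : CharZero C := char0 h2
  set χ := D.cc φ a with hχ
  have hp2 : (2 : ZMod p) ≠ 0 := by
    have : Fact (2 < p) := ⟨D.two_lt⟩
    intro h
    have h3 : ((2 : ℕ) : ZMod p) = 0 := by exact_mod_cast h
    rw [ZMod.natCast_eq_zero_iff] at h3
    have := Nat.le_of_dvd (by norm_num) h3
    have := D.two_lt
    omega
  let f : ZMod p → C := fun t => (χ t - 1) * (χ (1 - t) - 1)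
  have hsum : ∑ t : ZMod p, χ t = 0 := MulChar.sum_eq_zero_of_ne_one (D.cc_ne h2 φ ha)
  have hsum' : ∑ t : ZMod p, χ (1 - t) = 0 := by
    rw [← hsum]
    exact Equiv.sum_comp (Equiv.subLeft 1) (fun t => χ t)
  have h1 : φ (D.JJ a a) = -(p : C) + ∑ t, f t := by
    have h3 : φ (D.JJ a a) = ∑ t, χ t * χ (1 - t) := by
      have : jacobiSum (D.cc φ a) (D.cc φ a) = φ (D.JJ a a) := jacobiSum_ringHomComp _ _ _
      rw [← this]; rfl
    have h4 : ∑ t, f t = ∑ t, χ t * χ (1 - t) - ∑ t, χ t - ∑ t, χ (1 - t) + (p : C) := by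
      have h5 : ∀ t, f t = χ t * χ (1 - t) - χ t - χ (1 - t) + 1 := fun t => by
        simp only [f]; ring
      rw [sum_congr rfl fun t _ => h5 t, sum_add_distrib, sum_sub_distrib, sum_sub_distrib,
        sum_const, card_univ, ZMod.card, nsmul_eq_mul, mul_one]
    rw [h3, h4, hsum, hsum']; ring
  -- the symmetry
  have hsymm : ∀ t, f (1 - t) = f t := fun t => by
    simp only [f, sub_sub_cancel]; ring
  have hfix : ∀ t, t = 1 - t → f t = 0 := by
    intro t ht
    have h3 : 2 * t = 1 := by linear_combination ht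
    have h4 : t ≠ 0 := by rintro rfl; rw [mul_zero] at h3; exact zero_ne_one h3
    have h5 : D.ind t = 0 := by
      have h6 := D.ind_mul hp2 h4
      rw [h3, ind_one, hi, zero_add] at h6
      exact h6.symm
    simp only [f]
    rw [hχ, cc, MulChar.ringHomComp_apply, D.ch_apply a h4, h5, mul_zero,
      AddChar.map_zero_eq_one, map_one, sub_self, zero_mul]
  have h3 : ∑ t, f t = 2 * ∑ t ∈ univ.filter (fun t : ZMod p => t.val < (1 - t).val), f t := by
    have h4 : ∑ t, f t = ∑ t ∈ univ.filter (fun t : ZMod p => t.val < (1 - t).val), f t +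
        ∑ t ∈ univ.filter (fun t : ZMod p => ¬ t.val < (1 - t).val), f t :=
      (sum_filter_add_sum_filter_not univ _ _).symm
    have h5 : ∑ t ∈ univ.filter (fun t : ZMod p => ¬ t.val < (1 - t).val), f t =
        ∑ t ∈ univ.filter (fun t : ZMod p => (1 - t).val < t.val), f t := by
      symm
      apply sum_subset
      · intro t ht
        rw [mem_filter] at ht ⊢
        exact ⟨mem_univ _, by omega⟩
      · intro t ht1 ht2
        rw [mem_filter] at ht1 ht2
        apply hfix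
        apply ZMod.val_injective p
        have h6 := ht1.2
        have h7 : ¬ (1 - t).val < t.val := fun h => ht2 ⟨mem_univ _, h⟩
        omega
    have h6 : ∑ t ∈ univ.filter (fun t : ZMod p => (1 - t).val < t.val), f t =
        ∑ t ∈ univ.filter (fun t : ZMod p => t.val < (1 - t).val), f t := by
      refine sum_bij' (fun t _ => 1 - t) (fun t _ => 1 - t) ?_ ?_ ?_ ?_ ?_
      · intro t ht
        rw [mem_filter] at ht ⊢
        exact ⟨mem_univ _, by rw [sub_sub_cancel]; exact ht.2⟩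
      · intro t ht
        rw [mem_filter] at ht ⊢
        exact ⟨mem_univ _, by rw [sub_sub_cancel]; exact ht.2⟩
      · intro t _; exact sub_sub_cancel _ _
      · intro t _; exact sub_sub_cancel _ _
      · intro t _; exact (hsymm t).symm
    rw [h4, h5, h6]; ring
  have hpi := norm_pii_lt φ h2
  have hb : ∀ t, ‖f t‖ ≤ ‖φ (pii l)‖ := by
    intro t
    by_cases ht : t = 0
    · simp only [f]
      rw [ht, sub_zero, MulChar.map_one, sub_self, mul_zero, norm_zero]
      exact norm_nonneg _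
    · simp only [f]
      rw [norm_mul]
      have h4 := D.cc_near h2 φ a ht
      have h5 : ‖χ (1 - t) - 1‖ ≤ 1 :=
        (norm_sub_le' _ _).trans (max_le (D.cc_le φ a _) norm_one.le)
      calc ‖χ t - 1‖ * ‖χ (1 - t) - 1‖ ≤ ‖φ (pii l)‖ * 1 :=
            mul_le_mul h4 h5 (norm_nonneg _) (norm_nonneg _)
        _ = _ := mul_one _
  have h4 : ‖∑ t, f t‖ < 1 / 2 := by
    rw [h3, norm_two_le h2]
    have h5 := IsUltrametricDist.norm_sum_le_of_forall_le_of_nonneg (norm_nonneg (φ (pii l)))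
      (s := univ.filter (fun t : ZMod p => t.val < (1 - t).val)) (f := f) (fun t _ => hb t)
    linarith
  have h5 : ‖((p - 1 : ℕ) : C)‖ < 1 / 2 := by
    have := norm_pow_two_dvd h2 2 (p - 1) (by norm_num; exact hp4)
    refine lt_of_le_of_lt this (by norm_num)
  have h6 : -φ (D.JJ a a) - 1 = ((p - 1 : ℕ) : C) - ∑ t, f t := by
    rw [h1, Nat.cast_sub D.prime.one_lt.le, Nat.cast_one]; ring
  rw [h6]
  exact lt_of_le_of_lt (norm_sub_le' _ _) (max_lt h5 h4)

end Dat

end Pool.Agent.N92.FJ
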