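import Mathlib
import Pool.Agent.N92.FJ.Gau

/-!
Gaussian periods modulo two. If all Gauss sums are near roots of unity then these are the values of a
character of the group of exponents.
-/

set_option autoImplicit false

namespace Pool.Agent.N92.FJ

open Finset Polynomial

variable {C : Type*} [NormedField C] [IsUltrametricDist C]

theorem rep_sum (l : ℕ) (c : ℕ → ℤ) {i : ℕ} (hi : i < 2 ^ l) :
    (rep l (∑ j ∈ range (2 ^ l), (c j : R l) * zt l ^ j)).coeff i = c i := by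
  set f : ℤ[X] := ∑ j ∈ range (2 ^ l), Polynomial.C (c j) * X ^ j with hf
  have h1 : AdjoinRoot.mk (Phi l) f = ∑ j ∈ range (2 ^ l), (c j : R l) * zt l ^ j := by
    rw [hf, map_sum]
    refine sum_congr rfl fun j _ => ?_
    rw [map_mul, map_pow, AdjoinRoot.mk_X, AdjoinRoot.mk_C, eq_intCast (AdjoinRoot.of (Phi l))]
    rfl
  have h2 : f.degree < (Phi l).degree := by
    rw [degree_eq_natDegree (Phi_monic l).ne_zero, Phi_natDegree]
    apply (degree_sum_le _ _).trans_lt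
    rw [Finset.sup_lt_iff (by exact WithBot.bot_lt_coe _)]
    intro j hj
    refine (degree_C_mul_X_pow_le j (c j)).trans_lt ?_
    exact_mod_cast mem_range.mp hj
  rw [← h1, rep_mk, (modByMonic_eq_self_iff (Phi_monic l)).mpr h2, hf, finsetSum_coeff,
    sum_eq_single_of_mem i (mem_range.mpr hi)]
  · rw [coeff_C_mul, coeff_X_pow, if_pos rfl, mul_one]
  · intro j _ hj
    rw [coeff_C_mul, coeff_X_pow, if_neg (Ne.symm hj), mul_zero]

/-- splitting a sum over the residues modulo `2 ^ (l + 1)` -/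
theorem sum_split {M : Type*} [AddCommMonoid M] (l : ℕ) (F : ZMod (2 ^ (l + 1)) → M) :
    ∑ i : ZMod (2 ^ (l + 1)), F i =
      ∑ j ∈ range (2 ^ l), (F (j : ZMod (2 ^ (l + 1))) + F ((j + 2 ^ l : ℕ) : ZMod (2 ^ (l + 1)))) := by
  have h1 : ∑ i : ZMod (2 ^ (l + 1)), F i =
      ∑ j ∈ range (2 ^ (l + 1)), F (j : ZMod (2 ^ (l + 1))) := by
    symm
    refine sum_bij (fun j _ => (j : ZMod (2 ^ (l + 1)))) (fun _ _ => mem_univ _) ?_ ?_
      (fun _ _ => rfl)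
    · intro i hi j hj hij
      have h2 := congrArg ZMod.val hij
      rwa [ZMod.val_cast_of_lt (mem_range.mp hi), ZMod.val_cast_of_lt (mem_range.mp hj)] at h2
    · intro i _
      exact ⟨i.val, mem_range.mpr (ZMod.val_lt i), ZMod.natCast_zmod_val i⟩
  have h2 : range (2 ^ (l + 1)) = range (2 ^ l + 2 ^ l) := by congr 1; ring
  rw [h1, sum_add_distrib, h2, sum_range_add]
  congr 1
  exact sum_congr rfl fun j _ =>
    congrArg (fun i : ℕ => F (i : ZMod (2 ^ (l + 1)))) (Nat.add_comm _ _)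

theorem EE_half (l : ℕ) (a : ℕ) (ha : Odd a) (i : ZMod (2 ^ (l + 1))) :
    EE l ((a : ZMod (2 ^ (l + 1))) * (i + ((2 ^ l : ℕ) : ZMod (2 ^ (l + 1))))) =
      -EE l ((a : ZMod (2 ^ (l + 1))) * i) := by
  rw [mul_add, AddChar.map_add_eq_mul, ← Nat.cast_mul, EE_nat, mul_comm a, pow_mul, zt_pow,
    ha.neg_one_pow]
  ring

namespace Dat

variable {l x p N : ℕ} [Fact p.Prime]

/-- The Gaussian period. -/
noncomputable def per (D : Dat l x p N) (ψ : AddChar (ZMod p) C) (i : ZMod (2 ^ (l + 1))) : C := by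
  classical
  exact ∑ t ∈ univ.filter (fun t : ZMod p => t ≠ 0 ∧ D.ind t = i), ψ t

omit [IsUltrametricDist C] in
theorem AA_per (D : Dat l x p N) (φ : R l →+* C) (ψ : AddChar (ZMod p) C)
    (a : ZMod (2 ^ (l + 1))) :
    D.AA φ ψ a = -∑ i : ZMod (2 ^ (l + 1)), φ (EE l (a * i)) * D.per ψ i := by
  classical
  rw [AA]
  congr 1
  rw [gaussSum, ← sum_erase_add _ _ (mem_univ (0 : ZMod p)), MulChar.map_zero, zero_mul, add_zero]
  have h1 : ∑ t ∈ univ.erase (0 : ZMod p), D.cc φ a t * ψ t =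
      ∑ i : ZMod (2 ^ (l + 1)), ∑ t ∈ (univ.erase (0 : ZMod p)).filter (fun t => D.ind t = i),
        D.cc φ a t * ψ t := (sum_fiberwise _ _ _).symm
  rw [h1]
  refine sum_congr rfl fun i _ => ?_
  rw [per, mul_sum]
  refine sum_congr ?_ fun t ht => ?_
  · ext t
    simp only [mem_filter, mem_erase, mem_univ, and_true, true_and]
  · have h3 := (mem_filter.mp ht).2
    rw [cc, MulChar.ringHomComp_apply, D.ch_apply a h3.1, h3.2]

omit [IsUltrametricDist C] in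
theorem norm_psi (ψ : AddChar (ZMod p) C) (t : ZMod p) : ‖ψ t‖ = 1 := by
  have h1 : ψ t ^ p = 1 := by
    rw [← AddChar.map_nsmul_eq_pow, nsmul_eq_mul, ZMod.natCast_self, zero_mul,
      AddChar.map_zero_eq_one]
  have := congrArg norm h1
  rw [norm_pow, norm_one] at this
  exact (pow_eq_one_iff_of_nonneg (norm_nonneg _) (Fact.out : p.Prime).ne_zero).mp this

theorem per_le (D : Dat l x p N) (ψ : AddChar (ZMod p) C) (i : ZMod (2 ^ (l + 1))) :
    ‖D.per ψ i‖ ≤ 1 := by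
  rw [per]
  exact IsUltrametricDist.norm_sum_le_of_forall_le_of_nonneg zero_le_one
    fun t _ => (norm_psi ψ t).le

theorem two_ne (D : Dat l x p N) : (2 : ZMod p) ≠ 0 := by
  have : Fact (2 < p) := ⟨D.two_lt⟩
  intro h
  have h3 : ((2 : ℕ) : ZMod p) = 0 := by exact_mod_cast h
  rw [ZMod.natCast_eq_zero_iff] at h3
  have := Nat.le_of_dvd (by norm_num) h3
  have := D.two_lt
  omega

theorem per_idem (D : Dat l x p N) (h2 : ‖(2 : C)‖ = 1 / 2) (hi2 : D.ind 2 = 0)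
    (ψ : AddChar (ZMod p) C) (i : ZMod (2 ^ (l + 1))) :
    ∃ e : ℤ, (e = 0 ∨ e = 1) ∧ ‖D.per ψ i - e‖ ≤ 1 / 2 := by
  classical
  apply idem _ (D.per_le ψ i)
  obtain ⟨w, hw, h⟩ := sq_sum (univ.filter (fun t : ZMod p => t ≠ 0 ∧ D.ind t = i)) (fun t => ψ t)
    (fun t _ => (norm_psi ψ t).le)
  have h3 : ∑ t ∈ univ.filter (fun t : ZMod p => t ≠ 0 ∧ D.ind t = i), ψ t ^ 2 = D.per ψ i := by
    rw [per]
    refine sum_bij' (fun t _ => 2 * t) (fun t _ => 2⁻¹ * t) ?_ ?_ ?_ ?_ ?_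
    · intro t ht
      rw [mem_filter] at ht ⊢
      refine ⟨mem_univ _, mul_ne_zero D.two_ne ht.2.1, ?_⟩
      rw [D.ind_mul D.two_ne ht.2.1, hi2, zero_add, ht.2.2]
    · intro t ht
      rw [mem_filter] at ht ⊢
      have h4 : (2 : ZMod p)⁻¹ * t ≠ 0 := mul_ne_zero (inv_ne_zero D.two_ne) ht.2.1
      refine ⟨mem_univ _, h4, ?_⟩
      have h5 := D.ind_mul D.two_ne h4
      rw [mul_inv_cancel_left₀ D.two_ne, hi2, zero_add, ht.2.2] at h5
      exact h5.symm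
    · intro t _; exact inv_mul_cancel_left₀ D.two_ne t
    · intro t _; exact mul_inv_cancel_left₀ D.two_ne t
    · intro t _
      rw [sq, ← AddChar.map_add_eq_mul, two_mul]
  have h4 : D.per ψ i ^ 2 - D.per ψ i = 2 * w := by
    have h5 : D.per ψ i ^ 2 = (∑ t ∈ univ.filter (fun t : ZMod p => t ≠ 0 ∧ D.ind t = i), ψ t) ^ 2 := rfl
    rw [h5, h, h3]; ring
  rw [h4, norm_two_le h2]
  linarith

omit [IsUltrametricDist C] in
theorem per_sum (D : Dat l x p N) (φ : R l →+* C) {ψ : AddChar (ZMod p) C} (hψ : ψ ≠ 1) :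
    ∑ i : ZMod (2 ^ (l + 1)), D.per ψ i = -1 := by
  have h1 := D.AA_per φ ψ 0
  rw [D.AA_zero φ hψ] at h1
  have h2 : ∑ i : ZMod (2 ^ (l + 1)), φ (EE l (0 * i)) * D.per ψ i =
      ∑ i : ZMod (2 ^ (l + 1)), D.per ψ i := by
    refine sum_congr rfl fun i _ => ?_
    rw [zero_mul, AddChar.map_zero_eq_one, map_one, one_mul]
  rw [h2] at h1
  rw [h1, neg_neg]

/-- `ζ ^ i` is `1` modulo the prime element -/
theorem EE_near (h2 : ‖(2 : C)‖ = 1 / 2) (φ : R l →+* C) (i : ZMod (2 ^ (l + 1))) :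
    ‖φ (EE l i) - 1‖ < 1 := by
  have h1 : φ (EE l i) - 1 = -(φ (pii l) * φ (∑ j ∈ range i.val, zt l ^ j)) := by
    rw [← map_mul, pii, mul_neg_geom_sum, EE_apply, map_sub, map_one]
    ring
  rw [h1, norm_neg, norm_mul]
  have h3 := norm_R φ (∑ j ∈ range i.val, zt l ^ j)
  have h4 := norm_pii_lt φ h2
  have h5 := norm_nonneg (φ (pii l))
  calc ‖φ (pii l)‖ * ‖φ (∑ j ∈ range i.val, zt l ^ j)‖ ≤ ‖φ (pii l)‖ * 1 :=
        mul_le_mul_of_nonneg_left h3 h5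
    _ < 1 := by rw [mul_one]; exact h4

/-- **The roots of unity for odd exponents.** -/
theorem odd_roots (D : Dat l x p N) (h2 : ‖(2 : C)‖ = 1 / 2) (φ : R l →+* C)
    (hi2 : D.ind 2 = 0) {ψ : AddChar (ZMod p) C} (hψ : ψ ≠ 1)
    (f : ZMod (2 ^ (l + 1)) → C) (hf1 : ∀ a, f a ^ (2 ^ (l + 1)) = 1)
    (hf2 : ∀ a, ‖D.AA φ ψ a - f a‖ < 1 / 2) :
    ∃ c : ZMod (2 ^ (l + 1)), ∀ a : ℕ, Odd a →
      f (a : ZMod (2 ^ (l + 1))) = φ (EE l ((a : ZMod (2 ^ (l + 1))) * c)) := by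
  classical
  have hc : CharZero C := char0 h2
  choose e he1 he2 using D.per_idem h2 hi2 ψ
  have hl : 0 < 2 ^ l := by positivity
  have hn : 2 ^ (l + 1) = 2 * 2 ^ l := by ring
  have hprim : IsPrimitiveRoot (φ (zt l)) (2 ^ (l + 1)) := (zt_prim l).map_of_injective (hom_inj φ)
  obtain ⟨c, hcn, hcf⟩ := hprim.eq_pow_of_pow_eq_one (hf1 1)
  -- the sums of the approximations of the periods
  let S : ℕ → R l := fun a => ∑ i : ZMod (2 ^ (l + 1)), (e i : R l) * EE l ((a : ZMod (2 ^ (l + 1))) * i)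
  let d : ℕ → ℤ := fun j => e (j : ZMod (2 ^ (l + 1))) - e ((j + 2 ^ l : ℕ) : ZMod (2 ^ (l + 1)))
  have hS : ∀ a : ℕ, Odd a → S a = ∑ j ∈ range (2 ^ l), (d j : R l) *
      EE l ((a : ZMod (2 ^ (l + 1))) * (j : ZMod (2 ^ (l + 1)))) := by
    intro a ha
    simp only [S]
    rw [sum_split]
    refine sum_congr rfl fun j _ => ?_
    rw [Nat.cast_add, EE_half l a ha]
    simp only [d]
    push_cast
    ring
  have hAA : ∀ a : ℕ, D.AA φ ψ (a : ZMod (2 ^ (l + 1))) + φ (S a) =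
      -∑ i : ZMod (2 ^ (l + 1)), φ (EE l ((a : ZMod (2 ^ (l + 1))) * i)) * (D.per ψ i - (e i : C)) := by
    intro a
    rw [AA_per]
    simp only [S]
    rw [map_sum, ← sub_eq_neg_add, ← neg_sub, ← sum_sub_distrib]
    congr 1
    refine sum_congr rfl fun i _ => ?_
    rw [map_mul φ, map_intCast φ]; ring
  -- the differences `d`
  have hy : ‖φ (S 1 + zt l ^ c)‖ ≤ 1 / 2 := by
    have h3 : φ (S 1 + zt l ^ c) = -(D.AA φ ψ 1 - f 1) +
        (D.AA φ ψ (1 : ℕ) + φ (S 1)) := by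
      rw [map_add, map_pow, hcf, Nat.cast_one]; ring
    rw [h3]
    refine (norm_add_le' _ _).trans (max_le ?_ ?_)
    · rw [norm_neg]; exact (hf2 1).le
    · rw [hAA, norm_neg]
      apply IsUltrametricDist.norm_sum_le_of_forall_le_of_nonneg (by norm_num)
      intro i _
      rw [norm_mul, norm_EE, one_mul]
      exact he2 i
  obtain ⟨z, hz⟩ := dvd_two φ h2 _ hy
  obtain ⟨c0, hc0, s0, hs0, hcz⟩ : ∃ c0 < 2 ^ l, ∃ s0 : ℤ, (s0 = 1 ∨ s0 = -1) ∧
      zt l ^ c = (s0 : R l) * zt l ^ c0 := by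
    rcases lt_or_ge c (2 ^ l) with h3 | h3
    · exact ⟨c, h3, 1, Or.inl rfl, by rw [Int.cast_one, one_mul]⟩
    · refine ⟨c - 2 ^ l, by omega, -1, Or.inr rfl, ?_⟩
      have h4 : c = 2 ^ l + (c - 2 ^ l) := by omega
      conv_lhs => rw [h4, pow_add, zt_pow]
      push_cast
      rfl
  have hd : ∀ j < 2 ^ l, ∃ r : ℤ, d j + (if j = c0 then s0 else 0) = 2 * r := by
    intro j hj
    have h3 : S 1 + zt l ^ c = ∑ j ∈ range (2 ^ l),
        ((d j + (if j = c0 then s0 else 0) : ℤ) : R l) * zt l ^ j := by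
      rw [hS 1 odd_one, hcz]
      have h4 : (s0 : R l) * zt l ^ c0 = ∑ j ∈ range (2 ^ l),
          (((if j = c0 then s0 else 0) : ℤ) : R l) * zt l ^ j := by
        rw [sum_eq_single_of_mem c0 (mem_range.mpr hc0)]
        · rw [if_pos rfl]
        · intro j _ hj; rw [if_neg hj, Int.cast_zero, zero_mul]
      rw [h4, ← sum_add_distrib]
      refine sum_congr rfl fun j _ => ?_
      rw [Nat.cast_one, one_mul, EE_nat, Int.cast_add, add_mul]
    have h4 := congrArg (fun y => (rep l y).coeff j) (h3.symm.trans hz)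
    simp only [rep_sum l _ hj] at h4
    refine ⟨(rep l z).coeff j, ?_⟩
    rw [h4]
    have h5 : (2 : R l) * z = (2 : ℤ) • z := by rw [zsmul_eq_mul]; norm_num
    rw [h5, map_smul, coeff_smul, smul_eq_mul]
  have hd1 : ∀ j, d j = -1 ∨ d j = 0 ∨ d j = 1 := by
    intro j
    simp only [d]
    rcases he1 (j : ZMod (2 ^ (l + 1))) with h3 | h3 <;>
      rcases he1 ((j + 2 ^ l : ℕ) : ZMod (2 ^ (l + 1))) with h4 | h4 <;> rw [h3, h4] <;> norm_num
  have hd2 : ∀ j < 2 ^ l, j ≠ c0 → d j = 0 := by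
    intro j hj hjc
    obtain ⟨r, hr⟩ := hd j hj
    rw [if_neg hjc] at hr
    rcases hd1 j with h | h | h <;> omega
  have hd3 : d c0 = 1 ∨ d c0 = -1 := by
    obtain ⟨r, hr⟩ := hd c0 hc0
    rw [if_pos rfl] at hr
    rcases hd1 c0 with h | h | h <;> rcases hs0 with h3 | h3 <;> omega
  have hS2 : ∀ a : ℕ, Odd a → S a = (d c0 : R l) *
      EE l ((a : ZMod (2 ^ (l + 1))) * (c0 : ZMod (2 ^ (l + 1)))) := by
    intro a ha
    rw [hS a ha, sum_eq_single_of_mem c0 (mem_range.mpr hc0)]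
    intro j hj hjc
    rw [hd2 j (mem_range.mp hj) hjc, Int.cast_zero, zero_mul]
  -- the parity of the sum
  obtain ⟨s, hs⟩ : ∃ s : ℤ, 1 + ∑ i : ZMod (2 ^ (l + 1)), e i = 2 * s := by
    have h3 : ∑ i : ZMod (2 ^ (l + 1)), e i = d c0 + 2 * ∑ j ∈ range (2 ^ l),
        e ((j + 2 ^ l : ℕ) : ZMod (2 ^ (l + 1))) := by
      have h4 : ∑ j ∈ range (2 ^ l), d j = d c0 :=
        sum_eq_single_of_mem c0 (mem_range.mpr hc0) fun j hj hjc => hd2 j (mem_range.mp hj) hjc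
      rw [sum_split, ← h4, mul_sum, ← sum_add_distrib]
      refine sum_congr rfl fun j _ => ?_
      simp only [d]; ring
    rw [h3]
    rcases hd3 with h | h
    · exact ⟨1 + ∑ j ∈ range (2 ^ l), e ((j + 2 ^ l : ℕ) : ZMod (2 ^ (l + 1))), by rw [h]; ring⟩
    · exact ⟨∑ j ∈ range (2 ^ l), e ((j + 2 ^ l : ℕ) : ZMod (2 ^ (l + 1))), by rw [h]; ring⟩
  obtain ⟨e0, he0, r0, hr0⟩ : ∃ e0 : ℤ, (e0 = 1 ∨ e0 = -1) ∧ ∃ r0 : ℤ, 2 * s - d c0 = e0 + 4 * r0 := by
    have h3 : (2 * s - d c0) % 4 = 1 ∨ (2 * s - d c0) % 4 = 3 := by omega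
    rcases h3 with h | h
    · exact ⟨1, Or.inl rfl, (2 * s - d c0) / 4, by omega⟩
    · exact ⟨-1, Or.inr rfl, (2 * s - d c0) / 4 + 1, by omega⟩
  -- the approximation
  have hnear : ∀ a : ℕ, Odd a → ‖D.AA φ ψ (a : ZMod (2 ^ (l + 1))) -
      (e0 : C) * φ (EE l ((a : ZMod (2 ^ (l + 1))) * (c0 : ZMod (2 ^ (l + 1)))))‖ < 1 / 2 := by
    intro a ha
    set E := φ (EE l ((a : ZMod (2 ^ (l + 1))) * (c0 : ZMod (2 ^ (l + 1))))) with hE
    have h3 := hAA a
    rw [hS2 a ha, map_mul, map_intCast, ← hE] at h3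
    have h4 : ∑ i : ZMod (2 ^ (l + 1)), φ (EE l ((a : ZMod (2 ^ (l + 1))) * i)) *
        (D.per ψ i - (e i : C)) = ∑ i : ZMod (2 ^ (l + 1)),
          (φ (EE l ((a : ZMod (2 ^ (l + 1))) * i)) - 1) * (D.per ψ i - (e i : C)) - 2 * (s : C) := by
      have h5 : ∑ i : ZMod (2 ^ (l + 1)), (D.per ψ i - (e i : C)) = -(2 * (s : C)) := by
        rw [sum_sub_distrib, D.per_sum φ hψ, ← Int.cast_sum]
        have h6 : ((2 * s : ℤ) : C) = ((1 + ∑ i : ZMod (2 ^ (l + 1)), e i : ℤ) : C) := by rw [hs]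
        push_cast at h6 ⊢
        rw [h6]; ring
      rw [sub_eq_add_neg, ← h5, ← sum_add_distrib]
      refine sum_congr rfl fun i _ => ?_
      ring
    have h6 : D.AA φ ψ (a : ZMod (2 ^ (l + 1))) - (e0 : C) * E =
        4 * (r0 : C) * E + 2 * ((s : C) * (1 - E)) - ∑ i : ZMod (2 ^ (l + 1)),
          (φ (EE l ((a : ZMod (2 ^ (l + 1))) * i)) - 1) * (D.per ψ i - (e i : C)) := by
      have h7 : (2 : C) * (s : C) - (d c0 : C) = (e0 : C) + 4 * (r0 : C) := by exact_mod_cast congrArg (fun z : ℤ => (z : C)) hr0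
      rw [h4] at h3
      linear_combination h3 + E * h7
    rw [h6]
    have h7 : ‖4 * (r0 : C) * E‖ < 1 / 2 := by
      have h8 : (4 : C) = 2 * 2 := by norm_num
      rw [h8, mul_assoc, mul_assoc, norm_two_le h2, norm_two_le h2, norm_mul]
      have h9 := IsUltrametricDist.norm_intCast_le_one C r0
      have h10 : ‖E‖ = 1 := norm_EE φ _
      rw [h10, mul_one]
      linarith
    have h8 : ‖2 * ((s : C) * (1 - E))‖ < 1 / 2 := by
      rw [norm_two_le h2, norm_mul, norm_sub_rev]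
      have h9 := IsUltrametricDist.norm_intCast_le_one C s
      have h10 := EE_near h2 φ ((a : ZMod (2 ^ (l + 1))) * (c0 : ZMod (2 ^ (l + 1))))
      have h11 := norm_nonneg (E - 1)
      have h12 : ‖(s : C)‖ * ‖E - 1‖ ≤ 1 * ‖E - 1‖ := mul_le_mul_of_nonneg_right h9 h11
      linarith
    have h9 : ‖∑ i : ZMod (2 ^ (l + 1)), (φ (EE l ((a : ZMod (2 ^ (l + 1))) * i)) - 1) *
        (D.per ψ i - (e i : C))‖ < 1 / 2 := by
      obtain ⟨B, hB1, hB2, hB⟩ : ∃ B : ℝ, 0 ≤ B ∧ B < 1 ∧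
          ∀ i : ZMod (2 ^ (l + 1)), ‖φ (EE l ((a : ZMod (2 ^ (l + 1))) * i)) - 1‖ ≤ B := by
        obtain ⟨i0, -, hi0⟩ := exists_max_image (univ : Finset (ZMod (2 ^ (l + 1))))
          (fun i => ‖φ (EE l ((a : ZMod (2 ^ (l + 1))) * i)) - 1‖) ⟨0, mem_univ _⟩
        exact ⟨_, norm_nonneg _, EE_near h2 φ _, fun i => hi0 i (mem_univ _)⟩
      have h10 := IsUltrametricDist.norm_sum_le_of_forall_le_of_nonneg (C := B * (1 / 2))
        (by positivity) (s := (univ : Finset (ZMod (2 ^ (l + 1)))))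
        (f := fun i => (φ (EE l ((a : ZMod (2 ^ (l + 1))) * i)) - 1) * (D.per ψ i - (e i : C)))
        (fun i _ => by
          rw [norm_mul]
          exact mul_le_mul (hB i) (he2 i) (norm_nonneg _) hB1)
      linarith
    exact lt_of_le_of_lt (norm_sub_le' _ _) (max_lt (lt_of_le_of_lt (norm_add_le' _ _)
      (max_lt h7 h8)) h9)
  -- the conclusion
  obtain ⟨c1, hc1⟩ : ∃ c1 : ZMod (2 ^ (l + 1)), ∀ a : ℕ, Odd a →
      EE l ((a : ZMod (2 ^ (l + 1))) * c1) = (e0 : R l) *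
        EE l ((a : ZMod (2 ^ (l + 1))) * (c0 : ZMod (2 ^ (l + 1)))) := by
    rcases he0 with h | h
    · exact ⟨c0, fun a _ => by rw [h, Int.cast_one, one_mul]⟩
    · exact ⟨(c0 : ZMod (2 ^ (l + 1))) + ((2 ^ l : ℕ) : ZMod (2 ^ (l + 1))), fun a ha => by
        rw [EE_half l a ha, h]; push_cast; ring⟩
  refine ⟨c1, fun a ha => ?_⟩
  set E := φ (EE l ((a : ZMod (2 ^ (l + 1))) * c1)) with hE
  have h3 : ‖D.AA φ ψ (a : ZMod (2 ^ (l + 1))) - E‖ < 1 / 2 := by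
    have h4 := hnear a ha
    rwa [← map_intCast φ e0, ← map_mul, ← hc1 a ha] at h4
  have hE1 : ‖E‖ = 1 := norm_EE φ _
  have hE0 : E ≠ 0 := by intro h; rw [h, norm_zero] at hE1; exact zero_ne_one hE1
  have hEn : E ^ (2 ^ (l + 1)) = 1 := by
    rw [hE, ← map_pow, ← AddChar.map_nsmul_eq_pow, nsmul_eq_mul, ZMod.natCast_self, zero_mul,
      AddChar.map_zero_eq_one, map_one]
  have h4 : f (a : ZMod (2 ^ (l + 1))) / E = 1 := by
    apply eq_one_of_near h2 (2 ^ (l + 1)) (by positivity)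
    · rw [div_pow, hf1, hEn, div_one]
    · have h5 : f (a : ZMod (2 ^ (l + 1))) / E - 1 = (f (a : ZMod (2 ^ (l + 1))) - E) / E := by
        field_simp
      rw [h5, norm_div, hE1, div_one]
      have h6 : f (a : ZMod (2 ^ (l + 1))) - E = (D.AA φ ψ (a : ZMod (2 ^ (l + 1))) - E) -
          (D.AA φ ψ (a : ZMod (2 ^ (l + 1))) - f (a : ZMod (2 ^ (l + 1)))) := by ring
      rw [h6]
      exact lt_of_le_of_lt (norm_sub_le' _ _) (max_lt h3 (hf2 _))
  exact (div_eq_one_iff_eq hE0).mp h4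

end Dat

end Pool.Agent.N92.FJ
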