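import Mathlib
import Pool.Agent.N92.FJ.Per

/-!
The Gauss sums are near roots of unity, which are the values of a character; the quotients of the
Jacobi sums by the products are `1`.
-/

set_option autoImplicit false

namespace Pool.Agent.N92.FJ

open Finset

variable {C : Type*} [NormedField C] [IsUltrametricDist C]

/-- The number of factors of `PP x a a` is half of the number of units. -/
theorem card_VV {l : ℕ} {a : ZMod (2 ^ (l + 1))} (ha : a ≠ 0) (haa : a + a ≠ 0) :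
    2 * (VV a a).card = 2 ^ l := by
  classical
  have h1 : (VV a a).card + (VV a a)ᶜ.card = 2 ^ l := by
    rw [card_add_card_compl, card_units']
  have h2 : (VV a a)ᶜ.card = (VV a a).card := by
    refine card_bij' (fun u _ => -u) (fun u _ => -u) ?_ ?_ ?_ ?_
    · intro u hu
      rw [mem_compl, ← mem_VV_neg ha ha haa, mem_VV] at hu
      rw [mem_VV]
      simpa using hu
    · intro u hu
      rw [mem_compl, ← mem_VV_neg ha ha haa, mem_VV]
      rw [mem_VV] at hu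
      simpa using hu
    · intro u _; exact neg_neg u
    · intro u _; exact neg_neg u
  omega

theorem EE_one_add (l : ℕ) (a : ZMod (2 ^ (l + 1))) : ∃ w, EE l a = 1 + pii l * w := by
  refine ⟨-∑ i ∈ range a.val, zt l ^ i, ?_⟩
  rw [mul_neg, pii, mul_neg_geom_sum, EE_apply]; ring

theorem prod_cong {l : ℕ} (x : ℕ) (hx : 2 ∣ x) (S : Finset (ZMod (2 ^ (l + 1)))ˣ) :
    ∃ z : R l, ∏ u ∈ S, LL x u = 1 - (x : R l) * (S.card : R l) + (x : R l) * pii l * z := by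
  classical
  obtain ⟨x', hx'⟩ := hx
  obtain ⟨w2, hw2⟩ := two_dvd l
  have hxx : (x : R l) = pii l * w2 * (x' : R l) := by
    rw [← hw2]; exact_mod_cast congrArg (fun n : ℕ => (n : R l)) hx'
  induction S using Finset.induction_on with
  | empty => exact ⟨0, by rw [prod_empty, card_empty]; push_cast; ring⟩
  | insert u S hu ih =>
    obtain ⟨z, hz⟩ := ih
    obtain ⟨w, hw⟩ := EE_one_add l (-((u⁻¹ : (ZMod (2 ^ (l + 1)))ˣ) : ZMod (2 ^ (l + 1))))
    rw [prod_insert hu, hz, LL, card_insert_of_notMem hu, hw]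
    push_cast
    refine ⟨z - w - (x : R l) * (1 + pii l * w) * z +
      w2 * (x' : R l) * (1 + pii l * w) * (S.card : R l), ?_⟩
    linear_combination ((x : R l) * (S.card : R l) * (1 + pii l * w)) * hxx

theorem norm_PP (l x : ℕ) (φ : R l →+* C) (a b : ZMod (2 ^ (l + 1))) :
    ‖φ (PP x a b) - 1‖ ≤ ‖(x : C)‖ := by
  obtain ⟨z, hz⟩ := PP_cong x a b
  have h1 : φ (PP x a b) - 1 = (x : C) * φ z := by
    rw [hz, map_add, map_one, map_mul, map_natCast]; ring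
  rw [h1, norm_mul]
  have := norm_R φ z
  nlinarith [norm_nonneg (x : C)]

theorem norm_PP' (l x : ℕ) (hl : 2 ≤ l) (hx : 2 ∣ x) (φ : R l →+* C)
    {a : ZMod (2 ^ (l + 1))} (ha : a ≠ 0) (haa : a + a ≠ 0) :
    ‖φ (PP x a a) - 1‖ ≤ ‖(x : C)‖ * ‖φ (pii l)‖ := by
  obtain ⟨z, hz⟩ := prod_cong x hx (VV a a)
  obtain ⟨w2, hw2⟩ := two_dvd l
  have h3 : ∃ c : ℕ, (VV a a).card = 2 * c := by
    have h4 := card_VV ha haa
    obtain ⟨j, rfl⟩ : ∃ j, l = j + 2 := ⟨l - 2, by omega⟩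
    have h5 : 2 ^ (j + 2) = 2 * (2 * 2 ^ j) := by ring
    exact ⟨2 ^ j, by omega⟩
  obtain ⟨c, hc⟩ := h3
  have h1 : φ (PP x a a) - 1 = (x : C) * φ (pii l) * φ (z - w2 * (c : R l)) := by
    have h5 : PP x a a - 1 = (x : R l) * pii l * (z - w2 * (c : R l)) := by
      rw [PP, hz, hc]
      push_cast
      linear_combination (-(x : R l) * (c : R l)) * hw2
    have h6 := congrArg φ h5
    rw [map_sub, map_one, map_mul, map_mul, map_natCast] at h6
    exact h6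
  rw [h1, norm_mul, norm_mul]
  have := norm_R φ (z - w2 * (c : R l))
  have h4 : 0 ≤ ‖(x : C)‖ * ‖φ (pii l)‖ := by positivity
  nlinarith

omit [IsUltrametricDist C] in
theorem norm_root {f : C} {M : ℕ} (hM : 0 < M) (h : f ^ M = 1) : ‖f‖ = 1 := by
  have := congrArg norm h
  rw [norm_pow, norm_one] at this
  exact (pow_eq_one_iff_of_nonneg (norm_nonneg _) hM.ne').mp this

/-- two near roots of unity are equal -/
theorem root_unique (h2 : ‖(2 : C)‖ = 1 / 2) {f g : C} {M : ℕ} (hM : 0 < M) (hf : f ^ M = 1)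
    (hg : g ^ M = 1) (h : ‖f - g‖ < 1 / 2) : f = g := by
  have hg1 : ‖g‖ = 1 := norm_root hM hg
  have hg0 : g ≠ 0 := by intro h; rw [h, norm_zero] at hg1; exact zero_ne_one hg1
  have h4 : f / g = 1 := by
    apply eq_one_of_near h2 M hM
    · rw [div_pow, hf, hg, div_one]
    · have h5 : f / g - 1 = (f - g) / g := by field_simp
      rw [h5, norm_div, hg1, div_one]
      exact h
  exact (div_eq_one_iff_eq hg0).mp h4

namespace Dat

variable {l x p N : ℕ} [Fact p.Prime]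

/-- `η (a, a) = 1` -/
theorem eta_diag (D : Dat l x p N) (h2 : ‖(2 : C)‖ = 1 / 2) (φ : R l →+* C)
    (hx : ‖(x : C)‖ ≤ 1 / 4) (hi : D.ind 2 = 0) (hp4 : 4 ∣ p - 1) {a : ZMod (2 ^ (l + 1))}
    (ha : a ≠ 0) (haa : a + a ≠ 0) : D.eta (a, a) = 1 := by
  have hc : CharZero C := char0 h2
  obtain ⟨M, hM, hη⟩ := D.eta_root (a, a)
  apply hom_inj φ
  rw [map_one]
  apply eq_one_of_near h2 M hM
  · rw [← map_pow, hη, map_one]
  · have h1 := congrArg φ (D.eta_PP (v := (a, a)) ⟨ha, ha, haa⟩)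
    rw [map_mul, map_neg] at h1
    have h3 : φ (D.eta (a, a)) - 1 = (-φ (D.JJ a a) - 1) -
        φ (D.eta (a, a)) * (φ (PP x a a) - 1) := by
      linear_combination h1
    rw [h3]
    refine lt_of_le_of_lt (norm_sub_le' _ _) (max_lt (D.JJ_near h2 φ hi hp4 ha) ?_)
    rw [norm_mul]
    have h4 := norm_R φ (D.eta (a, a))
    have h5 := norm_PP l x φ a a
    have h6 : ‖φ (D.eta (a, a))‖ * ‖φ (PP x a a) - 1‖ ≤ 1 * (1 / 4) :=
      mul_le_mul h4 (h5.trans hx) (norm_nonneg _) zero_le_one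
    linarith

theorem AA_sq (D : Dat l x p N) (h2 : ‖(2 : C)‖ = 1 / 2) (φ : R l →+* C)
    (ψ : AddChar (ZMod p) C)
    (hx : ‖(x : C)‖ ≤ 1 / 4) (hi : D.ind 2 = 0) (hp4 : 4 ∣ p - 1) {a : ZMod (2 ^ (l + 1))}
    (ha : a ≠ 0) (haa : a + a ≠ 0) : D.AA φ ψ a ^ 2 = φ (PP x a a) * D.AA φ ψ (a + a) := by
  have h1 := congrArg φ (D.eta_PP (v := (a, a)) ⟨ha, ha, haa⟩)
  rw [D.eta_diag h2 φ hx hi hp4 ha haa, one_mul, map_neg] at h1
  rw [sq, D.AA_mul h2 φ ψ haa, h1]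

omit [IsUltrametricDist C] [Fact p.Prime] in
theorem norm_p (D : Dat l x p N) : ‖(p : C) - 1‖ = ‖(x : C)‖ ^ (2 ^ l) := by
  have h4 : (p : C) = (x : C) ^ (2 ^ l) + 1 := by
    conv_lhs => rw [D.hp]
    push_cast
    rfl
  rw [h4, add_sub_cancel_right, norm_pow]

/-- The condition on the level below (in the form which is needed). -/
def Near (D : Dat l x p N) (φ : R l →+* C) (ψ : AddChar (ZMod p) C) (d : ℝ) : Prop :=
  ∀ a : ZMod (2 ^ (l + 1)), ∃ f : C, f ^ (2 ^ (l + 1)) = 1 ∧ ‖D.AA φ ψ a - f‖ ≤ d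

theorem near_half (D : Dat l x p N) (h2 : ‖(2 : C)‖ = 1 / 2) (φ : R l →+* C)
    {ψ : AddChar (ZMod p) C} (hψ : ψ.IsPrimitive) {d : ℝ} (hd : ‖(p : C) - 1‖ ≤ d)
    {a : ZMod (2 ^ (l + 1))} (haa : a + a = 0) :
    ∃ f : C, f ^ (2 ^ (l + 1)) = 1 ∧ ‖D.AA φ ψ a - f‖ ≤ 2 * d := by
  have hd0 : 0 ≤ d := (norm_nonneg _).trans hd
  by_cases ha : a = 0
  · have hψ1 : ψ ≠ 1 := by
      have := hψ one_ne_zero
      rwa [AddChar.mulShift_one] at this
    refine ⟨1, one_pow _, ?_⟩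
    rw [ha, D.AA_zero φ hψ1, sub_self, norm_zero]
    linarith
  · have h1 := D.AA_half h2 φ hψ ha haa
    have h3 : ‖D.AA φ ψ a ^ 2 - 1 ^ 2‖ ≤ d := by rw [h1, one_pow]; exact hd
    obtain ⟨s, hs, -, h⟩ := sqrt_near h2 norm_one h3
    refine ⟨s, ?_, h⟩
    rw [pow_succ', pow_mul, hs]; norm_num

/-- compatibility of the indices -/
theorem ind_compat {x' N' : ℕ} (D : Dat l x p N) (D' : Dat (l + 1) x' p N') (hx : x = x' ^ 2)
    {t : ZMod p} (ht : t ≠ 0) :
    ∃ r : ℤ, ((D'.ind t).val : ℤ) = (D.ind t).val + 2 ^ (l + 1) * r := by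
  have hN : N = N' * 2 := by
    have h1 := D.p_sub
    have h3 := D'.p_sub
    rw [h1] at h3
    have h4 : 2 ^ (l + 1 + 1) * N' = 2 ^ (l + 1) * (N' * 2) := by ring
    rw [h4] at h3
    exact Nat.eq_of_mul_eq_mul_left (by positivity) h3
  have h1 : (x' : ZMod p) ^ (2 * (D'.ind t).val) = (x' : ZMod p) ^ (2 * (D.ind t).val) := by
    have h3 := D.ind_spec ht
    have h4 := D'.ind_spec ht
    rw [ee_apply] at h3 h4
    have hx2 : (x : ZMod p) = (x' : ZMod p) ^ 2 := by rw [hx]; push_cast; rfl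
    rw [hx2, ← pow_mul] at h3
    rw [h3, mul_comm, pow_mul, h4, ← pow_mul]
    exact congrArg (fun n => t ^ n) hN.symm
  rw [← D'.ee_nat, ← D'.ee_nat] at h1
  have h3 := (ZMod.natCast_eq_natCast_iff _ _ _).mp (D'.ee_inj h1)
  have h4 := (Nat.modEq_iff_dvd).mp h3
  obtain ⟨r, hr⟩ := h4
  refine ⟨-r, ?_⟩
  push_cast at hr
  have h5 : (2 : ℤ) ^ (l + 1 + 1) = 2 * 2 ^ (l + 1) := by ring
  rw [h5] at hr
  linarith

omit [IsUltrametricDist C] in
theorem AA_compat {x' N' : ℕ} (D : Dat l x p N) (D' : Dat (l + 1) x' p N') (hx : x = x' ^ 2)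
    {φ : R l →+* C} {φ' : R (l + 1) →+* C} (hφ : φ (zt l) = φ' (zt (l + 1)) ^ 2)
    (ψ : AddChar (ZMod p) C) (a : ℕ) :
    D'.AA φ' ψ ((2 * a : ℕ) : ZMod (2 ^ (l + 1 + 1))) = D.AA φ ψ (a : ZMod (2 ^ (l + 1))) := by
  rw [AA, AA]
  congr 2
  apply MulChar.ext
  intro t
  have ht : (t : ZMod p) ≠ 0 := t.ne_zero
  rw [cc, cc, MulChar.ringHomComp_apply, MulChar.ringHomComp_apply, D.ch_apply _ ht,
    D'.ch_apply _ ht]
  have h1 : ((2 * a : ℕ) : ZMod (2 ^ (l + 1 + 1))) * D'.ind t =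
      ((2 * a * (D'.ind (t : ZMod p)).val : ℕ) : ZMod (2 ^ (l + 1 + 1))) := by
    push_cast
    rw [ZMod.natCast_zmod_val]
  have h3 : (a : ZMod (2 ^ (l + 1))) * D.ind t =
      ((a * (D.ind (t : ZMod p)).val : ℕ) : ZMod (2 ^ (l + 1))) := by
    push_cast
    rw [ZMod.natCast_zmod_val]
  rw [h1, h3, EE_nat, EE_nat, map_pow, map_pow, hφ, ← pow_mul]
  obtain ⟨r, hr⟩ := D.ind_compat D' hx ht
  have h4 : ((2 * a * (D'.ind (t : ZMod p)).val : ℕ) : ZMod (2 ^ (l + 1 + 1))) =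
      ((2 * (a * (D.ind (t : ZMod p)).val) : ℕ) : ZMod (2 ^ (l + 1 + 1))) := by
    have h5 : (((2 * a * (D'.ind (t : ZMod p)).val : ℕ) : ℤ) : ZMod (2 ^ (l + 1 + 1))) =
      (((2 * (a * (D.ind (t : ZMod p)).val) : ℕ) : ℤ) : ZMod (2 ^ (l + 1 + 1))) := by
      rw [ZMod.intCast_eq_intCast_iff_dvd_sub]
      refine ⟨-(a * r), ?_⟩
      push_cast
      rw [hr]; ring
    exact_mod_cast h5
  have h5 := congrArg (EE (l + 1)) h4
  rw [EE_nat, EE_nat] at h5
  have h6 := congrArg φ' h5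
  rwa [map_pow, map_pow] at h6

/-- The recursion. -/
theorem near_step [IsAlgClosed C] {x' N' : ℕ} (D : Dat l x p N) (D' : Dat (l + 1) x' p N')
    (hxx : x = x' ^ 2)
    {φ : R l →+* C} {φ' : R (l + 1) →+* C} (hφ : φ (zt l) = φ' (zt (l + 1)) ^ 2)
    {ψ : AddChar (ZMod p) C} (hψ : ψ.IsPrimitive) (h2 : ‖(2 : C)‖ = 1 / 2)
    (hx : ‖(x' : C)‖ ≤ 1 / 4) (hi : D'.ind 2 = 0) (hp4 : 4 ∣ p - 1) {d e : ℝ} (hd : d ≤ e)
    (he : e ≤ 1)
    (hP : ∀ a : ZMod (2 ^ (l + 1 + 1)), a ≠ 0 → a + a ≠ 0 → ‖φ' (PP x' a a) - 1‖ ≤ e)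
    (hpe : ‖(p : C) - 1‖ ≤ e)
    (h : D.Near φ ψ d) : D'.Near φ' ψ (2 * e) := by
  intro a
  by_cases haa : a + a = 0
  · exact D'.near_half h2 φ' hψ hpe haa
  · have ha : a ≠ 0 := by rintro rfl; exact haa (add_zero 0)
    obtain ⟨f, hf1, hf2⟩ := h ((a.val : ℕ) : ZMod (2 ^ (l + 1)))
    have h1 := D'.AA_sq h2 φ' ψ hx hi hp4 ha haa
    have h3 : a + a = ((2 * a.val : ℕ) : ZMod (2 ^ (l + 1 + 1))) := by
      push_cast
      rw [ZMod.natCast_zmod_val]; ring
    rw [h3, D.AA_compat D' hxx hφ] at h1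
    set A := D.AA φ ψ ((a.val : ℕ) : ZMod (2 ^ (l + 1))) with hA
    have hfn : ‖f‖ = 1 := norm_root (by positivity) hf1
    have hAn : ‖A‖ ≤ 1 := by
      have : A = (A - f) + f := by ring
      rw [this]
      exact (norm_add_le' _ _).trans (max_le (by linarith) hfn.le)
    obtain ⟨r, hr⟩ := IsAlgClosed.exists_pow_nat_eq f (n := 2) (by norm_num)
    have hrn : ‖r‖ = 1 := by
      have := congrArg norm hr
      rw [norm_pow, hfn] at this
      exact (pow_eq_one_iff_of_nonneg (norm_nonneg _) (by norm_num)).mp this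
    have h4 : ‖D'.AA φ' ψ a ^ 2 - r ^ 2‖ ≤ e := by
      have h5 : D'.AA φ' ψ a ^ 2 - r ^ 2 = (φ' (PP x' a a) - 1) * A + (A - f) := by
        rw [h1, hr]; ring
      rw [h5]
      refine (norm_add_le' _ _).trans (max_le ?_ (hf2.trans hd))
      rw [norm_mul]
      calc ‖φ' (PP x' a a) - 1‖ * ‖A‖ ≤ e * 1 :=
            mul_le_mul (hP a ha haa) hAn (norm_nonneg _) ((norm_nonneg _).trans (hP a ha haa))
        _ = e := mul_one e
    obtain ⟨s, hs, -, hs2⟩ := sqrt_near h2 hrn h4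
    refine ⟨s, ?_, hs2⟩
    rw [pow_succ' 2 (l + 1), pow_mul, hs, hr, hf1]

/-- The conclusion from the approximations. -/
theorem full_of_near (D : Dat l x p N) (h2 : ‖(2 : C)‖ = 1 / 2) (φ : R l →+* C)
    (hx : ‖(x : C)‖ ≤ 1 / 4) (hi : D.ind 2 = 0) (hp4 : 4 ∣ p - 1)
    {ψ : AddChar (ZMod p) C} (hψ : ψ.IsPrimitive)
    (h : ∀ a : ZMod (2 ^ (l + 1)), ∃ f : C, f ^ (2 ^ (l + 1)) = 1 ∧ ‖D.AA φ ψ a - f‖ < 1 / 2) :
    D.Full := by
  have hc : CharZero C := char0 h2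
  have hψ1 : ψ ≠ 1 := by
    have := hψ one_ne_zero
    rwa [AddChar.mulShift_one] at this
  choose f hf1 hf2 using h
  have hn : 0 < 2 ^ (l + 1) := by positivity
  have hfn : ∀ a, ‖f a‖ = 1 := fun a => norm_root hn (hf1 a)
  have hAn : ∀ a, ‖D.AA φ ψ a‖ ≤ 1 := by
    intro a
    have : D.AA φ ψ a = (D.AA φ ψ a - f a) + f a := by ring
    rw [this]
    exact (norm_add_le' _ _).trans (max_le (by linarith [hf2 a]) (hfn a).le)
  have hf0 : f 0 = 1 := by
    apply root_unique h2 hn (hf1 0) (one_pow _)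
    have := hf2 0
    rwa [D.AA_zero φ hψ1, norm_sub_rev] at this
  -- products of two values
  have hprod : ∀ a b, ‖D.AA φ ψ a * D.AA φ ψ b - f a * f b‖ < 1 / 2 := by
    intro a b
    have h3 : D.AA φ ψ a * D.AA φ ψ b - f a * f b =
        (D.AA φ ψ a - f a) * D.AA φ ψ b + f a * (D.AA φ ψ b - f b) := by ring
    rw [h3]
    refine lt_of_le_of_lt (norm_add_le' _ _) (max_lt ?_ ?_)
    · rw [norm_mul]
      have h4 : ‖D.AA φ ψ a - f a‖ * ‖D.AA φ ψ b‖ ≤ ‖D.AA φ ψ a - f a‖ * 1 :=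
        mul_le_mul_of_nonneg_left (hAn b) (norm_nonneg _)
      linarith [hf2 a]
    · rw [norm_mul, hfn, one_mul]
      exact hf2 b
  have hp1 : ‖(p : C) - 1‖ < 1 / 2 := by
    have := norm_pow_two_dvd h2 2 (p - 1) (by norm_num; exact hp4)
    rw [Nat.cast_sub D.prime.one_lt.le, Nat.cast_one] at this
    refine lt_of_le_of_lt this (by norm_num)
  -- the values at the doubles
  have hdbl : ∀ a, f (a + a) = f a ^ 2 := by
    intro a
    by_cases haa : a + a = 0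
    · rw [haa, hf0]
      by_cases ha : a = 0
      · rw [ha, hf0, one_pow]
      · symm
        apply root_unique h2 hn _ (one_pow _)
        · have h3 := hprod a a
          have h4 := D.AA_half h2 φ hψ ha haa
          have h5 : f a ^ 2 - 1 = ((p : C) - 1) - (D.AA φ ψ a * D.AA φ ψ a - f a * f a) := by
            rw [← h4]; ring
          rw [h5]
          exact lt_of_le_of_lt (norm_sub_le' _ _) (max_lt hp1 h3)
        · rw [← pow_mul, mul_comm, pow_mul, hf1, one_pow]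
    · have ha : a ≠ 0 := by rintro rfl; exact haa (add_zero 0)
      symm
      apply root_unique h2 hn _ (hf1 _)
      · have h3 := hprod a a
        have h4 := D.AA_sq h2 φ ψ hx hi hp4 ha haa
        have h5 : f a ^ 2 - f (a + a) = (D.AA φ ψ (a + a) - f (a + a)) +
            (φ (PP x a a) - 1) * D.AA φ ψ (a + a) -
              (D.AA φ ψ a * D.AA φ ψ a - f a * f a) := by
          linear_combination h4
        rw [h5]
        refine lt_of_le_of_lt (norm_sub_le' _ _) (max_lt (lt_of_le_of_lt (norm_add_le' _ _)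
          (max_lt (hf2 _) ?_)) h3)
        rw [norm_mul]
        have h6 := norm_PP l x φ a a
        have h7 : ‖φ (PP x a a) - 1‖ * ‖D.AA φ ψ (a + a)‖ ≤ (1 / 4) * 1 :=
          mul_le_mul (h6.trans hx) (hAn _) (norm_nonneg _) (by norm_num)
        linarith
      · rw [← pow_mul, mul_comm, pow_mul, hf1, one_pow]
  obtain ⟨c, hodd⟩ := D.odd_roots h2 φ hi hψ1 f hf1 hf2
  have hall : ∀ a : ℕ, f (a : ZMod (2 ^ (l + 1))) = φ (EE l ((a : ZMod (2 ^ (l + 1))) * c)) := by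
    intro a
    induction a using Nat.strong_induction_on with
    | _ a ih =>
      rcases Nat.even_or_odd a with ha | ha
      · obtain ⟨b, hb⟩ := ha
        rcases Nat.eq_zero_or_pos a with h0 | h0
        · rw [h0, Nat.cast_zero, hf0, zero_mul, AddChar.map_zero_eq_one, map_one]
        · rw [hb, Nat.cast_add, hdbl, ih b (by omega), add_mul, AddChar.map_add_eq_mul,
            map_mul φ, sq]
      · exact hodd a ha
  have hmul : ∀ a b, f a * f b = f (a + b) := by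
    intro a b
    have h3 := hall a.val
    have h4 := hall b.val
    have h5 := hall (a.val + b.val)
    rw [Nat.cast_add] at h5
    rw [ZMod.natCast_zmod_val] at h3 h4
    rw [ZMod.natCast_zmod_val, ZMod.natCast_zmod_val] at h5
    rw [h3, h4, h5, add_mul, AddChar.map_add_eq_mul, map_mul φ]
  apply D.full_of_eta
  intro v hv
  obtain ⟨M, hM, hη⟩ := D.eta_root v
  apply hom_inj φ
  rw [map_one]
  apply eq_one_of_near h2 M hM
  · rw [← map_pow, hη, map_one]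
  · have h1 := congrArg φ (D.eta_PP hv)
    rw [map_mul, map_neg] at h1
    have h3 := D.AA_mul h2 φ ψ (a := v.1) (b := v.2) hv.2.2
    rw [← h1] at h3
    have h4 : (φ (D.eta v) - 1) * f (v.1 + v.2) =
        (D.AA φ ψ v.1 * D.AA φ ψ v.2 - f v.1 * f v.2) -
        φ (D.eta v) * ((φ (PP x v.1 v.2) - 1) * D.AA φ ψ (v.1 + v.2) +
          (D.AA φ ψ (v.1 + v.2) - f (v.1 + v.2))) := by
      rw [h3, hmul]; ring
    have h5 : ‖φ (D.eta v) - 1‖ = ‖(φ (D.eta v) - 1) * f (v.1 + v.2)‖ := by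
      rw [norm_mul, hfn, mul_one]
    rw [h5, h4]
    refine lt_of_le_of_lt (norm_sub_le' _ _) (max_lt (hprod _ _) ?_)
    rw [norm_mul]
    have h6 := norm_R φ (D.eta v)
    have h7 : ‖(φ (PP x v.1 v.2) - 1) * D.AA φ ψ (v.1 + v.2) +
          (D.AA φ ψ (v.1 + v.2) - f (v.1 + v.2))‖ < 1 / 2 := by
      refine lt_of_le_of_lt (norm_add_le' _ _) (max_lt ?_ (hf2 _))
      rw [norm_mul]
      have h8 := norm_PP l x φ v.1 v.2
      have h9 : ‖φ (PP x v.1 v.2) - 1‖ * ‖D.AA φ ψ (v.1 + v.2)‖ ≤ (1 / 4) * 1 :=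
        mul_le_mul (h8.trans hx) (hAn _) (norm_nonneg _) (by norm_num)
      linarith
    have h10 := mul_le_mul_of_nonneg_right h6 (norm_nonneg
      ((φ (PP x v.1 v.2) - 1) * D.AA φ ψ (v.1 + v.2) + (D.AA φ ψ (v.1 + v.2) - f (v.1 + v.2))))
    linarith

end Dat

end Pool.Agent.N92.FJ
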