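import Mathlib
import Pool.Agent.N92.FJ.Fer

/-!
Fermat primes: the Jacobi sums of order dividing `2 ^ k` for all `k ≤ m`.
-/

set_option autoImplicit false

namespace Pool.Agent.N92.FJ

open Finset

theorem norm_two_alg : ‖(2 : PadicAlgCl 2)‖ = 1 / 2 := by
  have h := PadicAlgCl.norm_extends 2 (2 : ℚ_[2])
  have h1 : ((2 : ℚ_[2]) : PadicAlgCl 2) = 2 := map_ofNat (algebraMap ℚ_[2] (PadicAlgCl 2)) 2
  rw [h1] at h
  rw [h]
  have h3 := Padic.norm_p (p := 2)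
  push_cast at h3
  rw [h3]; norm_num

theorem ex_psi (p : ℕ) [Fact p.Prime] : ∃ ψ : AddChar (ZMod p) (PadicAlgCl 2), ψ.IsPrimitive := by
  obtain ⟨z, hz⟩ := HasEnoughRootsOfUnity.exists_primitiveRoot (PadicAlgCl 2) p
  exact ⟨_, AddChar.zmodChar_primitive_of_primitive_root p hz⟩

/-- The number `x` for the Fermat prime. -/
def xF (m l : ℕ) : ℕ := 2 ^ (2 ^ (m - l))

/-- The number `N` for the Fermat prime. -/
def nF (m l : ℕ) : ℕ := 2 ^ (2 ^ m - (l + 1))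

theorem two_mul_lt (m : ℕ) (hm : 3 ≤ m) : 2 * m + 1 ≤ 2 ^ m := by
  induction m, hm using Nat.le_induction with
  | base => norm_num
  | succ m hm ih => rw [pow_succ]; omega

theorem xF_pow {m l : ℕ} (hl : l ≤ m) : xF m l ^ (2 ^ l) = 2 ^ (2 ^ m) := by
  rw [xF, ← pow_mul, ← pow_add, Nat.sub_add_cancel hl]

theorem xF_sq {m l : ℕ} (hl : l < m) : xF m l = xF m (l + 1) ^ 2 := by
  rw [xF, xF, ← pow_mul, ← pow_succ]
  congr 2
  omega

theorem datF {m : ℕ} (hm : 3 ≤ m) (hp : (2 ^ (2 ^ m) + 1).Prime) {l : ℕ} (hl : l < m) :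
    Dat l (xF m l) (2 ^ (2 ^ m) + 1) (nF m l) := by
  have h1 := two_mul_lt m hm
  refine ⟨hp, by rw [xF_pow hl.le], ?_, ?_⟩
  · rw [xF_pow hl.le, nF, ← pow_add]
    congr 1; omega
  · rw [nF]
    exact (even_two).pow_of_ne_zero (by omega)

theorem ind_two {m : ℕ} (hm : 3 ≤ m) (hp : (2 ^ (2 ^ m) + 1).Prime) {l : ℕ} (hl : l < m) :
    (datF hm hp hl).ind 2 = 0 := by
  have : Fact (2 ^ (2 ^ m) + 1).Prime := ⟨hp⟩
  have h1 := two_mul_lt m hm
  have D := datF hm hp hl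
  apply D.ee_inj
  rw [AddChar.map_zero_eq_one, D.ind_spec D.two_ne]
  have h2 : (2 : ZMod (2 ^ (2 ^ m) + 1)) ^ (2 ^ m) = -1 := by
    have h : ((2 ^ (2 ^ m) + 1 : ℕ) : ZMod (2 ^ (2 ^ m) + 1)) = 0 := ZMod.natCast_self _
    push_cast at h
    exact eq_neg_of_add_eq_zero_left h
  have h3 : nF m l = 2 ^ m * (2 * 2 ^ (2 ^ m - (l + 1) - (m + 1))) := by
    rw [nF, ← pow_succ', ← pow_add]
    congr 1; omega
  rw [h3, pow_mul, h2, pow_mul]
  norm_num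

section

variable {C : Type*} [NormedField C] [IsUltrametricDist C]

/-- The homomorphisms. -/
noncomputable def hom {m : ℕ} {z : C} (hz : z ^ (2 ^ (m - 1)) = -1) {l : ℕ} (hl : l < m) :
    R l →+* C :=
  AdjoinRoot.lift (Int.castRingHom _) (z ^ (2 ^ (m - 1 - l))) (eval_phi l _ (by
    rw [← pow_mul, ← pow_add, Nat.sub_add_cancel (by omega), hz]))

omit [IsUltrametricDist C] in
theorem hom_zt {m : ℕ} {z : C} (hz : z ^ (2 ^ (m - 1)) = -1) {l : ℕ} (hl : l < m) :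
    hom hz hl (zt l) = z ^ (2 ^ (m - 1 - l)) := AdjoinRoot.lift_root _

omit [IsUltrametricDist C] in
theorem hom_sq {m : ℕ} {z : C} (hz : z ^ (2 ^ (m - 1)) = -1) {l : ℕ} (hl : l + 1 < m)
    (hl' : l < m) : hom hz hl' (zt l) = hom hz hl (zt (l + 1)) ^ 2 := by
  rw [hom_zt, hom_zt, ← pow_mul, ← pow_succ]
  congr 2
  omega

omit [IsUltrametricDist C] in
theorem norm_xF (h2 : ‖(2 : C)‖ = 1 / 2) (m l : ℕ) :
    ‖(xF m l : C)‖ = (1 / 2) ^ (2 ^ (m - l)) := by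
  rw [xF]; push_cast
  rw [norm_pow, h2]

omit [IsUltrametricDist C] in
theorem norm_xF_le (h2 : ‖(2 : C)‖ = 1 / 2) {m l j : ℕ} (hj : j ≤ 2 ^ (m - l)) :
    ‖(xF m l : C)‖ ≤ (1 / 2) ^ j := by
  rw [norm_xF h2]
  exact pow_le_pow_of_le_one (by norm_num) (by norm_num) hj

theorem nearF [IsAlgClosed C] (h2 : ‖(2 : C)‖ = 1 / 2) {m : ℕ} (hm : 3 ≤ m)
    (hp : (2 ^ (2 ^ m) + 1).Prime) [Fact (2 ^ (2 ^ m) + 1).Prime]
    {ψ : AddChar (ZMod (2 ^ (2 ^ m) + 1)) C} (hψ : ψ.IsPrimitive)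
    {z : C} (hz : z ^ (2 ^ (m - 1)) = -1) (l : ℕ) (hl : l + 1 < m) :
    (datF hm hp (Nat.lt_of_succ_lt hl)).Near (hom hz (Nat.lt_of_succ_lt hl)) ψ
      (2 * ‖(xF m l : C)‖) := by
  induction l with
  | zero =>
    intro a
    apply Dat.near_half _ h2 _ hψ
    · rw [(datF hm hp (Nat.lt_of_succ_lt hl)).norm_p, pow_zero, pow_one]
    · revert a; decide
  | succ l ih =>
    have hx : ‖(xF m (l + 1) : C)‖ ≤ (1 / 2) ^ 2 := norm_xF_le h2 (by
      calc 2 = 2 ^ 1 := rfl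
        _ ≤ _ := Nat.pow_le_pow_right (by norm_num) (by omega))
    have hx0 := norm_nonneg (xF m (l + 1) : C)
    refine Dat.near_step (datF hm hp (by omega)) (datF hm hp (by omega)) (xF_sq (by omega))
      (hom_sq hz (by omega) (by omega)) hψ h2 (hx.trans (by norm_num)) (ind_two hm hp (by omega)) ?_
      (d := 2 * ‖(xF m l : C)‖) ?_ (hx.trans (by norm_num)) ?_ ?_ (ih (by omega))
    · rw [Nat.add_sub_cancel]
      calc 4 = 2 ^ 2 := rfl
        _ ∣ 2 ^ (2 ^ m) := pow_dvd_pow 2 (by have := two_mul_lt m hm; omega)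
    · rw [xF_sq (by omega : l < m)]
      push_cast
      rw [norm_pow]
      nlinarith
    · intro a _ _
      exact norm_PP _ _ _ _ _
    · rw [(datF hm hp (by omega : l + 1 < m)).norm_p]
      exact pow_le_of_le_one hx0 (hx.trans (by norm_num)) (by positivity)

theorem nearTop [IsAlgClosed C] (h2 : ‖(2 : C)‖ = 1 / 2) {l : ℕ} (hm : 3 ≤ l + 2)
    (hp : (2 ^ (2 ^ (l + 2)) + 1).Prime) [Fact (2 ^ (2 ^ (l + 2)) + 1).Prime]
    {ψ : AddChar (ZMod (2 ^ (2 ^ (l + 2)) + 1)) C} (hψ : ψ.IsPrimitive)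
    {z : C} (hz : z ^ (2 ^ (l + 2 - 1)) = -1) :
    ∃ e : ℝ, e < 1 / 2 ∧ (datF hm hp (Nat.lt_succ_self (l + 1))).Near
      (hom hz (Nat.lt_succ_self (l + 1))) ψ e := by
  have h3 := nearF h2 hm hp hψ hz l (by omega)
  have hx : ‖(xF (l + 2) (l + 1) : C)‖ ≤ (1 / 2) ^ 2 := norm_xF_le h2 (by
    have : l + 2 - (l + 1) = 1 := by omega
    rw [this]; norm_num)
  have hx4 : ‖(xF (l + 2) l : C)‖ ≤ (1 / 2) ^ 4 := norm_xF_le h2 (by
    have : l + 2 - l = 2 := by omega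
    rw [this]; norm_num)
  have hx0 := norm_nonneg (xF (l + 2) (l + 1) : C)
  set φ := hom hz (Nat.lt_succ_self (l + 1)) with hφ
  have hpi := norm_pii_lt φ h2
  have hpi0 := norm_nonneg (φ (pii (l + 1)))
  set e : ℝ := max (‖(xF (l + 2) (l + 1) : C)‖ * ‖φ (pii (l + 1))‖) (1 / 8) with he
  have he4 : e < 1 / 4 := by
    apply max_lt _ (by norm_num)
    nlinarith
  refine ⟨2 * e, by linarith, ?_⟩
  refine Dat.near_step (datF hm hp (by omega)) (datF hm hp (by omega)) (xF_sq (by omega))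
      (hom_sq hz (by omega) (by omega)) hψ h2 (hx.trans (by norm_num)) (ind_two hm hp (by omega)) ?_
      (d := 2 * ‖(xF (l + 2) l : C)‖) ?_ (by linarith) ?_ ?_ h3
  · rw [Nat.add_sub_cancel]
    calc 4 = 2 ^ 2 := rfl
      _ ∣ 2 ^ (2 ^ (l + 2)) := pow_dvd_pow 2 (by have := two_mul_lt (l + 2) hm; omega)
  · refine le_trans ?_ (le_max_right _ _)
    linarith
  · intro a ha haa
    refine le_trans ?_ (le_max_left _ _)
    apply norm_PP' _ _ (by omega) _ _ ha haa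
    rw [xF]
    exact dvd_pow_self 2 (by positivity)
  · rw [(datF hm hp (by omega : l + 1 < l + 2)).norm_p]
    refine le_trans ?_ (le_max_right _ _)
    have h4 : ‖(xF (l + 2) (l + 1) : C)‖ ^ (2 ^ (l + 1)) ≤ ‖(xF (l + 2) (l + 1) : C)‖ ^ 2 := by
      apply pow_le_pow_of_le_one hx0 (hx.trans (by norm_num))
      calc 2 = 2 ^ 1 := rfl
        _ ≤ _ := Nat.pow_le_pow_right (by norm_num) (by omega)
    nlinarith

end

/-- **Fermat primes**: the Jacobi sums are the products. -/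
theorem fullF {m : ℕ} (hm : 3 ≤ m) (hp : (2 ^ (2 ^ m) + 1).Prime) [Fact (2 ^ (2 ^ m) + 1).Prime]
    {l : ℕ} (hl : l < m) : (datF hm hp hl).Full := by
  obtain ⟨ψ, hψ⟩ := ex_psi (2 ^ (2 ^ m) + 1)
  obtain ⟨z, hz⟩ := IsAlgClosed.exists_pow_nat_eq (-1 : PadicAlgCl 2) (n := 2 ^ (m - 1))
    (by positivity)
  have h2 := norm_two_alg
  have hx : ‖(xF m l : PadicAlgCl 2)‖ ≤ (1 / 2) ^ 2 := norm_xF_le h2 (by
    calc 2 = 2 ^ 1 := rfl
      _ ≤ _ := Nat.pow_le_pow_right (by norm_num) (by omega))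
  refine Dat.full_of_near (datF hm hp hl) h2 (hom hz hl) (hx.trans (by norm_num))
    (ind_two hm hp hl) ?_ hψ ?_
  rotate_left
  · by_cases hl2 : l + 1 < m
    · intro a
      obtain ⟨f, hf1, hf2⟩ := nearF h2 hm hp hψ hz l hl2 a
      have hx4 : ‖(xF m l : PadicAlgCl 2)‖ ≤ (1 / 2) ^ 4 := norm_xF_le h2 (by
        calc 4 = 2 ^ 2 := rfl
          _ ≤ _ := Nat.pow_le_pow_right (by norm_num) (by omega))
      exact ⟨f, hf1, by linarith⟩
    · obtain ⟨j, rfl⟩ : ∃ j, l = j + 1 := ⟨l - 1, by omega⟩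
      obtain rfl : m = j + 2 := by omega
      obtain ⟨e, he, h⟩ := nearTop h2 hm hp hψ hz
      intro a
      obtain ⟨f, hf1, hf2⟩ := h a
      exact ⟨f, hf1, lt_of_le_of_lt hf2 he⟩
  · rw [Nat.add_sub_cancel]
    calc 4 = 2 ^ 2 := rfl
      _ ∣ 2 ^ (2 ^ m) := pow_dvd_pow 2 (by have := two_mul_lt m hm; omega)

end Pool.Agent.N92.FJ
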