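import Mathlib
import Pool.Agent.N92.FJ.Fin
import Pool.Agent.N92.FJ.Main

/-!
The polynomials of the cyclotomic numbers are monic of degree `2 ^ l`.
-/

set_option autoImplicit false

namespace Pool.Agent.N92.FJ

open Finset Polynomial Dat

variable {l : ℕ}

/-- `V (a, b)` contains half of the units. -/
theorem card_VV_general {a b : ZMod (2 ^ (l + 1))} (ha : a ≠ 0) (hb : b ≠ 0) (hab : a + b ≠ 0) :
    2 * (VV a b).card = 2 ^ l := by
  classical
  have h1 : (VV a b).card + (VV a b)ᶜ.card = 2 ^ l := by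
    rw [card_add_card_compl, card_units']
  have h2 : (VV a b)ᶜ.card = (VV a b).card := by
    refine card_bij' (fun u _ => -u) (fun u _ => -u) ?_ ?_ ?_ ?_
    · intro u hu
      rw [mem_compl, ← mem_VV_neg ha hb hab, mem_VV] at hu
      rw [mem_VV]
      simpa using hu
    · intro u hu
      rw [mem_compl, ← mem_VV_neg ha hb hab, mem_VV]
      rw [mem_VV] at hu
      simpa using hu
    · intro u _; exact neg_neg u
    · intro u _; exact neg_neg u
  omega

theorem JP_degree (v : GG l) (hv : v ≠ 0) : (JP l v).natDegree < 2 ^ l := by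
  classical
  have hl : 0 < 2 ^ l := by positivity
  rw [JP]
  by_cases h : Good v
  · rw [if_pos h, natDegree_neg]
    have h1 := card_VV_general h.1 h.2.1 h.2.2
    refine lt_of_le_of_lt (natDegree_prod_le _ _) ?_
    refine lt_of_le_of_lt (sum_le_card_nsmul _ _ 1 ?_) ?_
    · intro u _
      refine (natDegree_sub_le _ _).trans (max_le ?_ ?_)
      · rw [natDegree_one]; exact Nat.zero_le _
      · exact (natDegree_C_mul_le _ _).trans natDegree_X_le
    · rw [smul_eq_mul, mul_one]; omega
  · rw [if_neg h, if_neg hv, natDegree_neg, natDegree_one]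
    exact hl

theorem CP_coeff (g : GG l) (i : ℕ) :
    (CP l g).coeff i = tau l ((∑ v : GG l, JP l v * C (pr (-v) g)).coeff i) := by
  rw [CP]
  set Q := ∑ v : GG l, JP l v * C (pr (-v) g) with hQ
  rw [finsetSum_coeff]
  by_cases hi : i < Q.natDegree + 1
  · rw [sum_eq_single_of_mem i (mem_range.mpr hi)]
    · rw [coeff_C_mul, coeff_X_pow, if_pos rfl, mul_one]
    · intro j _ hj
      rw [coeff_C_mul, coeff_X_pow, if_neg (Ne.symm hj), mul_zero]
  · rw [coeff_eq_zero_of_natDegree_lt (by omega : Q.natDegree < i)]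
    have h0 : tau l (0 : R l) = 0 := by
      have := tau_int l 0
      rwa [Int.cast_zero] at this
    rw [h0]
    apply sum_eq_zero
    intro j hj
    rw [mem_range] at hj
    rw [coeff_C_mul, coeff_X_pow, if_neg (by omega), mul_zero]

theorem JP_zero : JP l 0 = X ^ (2 ^ l) - 1 := by
  classical
  rw [JP, if_neg (fun h => h.1 rfl), if_pos rfl]

theorem pr_neg_zero (g : GG l) : pr (-(0 : GG l)) g = 1 := by
  rw [neg_zero, pr, Prod.fst_zero, Prod.snd_zero, zero_mul, zero_mul, add_zero,
    AddChar.map_zero_eq_one]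

theorem Q_coeff (g : GG l) {i : ℕ} (hi : 2 ^ l ≤ i) :
    (∑ v : GG l, JP l v * C (pr (-v) g)).coeff i = if i = 2 ^ l then 1 else 0 := by
  classical
  have hl : 0 < 2 ^ l := by positivity
  rw [finsetSum_coeff, sum_eq_single_of_mem 0 (mem_univ _)]
  · rw [coeff_mul_C, JP_zero, pr_neg_zero, mul_one, coeff_sub, coeff_X_pow, coeff_one,
      if_neg (by omega : ¬ i = 0), sub_zero]
  · intro v _ hv
    rw [coeff_mul_C, coeff_eq_zero_of_natDegree_lt (lt_of_lt_of_le (JP_degree v hv) hi), zero_mul]

theorem CP_monic (g : GG l) : (CP l g).Monic ∧ (CP l g).natDegree = 2 ^ l := by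
  have h0 : tau l (0 : R l) = 0 := by
    have := tau_int l 0
    rwa [Int.cast_zero] at this
  have h1 : tau l (1 : R l) = 1 := by
    have := tau_int l 1
    rwa [Int.cast_one] at this
  have h2 : (CP l g).natDegree ≤ 2 ^ l := by
    rw [natDegree_le_iff_coeff_eq_zero]
    intro i hi
    rw [CP_coeff, Q_coeff g hi.le, if_neg (by omega), h0]
  have h3 : (CP l g).coeff (2 ^ l) = 1 := by
    rw [CP_coeff, Q_coeff g le_rfl, if_pos rfl, h1]
  exact ⟨monic_of_natDegree_le_of_coeff_eq_one _ h2 h3,
    natDegree_eq_of_le_of_coeff_ne_zero h2 (by rw [h3]; exact one_ne_zero)⟩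

end Pool.Agent.N92.FJ
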