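import Mathlib
import Pool.Agent.N92.FJ.Deg
import Pool.Agent.Y875.FP.MerC

/-!
The evaluation of the Jacobi sums in the case that `x` is even and `2` is a power residue, from the
starting library.
-/

set_option autoImplicit false

namespace Pool.Agent.N92.FJ

open Finset

theorem VV_eq_Th {l : ℕ} {a b : ZMod (2 ^ (l + 1))} (ha : a ≠ 0) (hb : b ≠ 0) (hab : a + b ≠ 0) :
    VV a b = Pool.Agent.Y875.FP.Th l a b := by
  ext u
  rw [← not_iff_not, ← mem_VV_neg ha hb hab, mem_VV, Pool.Agent.Y875.FP.mem_Th, not_le, mul_neg,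
    mul_neg, mul_comm a, mul_comm b]

theorem Dat.full_lib {l x p N : ℕ} [Fact p.Prime] (D : Dat l x p N) (hl : 2 ≤ l)
    (h2 : (2 : ZMod p) ^ N = 1) (hx : 4 ∣ x ∨ (2 ∣ x ∧ 3 ≤ l)) : D.Full := by
  intro a b ha hb hab
  obtain ⟨z, hz⟩ := IsAlgClosed.exists_pow_nat_eq (-1 : ℂ) (n := 2 ^ l) (by positivity)
  let φ : R l →+* ℂ := AdjoinRoot.lift (Int.castRingHom _) z (eval_phi l _ hz)
  have hφ : φ (zt l) = z := AdjoinRoot.lift_root _
  have hz0 : z ≠ 0 := by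
    rintro rfl
    rw [zero_pow (by positivity)] at hz
    norm_num at hz
  have hzi : z⁻¹ ^ (2 ^ l) = -1 := by rw [inv_pow, hz]; norm_num
  have hzn : z⁻¹ ^ (2 ^ (l + 1)) = 1 := by rw [pow_succ, pow_mul, hzi]; norm_num
  have hex : ∀ i : ZMod (2 ^ (l + 1)), Pool.Agent.Y875.FP.ex z⁻¹ (-i) = φ (EE l i) := by
    intro i
    have h1 := Pool.Agent.Y875.FP.ex_neg_mul hzn i
    have h3 : φ (EE l i) * Pool.Agent.Y875.FP.ex z⁻¹ i = 1 := by
      rw [EE_apply, map_pow, hφ, Pool.Agent.Y875.FP.ex, ← mul_pow, mul_inv_cancel₀ hz0, one_pow]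
    have h4 : Pool.Agent.Y875.FP.ex z⁻¹ i ≠ 0 := by
      intro h; rw [h, mul_zero] at h1; exact zero_ne_one h1
    exact mul_right_cancel₀ h4 (h1.trans h3.symm)
  have hc : (Pool.Agent.Y875.FP.ci l p x) * (x : ZMod p) = 1 := Pool.Agent.Y875.FP.cpow D.hp
  have hcn : (Pool.Agent.Y875.FP.ci l p x) ^ (2 ^ (l + 1)) = 1 := by
    have h1 := congrArg (fun y => y ^ (2 ^ (l + 1))) hc
    simp only [mul_pow, one_pow] at h1
    rwa [D.x_pow_n, mul_one] at h1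
  have hexc : ∀ i : ZMod (2 ^ (l + 1)),
      Pool.Agent.Y875.FP.ex (Pool.Agent.Y875.FP.ci l p x) (-i) = D.ee i := by
    intro i
    have h1 := Pool.Agent.Y875.FP.ex_neg_mul hcn i
    have h3 : D.ee i * Pool.Agent.Y875.FP.ex (Pool.Agent.Y875.FP.ci l p x) i = 1 := by
      rw [ee_apply, Pool.Agent.Y875.FP.ex, ← mul_pow, mul_comm, hc, one_pow]
    have h4 : Pool.Agent.Y875.FP.ex (Pool.Agent.Y875.FP.ci l p x) i ≠ 0 := by
      intro h; rw [h, mul_zero] at h1; exact zero_ne_one h1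
    exact mul_right_cancel₀ h4 (h1.trans h3.symm)
  set χ : MulChar (ZMod p) ℂ := (D.ch 1).ringHomComp φ with hχ
  have hres : Pool.Agent.Y875.FP.IsRes l p x N z⁻¹ χ := by
    intro u hu
    refine ⟨-(D.ind u), ?_, ?_⟩
    · rw [hex, hχ, MulChar.ringHomComp_apply, D.ch_apply 1 hu, one_mul]
    · rw [hexc, D.ind_spec hu]
  have hpow : ∀ c : ZMod (2 ^ (l + 1)), χ ^ c.val = (D.ch c).ringHomComp φ := by
    intro c
    rw [hχ, MulChar.ringHomComp_pow, D.ch_pow, ZMod.natCast_zmod_val]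
  obtain ⟨ω, hω⟩ := HasEnoughRootsOfUnity.exists_primitiveRoot ℂ p
  have hψ := AddChar.zmodChar_primitive_of_primitive_root p hω
  have hp2 : p ≠ 2 := D.two_lt.ne'
  have main := Pool.Agent.Y875.FP.jac_all (m := l) hzi D.hp hp2 D.hN hres hl D.hE h2 hx hψ ha hb hab
  rw [hpow, hpow] at main
  have h5 : jacobiSum ((D.ch a).ringHomComp φ) ((D.ch b).ringHomComp φ) = φ (D.JJ a b) :=
    jacobiSum_ringHomComp _ _ _
  rw [h5] at main
  apply hom_inj φ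
  rw [main, map_neg, PP, map_prod, Pool.Agent.Y875.FP.PP, VV_eq_Th ha hb hab]
  congr 1
  refine prod_congr rfl fun u _ => ?_
  rw [LL, map_sub, map_one, map_mul, map_natCast, ← hex, neg_neg]
  rfl

/-- The case of an even number `x`. -/
theorem Dat.of_even {l x p : ℕ} (hp : p.Prime) (h : p = x ^ (2 ^ l) + 1) (hl : 2 ≤ l)
    (hx : 4 ∣ x ∨ (2 ∣ x ∧ 3 ≤ l)) : Dat l x p ((p - 1) / 2 ^ (l + 1)) := by
  have h0 : 2 ^ (l + 2) ∣ x ^ (2 ^ l) := by
    rcases hx with h4 | ⟨h2, h3⟩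
    · have h5 : l + 2 ≤ 2 * 2 ^ l := by
        have := Nat.lt_two_pow_self (n := l)
        omega
      have h6 : (4 : ℕ) ^ (2 ^ l) = 2 ^ (2 * 2 ^ l) := by rw [pow_mul]; norm_num
      exact (pow_dvd_pow 2 h5).trans (h6 ▸ pow_dvd_pow_of_dvd h4 _)
    · have h5 : l + 2 ≤ 2 ^ l := by
        have := two_mul_lt l h3
        omega
      exact (pow_dvd_pow 2 h5).trans (pow_dvd_pow_of_dvd h2 _)
  have h1 : 2 ^ (l + 1) ∣ x ^ (2 ^ l) := (pow_dvd_pow 2 (by omega)).trans h0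
  have h2 : 2 ^ (l + 1) * ((p - 1) / 2 ^ (l + 1)) = x ^ (2 ^ l) := by
    rw [h, Nat.add_sub_cancel, Nat.mul_div_cancel' h1]
  refine ⟨hp, h, h2, ?_⟩
  rw [← h2, pow_succ] at h0
  exact (even_iff_two_dvd).mpr (Nat.dvd_of_mul_dvd_mul_left (by positivity) h0)

/-- The Fermat primes, including the last level. -/
theorem datF' {m : ℕ} (hm : 3 ≤ m) (hp : (2 ^ (2 ^ m) + 1).Prime) {l : ℕ} (hl : l ≤ m) :
    Dat l (xF m l) (2 ^ (2 ^ m) + 1) (nF m l) := by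
  have h1 := two_mul_lt m hm
  refine ⟨hp, by rw [xF_pow hl], ?_, ?_⟩
  · rw [xF_pow hl, nF, ← pow_add]
    congr 1; omega
  · rw [nF]
    exact (even_two).pow_of_ne_zero (by omega)

theorem two_mul_lt' (m : ℕ) (hm : 3 ≤ m) : 2 * m + 2 ≤ 2 ^ m := by
  induction m, hm using Nat.le_induction with
  | base => norm_num
  | succ m hm ih => rw [pow_succ]; omega

theorem two_pow_nF {m : ℕ} (hm : 3 ≤ m) {l : ℕ} (hl : l ≤ m) :
    (2 : ZMod (2 ^ (2 ^ m) + 1)) ^ (nF m l) = 1 := by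
  have h1 := two_mul_lt' m hm
  have h2 : (2 : ZMod (2 ^ (2 ^ m) + 1)) ^ (2 ^ m) = -1 := by
    have h : ((2 ^ (2 ^ m) + 1 : ℕ) : ZMod (2 ^ (2 ^ m) + 1)) = 0 := ZMod.natCast_self _
    push_cast at h
    exact eq_neg_of_add_eq_zero_left h
  have h3 : nF m l = 2 ^ m * (2 * 2 ^ (2 ^ m - (l + 1) - (m + 1))) := by
    rw [nF, ← pow_succ', ← pow_add]
    congr 1; omega
  rw [h3, pow_mul, h2, pow_mul]
  norm_num

/-- **Fermat primes**: all levels `l ≤ m`. -/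
theorem fullF' {m : ℕ} (hm : 3 ≤ m) (hp : (2 ^ (2 ^ m) + 1).Prime) [Fact (2 ^ (2 ^ m) + 1).Prime]
    {l : ℕ} (hl : l ≤ m) : (datF' hm hp hl).Full := by
  rcases hl.lt_or_eq with h | h
  · exact fullF hm hp h
  · subst h
    refine Dat.full_lib _ (by omega) (two_pow_nF hm le_rfl) (Or.inr ⟨?_, hm⟩)
    rw [xF]
    exact dvd_pow_self 2 (by positivity)

end Pool.Agent.N92.FJ
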